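import Mathlib
import Pool.Agent.Work.MP_56b8f5_nt.UC.Defs
import Pool.Agent.Work.MP_56b8f5_nt.UC.Stmts
import Pool.Agent.Work.MP_a8fbd7_nt.OX.ID.Linnik

/-!
MP_a8fbd7_nt (prime counts in Oppermann intervals), block ZF: the region near `s = 1`.

Input: ONE statement of block VK (helper44): `StVK3` (zero-free region of width `C loglog|t|/log|t|` for every `C`, with
`|ζ'/ζ| ≤ C' (log|t|)²`).  Output: strong bounds for `∑ Λ(n) n^{-it}`, for primes, for rough numbers (sharp and smooth cut-off),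
the prime number theorem with error `x (log x)^{-A}`, and the sum of a product of Dirichlet polynomials over the points where all of
them are nearly maximal (`StNear`).

Every item is `theorem iNAME (h1 : StA) (h2 : StB) ... : StNAME := ...` in the file `ZF/I_NAME.lean`; it may use any statement listed
in its docstring as a hypothesis (and nothing else from this block).  Constants depend only on the parameters quantified before them.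
-/

open MeasureTheory Set Filter Topology

noncomputable section

namespace Pool.Agent.Work.MP_a8fbd7_nt.ZF

open Pool.Agent.Work.MP_56b8f5_nt.UC (IsWt Bl Dp Sep)
open Pool.Agent.Work.MP_a8fbd7_nt.OX.ID (Rough roughOne)

/-- `G(s) = -ζ₁'(s)/ζ₁(s)`, `ζ₁ = riemannZeta₁` entire, `ζ(s) = ζ₁(s)/(s-1)`: `G(s) = -ζ'(s)/ζ(s) - 1/(s-1)` for `s ≠ 1`, `ζ(s) ≠ 0`. -/
def Gz (s : ℂ) : ℂ := -(deriv riemannZeta₁ s / riemannZeta₁ s)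

/-- `∑_{n ≤ y} Λ(n) n^{-it}` -/
def Ls (y t : ℝ) : ℂ :=
  ∑ n ∈ Finset.Icc 1 ⌊y⌋₊, ((ArithmeticFunction.vonMangoldt n : ℝ) : ℂ) * (n : ℂ) ^ (-(t * Complex.I))

/-- `∑_{n ≤ y} (y - n) Λ(n) n^{-it}` -/
def Lr (y t : ℝ) : ℂ :=
  ∑ n ∈ Finset.Icc 1 ⌊y⌋₊, ((y - n : ℝ) : ℂ) * (((ArithmeticFunction.vonMangoldt n : ℝ) : ℂ) * (n : ℂ) ^ (-(t * Complex.I)))

/-- `∑_{p ≤ y} p^{-it}` -/
def Ps (y t : ℝ) : ℂ :=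
  ∑ p ∈ (Finset.Icc 1 ⌊y⌋₊).filter Nat.Prime, (p : ℂ) ^ (-(t * Complex.I))

open Classical in
/-- `∑_{2 ≤ n ≤ y, n z-rough} n^{-it}` (`Rough z n`: all prime factors of `n` are `> z`) -/
def Rs (z : ℕ) (y t : ℝ) : ℂ :=
  ∑ n ∈ (Finset.Ioc 1 ⌊y⌋₊).filter (fun n : ℕ => Rough z n), (n : ℂ) ^ (-(t * Complex.I))

/-- smooth rough block `∑_{n ≥ 2, n z-rough} w(n/N) n^{-it}` -/
def Rw (w : ℝ → ℝ) (z : ℕ) (N t : ℝ) : ℂ :=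
  ∑' n : ℕ, ((roughOne z n * w ((n : ℝ) / N) : ℝ) : ℂ) * (n : ℂ) ^ (-(t * Complex.I))

/-- INPUT from block VK. -/
def StVK3 : Prop := ∀ C : ℝ, 1 ≤ C → ∃ C' T0 : ℝ, 1 ≤ C' ∧ 3 ≤ T0 ∧ ∀ s : ℂ, T0 ≤ |s.im| →
  1 - C * Real.log (Real.log |s.im|) / Real.log |s.im| ≤ s.re →
  riemannZeta s ≠ 0 ∧ ‖deriv riemannZeta s / riemannZeta s‖ ≤ C' * Real.log |s.im| ^ 2

/-! ### Part 1: `∑ Λ(n) n^{-it}` -/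

/-- ITEM Lo (low heights; compactness).  `riemannZeta₁` is entire, `≠ 0` on `Re s ≥ 1` (`riemannZeta₁ 1 = 1`, `riemannZeta_ne_zero_of_one_le_re`; cf. `MP_37bd4f_nt/ZetaZeros.lean`).
The zeros form a closed set disjoint from the compact set `K = {1 ≤ Re s ≤ 3, |Im s| ≤ T0}`; let `2c ≤ 1/2` be `≤` the distance.  On the compact set
`{1-c ≤ Re s ≤ 3, |Im s| ≤ T0}` the continuous function `Gz` is bounded. -/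
def StLo : Prop := ∀ T0 : ℝ, 1 ≤ T0 → ∃ c C : ℝ, 0 < c ∧ c ≤ 1 / 2 ∧ 1 ≤ C ∧ ∀ s : ℂ, |s.im| ≤ T0 → 1 - c ≤ s.re → s.re ≤ 3 →
  riemannZeta₁ s ≠ 0 ∧ ‖Gz s‖ ≤ C

/-- ITEM Rg (uniform region; uses StVK3, StLo).  Given `K` take `T0, C'` from StVK3 (enlarge `T0` to `≥ e^e`, so that `loglog x/log x` decreases for `x ≥ T0`), `c, C` from StLo(T0),
and `H0` with `K loglog H/log H ≤ c` for `H ≥ H0`.  For `T0 ≤ |Im s| ≤ H`: `K loglog H/log H ≤ K loglog|Im s|/log|Im s|`, StVK3 applies, `ζ₁(s) = (s-1)ζ(s)`,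
`G = -ζ'/ζ - 1/(s-1)` and `|1/(s-1)| ≤ 1`.  For `|Im s| ≤ T0`: StLo. -/
def StRg : Prop := ∀ K : ℝ, 1 ≤ K → ∃ C H0 : ℝ, 1 ≤ C ∧ 3 ≤ H0 ∧ ∀ (H : ℝ) (s : ℂ), H0 ≤ H → |s.im| ≤ H →
  1 - K * Real.log (Real.log H) / Real.log H ≤ s.re → s.re ≤ 3 →
  riemannZeta₁ s ≠ 0 ∧ ‖Gz s‖ ≤ C * Real.log H ^ 2

/-- ITEM Mb (right of 1).  `‖ζ'/ζ(c+iv)‖ ≤ ∑ Λ(n) n^{-c} = G(c) + 1/(c-1)` (`ArithmeticFunction.LSeries_vonMangoldt_eq_deriv_riemannZeta_div`), `G` is continuous on `[1,3]`, `|1/(c+iv-1)| ≤ 1/(c-1)`.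
Also continuity of `v ↦ G(c+iv)` (`ζ₁ ≠ 0` for `Re s ≥ 1`) and the identity `G(s) = ∑ Λ(n) n^{-s} - 1/(s-1)`. -/
def StMb : Prop := ∃ C : ℝ, 1 ≤ C ∧ ∀ c : ℝ, 1 < c → c ≤ 3 →
  (Continuous fun v : ℝ => Gz (c + v * Complex.I)) ∧
  ∀ v : ℝ, ‖Gz (c + v * Complex.I)‖ ≤ C / (c - 1) ∧
    Gz (c + v * Complex.I) = LSeries (fun n => ((ArithmeticFunction.vonMangoldt n : ℝ) : ℂ)) (c + v * Complex.I) - 1 / (c + v * Complex.I - 1)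

/-- ITEM Kn (the Riesz kernel).  `f(u) = (1 - e^{-u}) e^{-cu}` for `u ≥ 0`, `0` for `u < 0`, is continuous and integrable with Fourier transform
`∫ f(u) e^{-iuv} du = 1/(c+iv) - 1/(c+1+iv) = 1/((c+iv)(c+1+iv))`, integrable in `v`; Fourier inversion at `u = log x`, times `x^c`. -/
def StKn : Prop := ∀ c x : ℝ, 0 < c → 0 < x →
  Integrable (fun v : ℝ => (x : ℂ) ^ (c + v * Complex.I) / ((c + v * Complex.I) * (c + 1 + v * Complex.I))) ∧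
  (1 / (2 * Real.pi) : ℝ) * ∫ v : ℝ, (x : ℂ) ^ (c + v * Complex.I) / ((c + v * Complex.I) * (c + 1 + v * Complex.I)) =
    ((max (1 - 1 / x) 0 : ℝ) : ℂ)

/-- ITEM Pe (Perron formula for the Riesz mean; uses StKn, StMb).  (i) `Lr y t = ∑_n Λ(n) n^{-it} y max(1 - n/y, 0)`, insert StKn with `x = y/n` and exchange (absolutely convergent,
`∑ Λ(n) n^{-c} < ∞`): `Lr y t = (1/2π) ∫ (∑ Λ(n) n^{-c-i(t+v)}) y^{c+1+iv}/((c+iv)(c+1+iv)) dv`.  (ii) `∫_1^y (y-u) u^{-it} du = ∫_1^∞ u^{-it} y max(1-u/y,0) du`, insert StKn with `x = y/u`, Fubini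
(`∫_1^∞ u^{-c} du < ∞`), `∫_1^∞ u^{-s} du = 1/(s-1)`.  Subtract and use StMb. -/
def StPe : Prop := ∀ c y t : ℝ, 1 < c → c ≤ 3 → 1 ≤ y →
  Lr y t - ∫ u in (1 : ℝ)..y, ((y - u : ℝ) : ℂ) * (u : ℂ) ^ (-(t * Complex.I)) =
    (1 / (2 * Real.pi) : ℝ) * ∫ v : ℝ, Gz (c + (t + v) * Complex.I) * (y : ℂ) ^ (c + 1 + v * Complex.I) /
      ((c + v * Complex.I) * (c + 1 + v * Complex.I))

/-- ITEM Sh (shift of the contour; no number theory).  `g(s) = G(s+it) y^{s+1}/(s(s+1))` is holomorphic on the rectangle `a ≤ Re s ≤ c`, `|Im s| ≤ U` (`a ≥ 1/2`).  Tail `|v| > U` on `Re s = c`: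
`≤ 2 M2 y^{c+1}/U`.  By Cauchy (`MP_37bd4f_nt/Contour.lean`: `rect_zero`, or Mathlib's rectangle theorem) the rest is the integral over `Re s = a`, `≤ M y^{a+1} ∫ dv/(1/4+v²)`, and two horizontal sides,
each `≤ 3 M y^{c+1}/U²`. -/
def StSh : Prop := ∃ C : ℝ, 1 ≤ C ∧ ∀ (G : ℂ → ℂ) (a c y U t M M2 : ℝ), 1 / 2 ≤ a → a ≤ c → c ≤ 3 → 1 ≤ U → 1 ≤ y → 0 ≤ M → 0 ≤ M2 →
  (∀ s : ℂ, a ≤ s.re → s.re ≤ c → |s.im - t| ≤ U → DifferentiableAt ℂ G s ∧ ‖G s‖ ≤ M) →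
  (Continuous fun v : ℝ => G (c + (t + v) * Complex.I)) → (∀ v : ℝ, ‖G (c + (t + v) * Complex.I)‖ ≤ M2) →
  ‖∫ v : ℝ, G (c + (t + v) * Complex.I) * (y : ℂ) ^ (c + 1 + v * Complex.I) / ((c + v * Complex.I) * (c + 1 + v * Complex.I))‖ ≤
    C * (M2 * y ^ (c + 1) / U + M * y ^ (c + 1) / U ^ 2 + M * y ^ (a + 1))

/-- ITEM Bd (uses StRg, StMb, StPe, StSh).  Let `c = 1 + 1/log y`, `U = (log y)^{A+2}`, `H = y^{B+1}`, `K = (B+1)(A+3)`, `a = 1 - K loglog H/log H`, `y ≥ y₀(A,B)` (so `y^B + U ≤ H`, `H ≥ H0`, `a ≥ 1/2`, `U ≥ 1`, `c ≤ 3`).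
StSh with `M = C (log H)² ≤ C'(log y)²` (StRg; `G` is differentiable where `ζ₁ ≠ 0`), `M2 = C log y` (StMb): `y^{c+1} = e y²`, `y^{a+1} = y² (log H)^{-K/(B+1)} ≤ y² (log y)^{-(A+3)}`: total
`≤ C y² ((log y)^{-A-1} + (log y)^{-2A-2} + (log y)^{-A-1})`.  For `2 ≤ y ≤ y₀` the left side is bounded and the right side is bounded below. -/
def StBd : Prop := ∀ A B : ℝ, 0 < A → 0 < B → ∃ C : ℝ, 1 ≤ C ∧ ∀ y t : ℝ, 2 ≤ y → |t| ≤ y ^ B →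
  ‖Lr y t - ∫ u in (1 : ℝ)..y, ((y - u : ℝ) : ℂ) * (u : ℂ) ^ (-(t * Complex.I))‖ ≤ C * y ^ 2 / Real.log y ^ A

/-- ITEM Un (unsmoothing; uses StBd with `2A+1`).  `D(y) = Lr y t - ∫_1^y (y-u)u^{-it} du`, `h = y (log y)^{-A-1}` for `y ≥ 3` (so `h ≤ y`; `2 ≤ y ≤ 3` trivial):
`h (Ls y t - ∫_1^y u^{-it} du) = D(y+h) - D(y) + ∫_y^{y+h} (y+h-u) u^{-it} du - ∑_{y<n≤y+h} (y+h-n) Λ(n) n^{-it}`; divide by `h`: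
`≤ C y² (log y)^{-2A-1}/h + h + (h+1) log(2y) ≤ C y (log y)^{-A}` (`|t| ≤ y^B ≤ (y+h)^B`). -/
def StUn : Prop := ∀ A B : ℝ, 0 < A → 0 < B → ∃ C : ℝ, 1 ≤ C ∧ ∀ y t : ℝ, 2 ≤ y → |t| ≤ y ^ B →
  ‖Ls y t - ∫ u in (1 : ℝ)..y, (u : ℂ) ^ (-(t * Complex.I))‖ ≤ C * y / Real.log y ^ A

/-! ### Part 2: primes and rough numbers -/

/-- ITEM PrA (primes; uses StUn).  `ϑ_t(u) = ∑_{p ≤ u} (log p) p^{-it}` differs from `Ls u t` by `≤ C√u log u` (prime powers; `Chebyshev.psi`, `Chebyshev.theta`).  `E(u) = ϑ_t(u) - ∫_1^u v^{-it} dv` is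
`≤ C u (log u)^{-A}` for `√y ≤ u ≤ y` (`|t| ≤ y^B ≤ u^{2B}`: StUn with `2B`), `≤ C u` always.  Partial summation: `Ps y t = ϑ_t(y)/log y + ∫_2^y ϑ_t(u)/(u log² u) du`; the same for the main term gives
`∫_2^y u^{-it}/log u du + O(1)`; error `≤ |E(y)|/log y + ∫_2^y |E(u)|/(u log² u) du ≤ C y (log y)^{-A}`. -/
def StPrA : Prop := ∀ A B : ℝ, 0 < A → 0 < B → ∃ C : ℝ, 1 ≤ C ∧ ∀ y t : ℝ, 2 ≤ y → |t| ≤ y ^ B →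
  ‖Ps y t - ∫ u in (2 : ℝ)..y, (u : ℂ) ^ (-(t * Complex.I)) / (Real.log u : ℂ)‖ ≤ C * y / Real.log y ^ A

/-- ITEM Pnt (prime number theorem; StPrA with `t = 0`). -/
def StPnt : Prop := ∀ A : ℝ, 0 < A → ∃ C : ℝ, 1 ≤ C ∧ ∀ y : ℝ, 2 ≤ y →
  |(Nat.primeCounting ⌊y⌋₊ : ℝ) - ∫ u in (2 : ℝ)..y, 1 / Real.log u| ≤ C * y / Real.log y ^ A

/-- ITEM PrI (primes in intervals, large `t`; uses StPrA).  `Ps y t - Ps a t`.  If `a < √y` replace `a` by `√y` (error `≤ √y`).  For `√y ≤ a ≤ y` StPrA (exponent `2B` at `a`), and the main term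
`∫_a^y u^{-it}/log u du` is `≤ C y/|t|` (one integration by parts), `|t| ≥ (log y)^A`. -/
def StPrI : Prop := ∀ A B : ℝ, 0 < A → 0 < B → ∃ C : ℝ, 1 ≤ C ∧ ∀ y a t : ℝ, 2 ≤ y → 0 ≤ a → a ≤ y →
  Real.log y ^ A ≤ |t| → |t| ≤ y ^ B → ‖Ps y t - Ps a t‖ ≤ C * y / Real.log y ^ A

/-- ITEM Ro (rough numbers, sharp cut-off; uses StPrI).  `n = m p`, `p` the largest prime factor: `Rs z y t = ∑_{m ≤ y, m = 1 or rough} m^{-it} ∑_{p ∈ (a_m, b_m]} p^{-it}`, `b_m = y/m`,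
`a_m = max(z, P⁺(m) - 1)` (empty unless `b_m > z ≥ T^η`, and unless `a_m < b_m`).  StPrI with `A+1` and `B = 3/η` (`|t| ≤ T³ ≤ b_m^{3/η}`; `log b_m ≤ 3 log T`, so `(log b_m)^{A+1} ≤ |t|` if `(log T)^{A+2} ≤ |t|` and `T` is
large): `≤ C (y/m) (η log T)^{-A-1}`, and `∑_{m ≤ y} 1/m ≤ 1 + 3 log T`.  For bounded `T` trivial (`|Rs| ≤ y`). -/
def StRo : Prop := ∀ A η : ℝ, 0 < A → 0 < η → ∃ C : ℝ, 1 ≤ C ∧ ∀ (T y t : ℝ) (z : ℕ), 3 ≤ T → T ^ η ≤ z → 1 ≤ y → y ≤ T ^ 3 →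
  Real.log T ^ (A + 2) ≤ |t| → |t| ≤ T ^ 3 → ‖Rs z y t‖ ≤ C * y / Real.log T ^ A

/-- ITEM RoW (rough numbers, smooth weight; uses StRo).  `w` is supported in `[a,b]`; Abel summation `Rw w z N t = -∫_1^{bN} N^{-1} w'(u/N) Rs z u t du` (`roughOne z n` is the indicator of the rough `n ≥ 2`), `|w'| ≤ C`,
`bN ≤ T³` for large `T`; `|Rs z u t| ≤ C u (log T)^{-A}` by StRo for `u ≥ 1`.  For bounded `T` trivial. -/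
def StRoW : Prop := ∀ w : ℝ → ℝ, IsWt w → ∀ A η : ℝ, 0 < A → 0 < η → ∃ C : ℝ, 1 ≤ C ∧ ∀ (T N t : ℝ) (z : ℕ), 3 ≤ T → T ^ η ≤ z →
  1 ≤ N → N ≤ T ^ (5 / 2 : ℝ) → Real.log T ^ (A + 2) ≤ |t| → |t| ≤ T ^ 3 → ‖Rw w z N t‖ ≤ C * N / Real.log T ^ A

/-! ### Part 3: the near zone -/

/-- ITEM HM (Halász-Montgomery without loss; uses UC.StKp, UC.StS2).  Let `ω` be a weight (`IsWt`) with `0 ≤ ω ≤ 1`, `ω = 1` on `[1, C0]`.  `G(t) = ∑_{n ≤ Y} a_n n^{-it}` with `a_n ≠ 0` only for `L ≤ n ≤ C0 L`; with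
`S = ∑_{t ∈ W} |G(t)|²`: `S = ∑_n a_n ∑_t conj G(t) n^{-it}`, Cauchy-Schwarz: `S² ≤ (∑_n |a_n|²) ∑_n ω(n/L) |∑_t conj G(t) n^{-it}|² ≤ (∑|a_n|²) ∑_{s,t} |G(s)| |G(t)| |Bl ω L (s-t)|`
`≤ (∑|a_n|²) S max_s ∑_t |Bl ω L (s-t)|`, and `|Bl ω L τ| ≤ C(L/(1+τ²) + √(1+|τ|))`, `∑_t 1/(1+(s-t)²) ≤ C`. -/
def StHM : Prop := ∀ C0 : ℝ, 1 ≤ C0 → ∃ C : ℝ, 1 ≤ C ∧ ∀ (T0 T L : ℝ) (Y : ℕ) (a : ℕ → ℂ) (W : Finset ℝ), 1 ≤ T → 1 ≤ L →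
  (∀ n : ℕ, a n ≠ 0 → L ≤ n ∧ (n : ℝ) ≤ C0 * L) → Sep W → (∀ t ∈ W, T0 ≤ t ∧ t ≤ T0 + T) →
  ∑ t ∈ W, ‖Dp Y a t‖ ^ 2 ≤ C * (L + W.card * Real.sqrt T) * ∑ n ∈ Finset.Icc 1 Y, ‖a n‖ ^ 2

/-- ITEM Near (the near zone; uses StHM, UC.StS2).  `u₀ = c/8`.  `G_i = Dp Y (a i)`.  (1) If `L₀ ≤ T²`: `|G₀| ≥ L₀^{1-u₀}` on `W`, StHM gives `|W| L₀^{2-2u₀} ≤ C D L₀ (L₀ + |W|√T)`, and
`C D L₀ √T ≤ L₀^{2-2u₀}/2` for large `T` (`L₀^{1-2u₀} ≥ T^{1/2+c/2}`, `D ≤ T^{c/8}`), so `|W| ≤ 2CD L₀^{2u₀} ≤ 2CD T^{c/2}` and `|W|√T ≤ L₀ ≤ L_i` for large `T`.  (2) If `L₀ > T²`: `|W|√T ≤ 2T^{3/2} ≤ 2L_i`.  So StHM: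
`∑_W |G_i|² ≤ 3 C D L_i²`.  Finally `∑_W |F| ≤ (q ∏L)^{1/3} ∑_W |F|^{2/3}`, `|G₄| ≤ D L₄`, Hölder `∑_W |G₀G₁G₂|^{2/3} ≤ ∏ (∑_W |G_i|²)^{1/3}`: `≤ C' D^{5/3} q^{1/3} ∏L`.  For bounded `T` (`|W| ≤ 2T`; Cauchy-Schwarz
`|G_i|² ≤ 2C0 L_i · D L_i`) trivial: `|F| = |F|^{1/3}|F|^{2/3}`. -/
def StNear : Prop := ∀ c C0 : ℝ, 0 < c → c ≤ 1 / 2 → 1 ≤ C0 → ∃ u0 C : ℝ, 0 < u0 ∧ 1 ≤ C ∧
  ∀ (T0 T q D : ℝ) (L : Fin 3 → ℝ) (L4 : ℝ) (Y : ℕ) (a : Fin 3 → ℕ → ℂ) (G4 : ℝ → ℂ) (W : Finset ℝ),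
  1 ≤ T → (∀ i, T ^ (1 / 2 + c) ≤ L i ∧ L 0 ≤ L i) → 0 < L4 → 0 ≤ q → 1 ≤ D → D ≤ T ^ (c / 8) →
  (∀ i, ∀ n : ℕ, a i n ≠ 0 → L i ≤ n ∧ (n : ℝ) ≤ C0 * L i) → (∀ i, ∑ n ∈ Finset.Icc 1 Y, ‖a i n‖ ^ 2 ≤ D * L i) →
  Sep W → (∀ t ∈ W, T0 ≤ t ∧ t ≤ T0 + T) →
  (∀ t ∈ W, (L 0) ^ (1 - u0) ≤ ‖Dp Y (a 0) t‖) → (∀ t ∈ W, ‖G4 t‖ ≤ D * L4) →
  (∀ t ∈ W, ‖Dp Y (a 0) t * Dp Y (a 1) t * Dp Y (a 2) t * G4 t‖ ≤ q * (L 0 * L 1 * L 2 * L4)) →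
  ∑ t ∈ W, ‖Dp Y (a 0) t * Dp Y (a 1) t * Dp Y (a 2) t * G4 t‖ ≤ C * D ^ 2 * q ^ (1 / 3 : ℝ) * (L 0 * L 1 * L 2 * L4)

/-- ITEM Near2 (the near zone with two products; uses StHM, UC.StS2; proof as StNear).  `u₀ = c/8`.  (1) If `L₀ ≤ T²`: `|G₀| ≥ L₀^{1-u₀}` on `W`, StHM gives `|W| L₀^{2-2u₀} ≤ C D L₀ (L₀ + |W|√T)`, and `C D L₀ √T ≤ L₀^{2-2u₀}/2` for large
`T` (`L₀^{1-2u₀} ≥ T^{1/2+c/2}`, `D ≤ T^{c/8}`), so `|W| ≤ 2CD L₀^{2u₀} ≤ 2CD T^{c/2}` and `|W|√T ≤ L₀ ≤ L₁` for large `T`.  (2) If `L₀ > T²`: `|W|√T ≤ 2T^{3/2} ≤ 2L_i`.  So StHM: `∑_W |G_i|² ≤ 3 C D L_i²` (`i = 0, 1`), and Cauchy-Schwarz: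
`∑_W |G₀G₁G₄| ≤ q L₄ (∑|G₀|²)^{1/2} (∑|G₁|²)^{1/2} ≤ 3 C D q L₀ L₁ L₄`.  For bounded `T` (`|W| ≤ 2T`; Cauchy-Schwarz `|G_i|² ≤ 2C0 L_i · D L_i`) trivial.
USE (helper3): blocks `b_i ∈ [η, 1/2 + κ₁]` with sum `2 ± e`, not all within `4c` of `1/2` (`c ≤ η/4`, `e` much smaller than `c`): there are disjoint subproducts `G₀`, `G₁` of length `≥ 1/2 + c` with a nonempty rest `G₄`; `q = C (log T)^{-A}`. -/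
def StNear2 : Prop := ∀ c C0 : ℝ, 0 < c → c ≤ 1 / 2 → 1 ≤ C0 → ∃ u0 C : ℝ, 0 < u0 ∧ 1 ≤ C ∧
  ∀ (T0 T q D : ℝ) (L : Fin 2 → ℝ) (L4 : ℝ) (Y : ℕ) (a : Fin 2 → ℕ → ℂ) (G4 : ℝ → ℂ) (W : Finset ℝ),
  1 ≤ T → T ^ (1 / 2 + c) ≤ L 0 → L 0 ≤ L 1 → 0 ≤ L4 → 0 ≤ q → 1 ≤ D → D ≤ T ^ (c / 8) →
  (∀ i, ∀ n : ℕ, a i n ≠ 0 → L i ≤ n ∧ (n : ℝ) ≤ C0 * L i) → (∀ i, ∑ n ∈ Finset.Icc 1 Y, ‖a i n‖ ^ 2 ≤ D * L i) →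
  Sep W → (∀ t ∈ W, T0 ≤ t ∧ t ≤ T0 + T) →
  (∀ t ∈ W, (L 0) ^ (1 - u0) ≤ ‖Dp Y (a 0) t‖) → (∀ t ∈ W, ‖G4 t‖ ≤ q * L4) →
  ∑ t ∈ W, ‖Dp Y (a 0) t * Dp Y (a 1) t * G4 t‖ ≤ C * D * q * (L 0 * L 1 * L4)

end Pool.Agent.Work.MP_a8fbd7_nt.ZF
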