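import Mathlib
import Pool.Agent.Work.MP_a8fbd7_nt.ZF.Stmts

/-! Item RoW of block ZF (MP_a8fbd7_nt): rough numbers with a smooth weight, by summation by parts from the sharp cut-off. -/

open MeasureTheory Set Filter Topology

noncomputable section

namespace Pool.Agent.Work.MP_a8fbd7_nt.ZF

open Pool.Agent.Work.MP_56b8f5_nt.UC (IsWt)
open Pool.Agent.Work.MP_a8fbd7_nt.OX.ID (Rough roughOne roughOne_apply)

namespace RoW_aux

/-- the coefficients of the rough block -/
def cf (z : ℕ) (t : ℝ) (n : ℕ) : ℂ := ((roughOne z n : ℝ) : ℂ) * (n : ℂ) ^ (-(t * Complex.I))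

lemma norm_pw {n : ℕ} (hn : 0 < n) (t : ℝ) : ‖(n : ℂ) ^ (-(t * Complex.I))‖ = 1 := by
  rw [Complex.norm_natCast_cpow_of_pos hn]
  simp

lemma cf_norm_le (z : ℕ) (t : ℝ) (n : ℕ) : ‖cf z t n‖ ≤ 1 := by
  unfold cf
  rw [roughOne_apply]
  split_ifs with h
  · rw [norm_mul, norm_pw (by omega)]
    simp
  · simp

lemma sum_cf (z : ℕ) (t : ℝ) (k : ℕ) : ∑ i ∈ Finset.range (k + 1), cf z t i = Rs z k t := by
  classical
  unfold Rs
  rw [Nat.floor_natCast]
  have e : ∀ i : ℕ, cf z t i = if 2 ≤ i ∧ Rough z i then (i : ℂ) ^ (-(t * Complex.I)) else 0 := by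
    intro i
    unfold cf
    rw [roughOne_apply]
    split_ifs <;> simp
  rw [Finset.sum_congr rfl (fun i _ => e i), ← Finset.sum_filter]
  refine Finset.sum_congr ?_ (fun _ _ => rfl)
  ext n
  simp only [Finset.mem_filter, Finset.mem_range, Finset.mem_Ioc]
  constructor
  · rintro ⟨h1, h2, h3⟩
    exact ⟨⟨by omega, by omega⟩, h3⟩
  · rintro ⟨⟨h1, h2⟩, h3⟩
    exact ⟨by omega, by omega, h3⟩

lemma abel (g c : ℕ → ℂ) (M : ℕ) : ∑ i ∈ Finset.range M, g i * c i =
    g M * ∑ i ∈ Finset.range M, c i -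
      ∑ i ∈ Finset.range M, (g (i + 1) - g i) * ∑ j ∈ Finset.range (i + 1), c j := by
  induction M with
  | zero => simp
  | succ M ih =>
    rw [Finset.sum_range_succ, ih,
      Finset.sum_range_succ (fun i => (g (i + 1) - g i) * ∑ j ∈ Finset.range (i + 1), c j),
      Finset.sum_range_succ c]
    ring

lemma wt_facts {w : ℝ → ℝ} (hw : IsWt w) : ∃ b L B : ℝ, 0 < b ∧ 0 ≤ L ∧ 0 ≤ B ∧ (∀ x, b < x → w x = 0) ∧
    (∀ x y, |w x - w y| ≤ L * |x - y|) ∧ ∀ x, |w x| ≤ B := by
  obtain ⟨a, b, ha, hab, hs⟩ := hw.supp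
  have hc : HasCompactSupport w := by
    refine HasCompactSupport.intro (isCompact_Icc : IsCompact (Icc a b)) (fun x hx => ?_)
    by_contra h
    exact hx (hs x h)
  obtain ⟨L, hL⟩ := hw.smooth.lipschitzWith_of_hasCompactSupport hc (by simp)
  obtain ⟨B, hB⟩ := hw.smooth.continuous.bounded_above_of_compact_support hc
  refine ⟨b, L, B, ha.trans hab, L.2, (norm_nonneg _).trans (hB 0), ?_, ?_, fun x => hB x⟩
  · intro x hx
    by_contra h
    exact absurd (hs x h).2 (not_le.2 hx)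
  · intro x y
    have := hL.dist_le_mul x y
    rwa [Real.dist_eq, Real.dist_eq] at this

lemma Rw_eq {w : ℝ → ℝ} {b : ℝ} (hb : ∀ x, b < x → w x = 0) (z : ℕ) {N : ℝ} (hN : 0 < N) (t : ℝ) :
    Rw w z N t = ∑ i ∈ Finset.range (⌊b * N⌋₊ + 1), ((w ((i : ℝ) / N) : ℝ) : ℂ) * cf z t i := by
  unfold Rw
  rw [tsum_eq_sum (s := Finset.range (⌊b * N⌋₊ + 1))]
  · refine Finset.sum_congr rfl (fun i _ => ?_)
    unfold cf
    push_cast
    ring
  · intro n hn
    rw [Finset.mem_range, not_lt] at hn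
    have h1 : b * N < n := Nat.lt_of_floor_lt (by omega)
    rw [hb ((n : ℝ) / N) (by rwa [lt_div_iff₀ hN])]
    simp

end RoW_aux

open RoW_aux in
theorem iRoW (hRo : StRo) : StRoW := by
  intro w hw A η hA hη
  obtain ⟨b, L, B, hb, hL, hB, hw0, hwL, hwB⟩ := wt_facts hw
  obtain ⟨C, hC1, hC⟩ := hRo A η hA hη
  set T1 : ℝ := max (b ^ 2) 3 with hT1
  have hlogT1 : 0 < Real.log T1 := Real.log_pos (by
    have : (3 : ℝ) ≤ T1 := le_max_right _ _
    linarith)
  set D : ℝ := Real.log T1 ^ A with hD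
  have hD0 : 0 < D := Real.rpow_pos_of_pos hlogT1 _
  have hC0 : 0 ≤ C := by linarith
  refine ⟨1 + L * C * (b + 1) ^ 2 + B * (b + 1) * D, ?_, ?_⟩
  · have h1 : 0 ≤ L * C * (b + 1) ^ 2 := by positivity
    have h2 : 0 ≤ B * (b + 1) * D := by positivity
    linarith
  intro T N t z hT hz hN hNT ht1 ht2
  have hN0 : 0 < N := by linarith
  have hT0 : 0 < T := by linarith
  have hlT : 0 < Real.log T := Real.log_pos (by linarith)
  have hlA : 0 < Real.log T ^ A := Real.rpow_pos_of_pos hlT _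
  have hbN : 0 ≤ b * N := by positivity
  set M : ℕ := ⌊b * N⌋₊ + 1 with hM
  have hMle : (M : ℝ) ≤ (b + 1) * N := by
    have : ((⌊b * N⌋₊ : ℕ) : ℝ) ≤ b * N := Nat.floor_le hbN
    rw [hM]
    push_cast
    nlinarith
  have hpos1 : 0 ≤ L * C * (b + 1) ^ 2 := by positivity
  have hpos2 : 0 ≤ B * (b + 1) * D := by positivity
  rw [Rw_eq hw0 z hN0 t, ← hM]
  by_cases hbT : b ^ 2 ≤ T
  · -- summation by parts
    have hbT3 : b * N ≤ T ^ 3 := by
      have h1 : b ≤ T ^ (1 / 2 : ℝ) := by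
        rw [← Real.sqrt_eq_rpow]
        exact Real.le_sqrt_of_sq_le hbT
      calc b * N ≤ T ^ (1 / 2 : ℝ) * T ^ (5 / 2 : ℝ) :=
            mul_le_mul h1 hNT (by linarith) (by positivity)
        _ = T ^ 3 := by
            rw [← Real.rpow_add hT0]
            norm_num
    rw [abel]
    have hgM : w ((M : ℝ) / N) = 0 := by
      apply hw0
      rw [lt_div_iff₀ hN0, hM]
      push_cast
      exact Nat.lt_floor_add_one _
    rw [hgM]
    simp only [Complex.ofReal_zero, zero_mul, zero_sub, norm_neg]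
    have hterm : ∀ i ∈ Finset.range M, ‖(((w (((i + 1 : ℕ) : ℝ) / N) : ℝ) : ℂ) - ((w ((i : ℝ) / N) : ℝ) : ℂ)) *
        ∑ j ∈ Finset.range (i + 1), cf z t j‖ ≤ L / N * (C * ((b + 1) * N) / Real.log T ^ A) := by
      intro i hi
      rw [Finset.mem_range] at hi
      have hi2 : (i : ℝ) ≤ b * N := by
        have : ((⌊b * N⌋₊ : ℕ) : ℝ) ≤ b * N := Nat.floor_le hbN
        have h3 : (i : ℝ) ≤ ((⌊b * N⌋₊ : ℕ) : ℝ) := by exact_mod_cast (by omega : i ≤ ⌊b * N⌋₊)
        linarith
      rw [norm_mul, sum_cf]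
      refine mul_le_mul ?_ ?_ (norm_nonneg _) (by positivity)
      · rw [← Complex.ofReal_sub, Complex.norm_real, Real.norm_eq_abs]
        refine (hwL _ _).trans (le_of_eq ?_)
        push_cast
        rw [← sub_div, add_sub_cancel_left, abs_of_pos (by positivity)]
        ring
      · rcases Nat.eq_zero_or_pos i with h0 | h0
        · subst h0
          have : Rs z ((0 : ℕ) : ℝ) t = 0 := by
            rw [← sum_cf]
            simp [cf]
          rw [this, norm_zero]
          positivity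
        · have h1 : (1 : ℝ) ≤ i := by exact_mod_cast h0
          refine (hC T i t z hT hz h1 (hi2.trans hbT3) ht1 ht2).trans ?_
          gcongr
          nlinarith
    refine (norm_sum_le_of_le _ hterm).trans ?_
    rw [Finset.sum_const, Finset.card_range, nsmul_eq_mul]
    have e : (M : ℝ) * (L / N * (C * ((b + 1) * N) / Real.log T ^ A)) =
        (M : ℝ) * (L * C * (b + 1)) / Real.log T ^ A := by
      field_simp
    rw [e]
    refine div_le_div_of_nonneg_right ?_ hlA.le
    calc (M : ℝ) * (L * C * (b + 1)) ≤ ((b + 1) * N) * (L * C * (b + 1)) :=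
          mul_le_mul_of_nonneg_right hMle (by positivity)
      _ = (L * C * (b + 1) ^ 2) * N := by ring
      _ ≤ (1 + L * C * (b + 1) ^ 2 + B * (b + 1) * D) * N := by
          gcongr
          linarith
  · -- bounded `T`
    rw [not_le] at hbT
    have hterm : ∀ i ∈ Finset.range M, ‖((w ((i : ℝ) / N) : ℝ) : ℂ) * cf z t i‖ ≤ B := by
      intro i _
      rw [norm_mul, Complex.norm_real, Real.norm_eq_abs]
      calc |w ((i : ℝ) / N)| * ‖cf z t i‖ ≤ B * 1 :=
            mul_le_mul (hwB _) (cf_norm_le z t i) (norm_nonneg _) hB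
        _ = B := mul_one _
    refine (norm_sum_le_of_le _ hterm).trans ?_
    rw [Finset.sum_const, Finset.card_range, nsmul_eq_mul, le_div_iff₀ hlA]
    have hlD : Real.log T ^ A ≤ D := by
      rw [hD]
      refine Real.rpow_le_rpow hlT.le ?_ hA.le
      exact Real.log_le_log hT0 (hbT.le.trans (le_max_left _ _))
    calc (M : ℝ) * B * Real.log T ^ A ≤ ((b + 1) * N) * B * D := by
          gcongr
      _ = (B * (b + 1) * D) * N := by ring
      _ ≤ (1 + L * C * (b + 1) ^ 2 + B * (b + 1) * D) * N := by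
          gcongr
          linarith

end Pool.Agent.Work.MP_a8fbd7_nt.ZF
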