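import Pool.Agent.Work.MP_a8fbd7_nt.ZF.Stmts

/-!
Block ZF of MP_a8fbd7_nt, item Bd: the Riesz mean of `Λ(n) n^{-it}`.  Author of this file: helper95.
-/

set_option autoImplicit false

open MeasureTheory Set Filter Topology

noncomputable section

namespace Pool.Agent.Work.MP_a8fbd7_nt.ZF

namespace Bd_aux

/-- `loglog x / log x` tends to `0`. -/
lemma lim0 : Tendsto (fun x : ℝ => Real.log (Real.log x) / Real.log x) atTop (nhds 0) := by
  have h1 : Tendsto (fun y : ℝ => Real.log y / y) atTop (nhds 0) := by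
    have h := Real.isLittleO_log_id_atTop.tendsto_div_nhds_zero
    simpa using h
  exact h1.comp Real.tendsto_log_atTop

/-- the conditions on `y` -/
lemma exists_y0 (A B H0 : ℝ) (hA : 0 < A) (hB : 0 < B) :
    ∃ y0 : ℝ, 3 ≤ y0 ∧ ∀ y : ℝ, y0 ≤ y → 1 ≤ Real.log y ∧ Real.log y ^ (A + 2) ≤ y - 1 ∧ H0 ≤ y ∧
      (B + 1) * (A + 3) * Real.log (Real.log (y ^ (B + 1))) / Real.log (y ^ (B + 1)) ≤ 1 / 2 := by
  have e1 : ∀ᶠ y : ℝ in atTop, 1 ≤ Real.log y := Real.tendsto_log_atTop.eventually_ge_atTop 1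
  have e2 : ∀ᶠ y : ℝ in atTop, Real.log y ^ (A + 2) ≤ y - 1 := by
    have h := (isLittleO_log_rpow_atTop (r := 1 / (A + 2)) (by positivity)).bound
      (show (0 : ℝ) < (1 / 2) ^ (1 / (A + 2)) by positivity)
    filter_upwards [h, e1, eventually_ge_atTop (2 : ℝ)] with y hy h1 h2
    rw [Real.norm_of_nonneg (by linarith), Real.norm_of_nonneg (by positivity)] at hy
    calc Real.log y ^ (A + 2) ≤ ((1 / 2) ^ (1 / (A + 2)) * y ^ (1 / (A + 2))) ^ (A + 2) :=
          Real.rpow_le_rpow (by linarith) hy (by linarith)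
      _ = (1 / 2) * y := by
          rw [Real.mul_rpow (by positivity) (by positivity), ← Real.rpow_mul (by norm_num),
            ← Real.rpow_mul (by linarith), one_div_mul_cancel (by positivity), Real.rpow_one,
            Real.rpow_one]
      _ ≤ y - 1 := by linarith
  have e3 : ∀ᶠ y : ℝ in atTop,
      (B + 1) * (A + 3) * Real.log (Real.log (y ^ (B + 1))) / Real.log (y ^ (B + 1)) ≤ 1 / 2 := by
    have h1 : Tendsto (fun y : ℝ => (B + 1) * (A + 3) *
        (Real.log (Real.log (y ^ (B + 1))) / Real.log (y ^ (B + 1)))) atTop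
        (nhds ((B + 1) * (A + 3) * 0)) :=
      (lim0.comp (tendsto_rpow_atTop (by linarith : 0 < B + 1))).const_mul _
    rw [mul_zero] at h1
    filter_upwards [h1.eventually_lt_const (show (0 : ℝ) < 1 / 2 by norm_num)] with y hy
    rw [mul_div_assoc]
    exact hy.le
  obtain ⟨y1, h1⟩ := eventually_atTop.1 ((e1.and e2).and e3)
  refine ⟨max 3 (max y1 H0), le_max_left _ _, fun y hy => ?_⟩
  have hy1 : y1 ≤ y := ((le_max_left _ _).trans (le_max_right _ _)).trans hy
  have hy2 : H0 ≤ y := ((le_max_right _ _).trans (le_max_right _ _)).trans hy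
  obtain ⟨⟨a1, a2⟩, a3⟩ := h1 y hy1
  exact ⟨a1, a2, hy2, a3⟩

/-- trivial bound for the Riesz mean -/
lemma norm_Lr_le (y t : ℝ) (hy : 2 ≤ y) : ‖Lr y t‖ ≤ y ^ 3 := by
  unfold Lr
  have h1 : ∀ n ∈ Finset.Icc 1 ⌊y⌋₊, ‖((y - n : ℝ) : ℂ) *
      (((ArithmeticFunction.vonMangoldt n : ℝ) : ℂ) * (n : ℂ) ^ (-(t * Complex.I)))‖ ≤ y * y := by
    intro n hn
    rw [Finset.mem_Icc] at hn
    have hn1 : (n : ℝ) ≤ y := (Nat.cast_le.2 hn.2).trans (Nat.floor_le (by linarith))
    have hn0 : (0 : ℝ) < n := by exact_mod_cast hn.1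
    have h2 : ‖(n : ℂ) ^ (-(t * Complex.I))‖ = 1 := by
      rw [Complex.norm_natCast_cpow_of_pos hn.1]
      simp
    have h3 : (ArithmeticFunction.vonMangoldt n : ℝ) ≤ y :=
      ArithmeticFunction.vonMangoldt_le_log.trans
        ((Real.log_le_self hn0.le).trans hn1)
    have h4 : (0 : ℝ) ≤ ArithmeticFunction.vonMangoldt n := ArithmeticFunction.vonMangoldt_nonneg
    rw [norm_mul, norm_mul, h2, mul_one, Complex.norm_real, Complex.norm_real,
      Real.norm_of_nonneg (by linarith), Real.norm_of_nonneg h4]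
    exact mul_le_mul (by linarith) h3 h4 (by linarith)
  refine (norm_sum_le _ _).trans ((Finset.sum_le_sum h1).trans ?_)
  rw [Finset.sum_const, Nat.card_Icc, nsmul_eq_mul, Nat.add_sub_cancel]
  have h5 : ((⌊y⌋₊ : ℕ) : ℝ) ≤ y := Nat.floor_le (by linarith)
  calc ((⌊y⌋₊ : ℕ) : ℝ) * (y * y) ≤ y * (y * y) := by gcongr
    _ = y ^ 3 := by ring

/-- trivial bound for the integral -/
lemma norm_int_le (y t : ℝ) (hy : 2 ≤ y) :
    ‖∫ u in (1 : ℝ)..y, ((y - u : ℝ) : ℂ) * (u : ℂ) ^ (-(t * Complex.I))‖ ≤ y ^ 3 := by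
  have h := intervalIntegral.norm_integral_le_of_norm_le_const (a := 1) (b := y) (C := y)
    (f := fun u : ℝ => ((y - u : ℝ) : ℂ) * (u : ℂ) ^ (-(t * Complex.I))) (by
      intro u hu
      rw [uIoc_of_le (by linarith)] at hu
      have hu0 : 0 < u := by linarith [hu.1]
      rw [norm_mul, Complex.norm_real, Real.norm_of_nonneg (by linarith [hu.2]),
        Complex.norm_cpow_eq_rpow_re_of_pos hu0]
      simp
      linarith)
  refine h.trans ?_
  rw [abs_of_nonneg (by linarith)]
  nlinarith [sq_nonneg y]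

/-- the size of the powers of `y` -/
lemma pow_c (y : ℝ) (hy : 1 < y) : y ^ (1 + 1 / Real.log y + 1) = Real.exp 1 * y ^ 2 := by
  have hl : 0 < Real.log y := Real.log_pos hy
  have hy0 : 0 < y := by linarith
  rw [show 1 + 1 / Real.log y + 1 = 1 / Real.log y + (2 : ℕ) by push_cast; ring,
    Real.rpow_add_natCast hy0.ne', Real.rpow_def_of_pos hy0, mul_one_div_cancel hl.ne']

lemma pow_a (A B y : ℝ) (hA : 0 < A) (hB : 0 < B) (hy : 1 < y) :
    y ^ (1 - (B + 1) * (A + 3) * Real.log (Real.log (y ^ (B + 1))) / Real.log (y ^ (B + 1)) + 1) =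
      y ^ 2 / ((B + 1) * Real.log y) ^ (A + 3) := by
  have hl : 0 < Real.log y := Real.log_pos hy
  have hy0 : 0 < y := by linarith
  have hB1 : 0 < B + 1 := by linarith
  rw [Real.log_rpow hy0]
  have hP : 0 < (B + 1) * Real.log y := by positivity
  rw [show 1 - (B + 1) * (A + 3) * Real.log ((B + 1) * Real.log y) / ((B + 1) * Real.log y) + 1 =
      -((A + 3) * Real.log ((B + 1) * Real.log y) / Real.log y) + (2 : ℕ) by
        push_cast
        field_simp
        ring,
    Real.rpow_add_natCast hy0.ne', Real.rpow_def_of_pos hy0, Real.rpow_def_of_pos hP]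
  rw [show Real.log y * -((A + 3) * Real.log ((B + 1) * Real.log y) / Real.log y) =
      -(Real.log ((B + 1) * Real.log y) * (A + 3)) by field_simp, Real.exp_neg]
  field_simp

end Bd_aux

open Bd_aux in
/-- ITEM Bd. -/
theorem iBd (hRg : StRg) (hMb : StMb) (hPe : StPe) (hSh : StSh) : StBd := by
  intro A B hA hB
  obtain ⟨C2, hC2, hMb'⟩ := hMb
  obtain ⟨C3, hC3, hSh'⟩ := hSh
  have hK : 1 ≤ (B + 1) * (A + 3) := by nlinarith
  obtain ⟨C1, H0, hC1, hH0, hRg'⟩ := hRg ((B + 1) * (A + 3)) hK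
  obtain ⟨y0, hy03, hy0⟩ := exists_y0 A B H0 hA hB
  have hy0l : 0 < Real.log y0 := Real.log_pos (by linarith)
  refine ⟨max (2 * y0 * Real.log y0 ^ A)
    (C3 * (C2 * Real.exp 1 + C1 * (B + 1) ^ 2 * Real.exp 1 + C1)), ?_, ?_⟩
  · refine le_max_of_le_right ?_
    have h1 : (1 : ℝ) ≤ C2 * Real.exp 1 + C1 * (B + 1) ^ 2 * Real.exp 1 + C1 := by
      have : 0 ≤ C2 * Real.exp 1 + C1 * (B + 1) ^ 2 * Real.exp 1 := by positivity
      linarith
    exact one_le_mul_of_one_le_of_one_le hC3 h1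
  intro y t hy ht
  have hyl : 0 < Real.log y := Real.log_pos (by linarith)
  rcases lt_or_ge y y0 with hsmall | hbig
  · -- bounded `y`
    have h1 : ‖Lr y t - ∫ u in (1 : ℝ)..y, ((y - u : ℝ) : ℂ) * (u : ℂ) ^ (-(t * Complex.I))‖ ≤
        2 * y ^ 3 := by
      refine (norm_sub_le _ _).trans ?_
      linarith [norm_Lr_le y t hy, norm_int_le y t hy]
    refine h1.trans ?_
    rw [le_div_iff₀ (by positivity)]
    calc 2 * y ^ 3 * Real.log y ^ A = 2 * y * Real.log y ^ A * y ^ 2 := by ring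
      _ ≤ 2 * y0 * Real.log y0 ^ A * y ^ 2 := by gcongr
      _ ≤ _ := by
          gcongr
          exact le_max_left _ _
  · obtain ⟨l1, l2, l3, l4⟩ := hy0 y hbig
    have hy1 : 1 < y := by linarith
    have hyp : 0 < y := by linarith
    set Ly : ℝ := Real.log y with hLy
    set c : ℝ := 1 + 1 / Ly with hc
    set U : ℝ := Ly ^ (A + 2) with hU
    set H : ℝ := y ^ (B + 1) with hH
    set a : ℝ := 1 - (B + 1) * (A + 3) * Real.log (Real.log H) / Real.log H with ha
    have hLH : Real.log H = (B + 1) * Ly := by rw [hH, Real.log_rpow hyp]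
    have hLH1 : 1 ≤ Real.log H := by rw [hLH]; nlinarith
    have hLLH : 0 ≤ Real.log (Real.log H) := Real.log_nonneg hLH1
    have ha1 : a ≤ 1 := by
      have : 0 ≤ (B + 1) * (A + 3) * Real.log (Real.log H) / Real.log H := by positivity
      rw [ha]; linarith
    have ha2 : 1 / 2 ≤ a := by rw [ha]; linarith
    have hc1 : 1 < c := by rw [hc]; have : 0 < 1 / Ly := by positivity
                           linarith
    have hc3 : c ≤ 3 := by
      rw [hc]
      have : 1 / Ly ≤ 1 := by rw [div_le_one hyl]; exact l1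
      linarith
    have hU1 : 1 ≤ U := Real.one_le_rpow l1 (by linarith)
    have hyB : 1 ≤ y ^ B := Real.one_le_rpow hy1.le hB.le
    have hHy : H = y ^ B * y := by rw [hH, Real.rpow_add_one hyp.ne']
    have hHH : y ^ B + U ≤ H := by
      rw [hHy]
      nlinarith
    have hHH0 : H0 ≤ H := by
      rw [hHy]
      nlinarith
    obtain ⟨hcont, hbd⟩ := hMb' c hc1 hc3
    have hcast : ∀ v : ℝ, ((c : ℂ) + ((t : ℂ) + (v : ℂ)) * Complex.I) =
        (c : ℂ) + (((t + v : ℝ)) : ℂ) * Complex.I := fun v => by push_cast; rfl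
    have hS := hSh' Gz a c y U t (C1 * Real.log H ^ 2) (C2 * Ly) ha2 (by linarith) hc3 hU1 hy1.le
      (by positivity) (by positivity) (by
        intro s hs1 hs2 hs3
        have h1 : |s.im| ≤ H := by
          have h2 : |s.im| ≤ |s.im - t| + |t| := by
            have := abs_add_le (s.im - t) t
            simpa using this
          linarith
        obtain ⟨h3, h4⟩ := hRg' H s hHH0 h1 hs1 (by linarith)
        refine ⟨?_, h4⟩
        unfold Gz
        refine DifferentiableAt.neg (DifferentiableAt.div ?_ ?_ h3)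
        · exact (differentiable_riemannZeta₁.contDiff (n := 2)).differentiable_deriv_two s
        · exact differentiable_riemannZeta₁ s) (by
        have h5 : Continuous fun v : ℝ => Gz ((c : ℂ) + (((t + v : ℝ)) : ℂ) * Complex.I) :=
          hcont.comp (continuous_const.add continuous_id)
        simpa only [hcast] using h5) (by
        intro v
        rw [hcast]
        refine (hbd (t + v)).1.trans (le_of_eq ?_)
        rw [hc]
        field_simp
        ring)
    rw [hPe c y t hc1 hc3 hy1.le, norm_mul]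
    have hpi : ‖((1 / (2 * Real.pi) : ℝ) : ℂ)‖ ≤ 1 := by
      rw [Complex.norm_real, Real.norm_of_nonneg (by positivity), div_le_one (by positivity)]
      linarith [Real.pi_gt_three]
    refine (mul_le_of_le_one_left (norm_nonneg _) hpi).trans (hS.trans ?_)
    have e1 : y ^ (c + 1) = Real.exp 1 * y ^ 2 := pow_c y hy1
    have e2 : y ^ (a + 1) = y ^ 2 / Real.log H ^ (A + 3) := by
      rw [hLH]
      exact pow_a A B y hA hB hy1
    rw [e1, e2]
    have hLyA : 0 < Ly ^ A := by positivity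
    -- the three terms
    have t1 : C2 * Ly * (Real.exp 1 * y ^ 2) / U ≤ C2 * Real.exp 1 * (y ^ 2 / Ly ^ A) := by
      have h6 : Ly * Ly ^ A ≤ U := by
        rw [hU, show A + 2 = A + (2 : ℕ) by norm_num, Real.rpow_add_natCast hyl.ne',
          mul_comm (Ly ^ A)]
        have h7 : Ly ≤ Ly ^ 2 := by nlinarith
        gcongr
      rw [div_le_iff₀ (by positivity)]
      calc C2 * Ly * (Real.exp 1 * y ^ 2) = C2 * Real.exp 1 * (y ^ 2 / Ly ^ A) * (Ly * Ly ^ A) := by
            field_simp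
        _ ≤ _ := by gcongr
    have t2 : C1 * Real.log H ^ 2 * (Real.exp 1 * y ^ 2) / U ^ 2 ≤
        C1 * (B + 1) ^ 2 * Real.exp 1 * (y ^ 2 / Ly ^ A) := by
      have h6 : Ly ^ 2 * Ly ^ A ≤ U ^ 2 := by
        have h7 : Ly ^ 2 * Ly ^ A = U := by
          rw [hU, show A + 2 = A + (2 : ℕ) by norm_num, Real.rpow_add_natCast hyl.ne']
          ring
        rw [h7]
        nlinarith
      rw [div_le_iff₀ (by positivity), hLH]
      calc C1 * ((B + 1) * Ly) ^ 2 * (Real.exp 1 * y ^ 2) =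
            C1 * (B + 1) ^ 2 * Real.exp 1 * (y ^ 2 / Ly ^ A) * (Ly ^ 2 * Ly ^ A) := by
            field_simp
        _ ≤ _ := by gcongr
    have t3 : C1 * Real.log H ^ 2 * (y ^ 2 / Real.log H ^ (A + 3)) ≤ C1 * (y ^ 2 / Ly ^ A) := by
      have h6 : Ly ^ A ≤ Real.log H ^ A := by
        rw [hLH]
        exact Real.rpow_le_rpow hyl.le (by nlinarith) hA.le
      have h7 : Real.log H ^ 2 * Ly ^ A ≤ Real.log H ^ (A + 3) := by
        rw [show A + 3 = A + (3 : ℕ) by norm_num, Real.rpow_add_natCast (by linarith)]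
        have h8 : Real.log H ^ 2 ≤ Real.log H ^ 3 := pow_le_pow_right₀ hLH1 (by norm_num)
        calc Real.log H ^ 2 * Ly ^ A ≤ Real.log H ^ 3 * Real.log H ^ A := by gcongr
          _ = _ := by ring
      have h9 : 0 < Real.log H ^ (A + 3) := by positivity
      rw [mul_div_assoc', div_le_iff₀ h9]
      calc C1 * Real.log H ^ 2 * y ^ 2 = C1 * (y ^ 2 / Ly ^ A) * (Real.log H ^ 2 * Ly ^ A) := by
            field_simp
        _ ≤ _ := by gcongr
    calc C3 * (C2 * Ly * (Real.exp 1 * y ^ 2) / U +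
          C1 * Real.log H ^ 2 * (Real.exp 1 * y ^ 2) / U ^ 2 +
          C1 * Real.log H ^ 2 * (y ^ 2 / Real.log H ^ (A + 3)))
        ≤ C3 * (C2 * Real.exp 1 * (y ^ 2 / Ly ^ A) +
          C1 * (B + 1) ^ 2 * Real.exp 1 * (y ^ 2 / Ly ^ A) + C1 * (y ^ 2 / Ly ^ A)) := by
          gcongr
      _ = (C3 * (C2 * Real.exp 1 + C1 * (B + 1) ^ 2 * Real.exp 1 + C1)) * y ^ 2 / Ly ^ A := by
          ring
      _ ≤ _ := by
          gcongr
          exact le_max_right _ _

end Pool.Agent.Work.MP_a8fbd7_nt.ZF
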