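import Mathlib
import Pool.Agent.Work.MP_a8fbd7_nt.ZF.Stmts
import Pool.Agent.Work.MP_56b8f5_nt.UC.I_Bc

/-!
MP_a8fbd7_nt, block ZF, item HM (Halász-Montgomery without loss).  Author: helper87.
-/

open MeasureTheory Set Filter Topology

noncomputable section

namespace Pool.Agent.Work.MP_a8fbd7_nt.ZF

open Pool.Agent.Work.MP_56b8f5_nt
open Pool.Agent.Work.MP_56b8f5_nt.UC (IsWt Bl Dp Sep)

namespace HM_aux

/-- the weight -/
def om1 (C0 x : ℝ) : ℝ := Real.smoothTransition (2 * x - 1) * Real.smoothTransition (C0 + 1 - x)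

lemma om1_nonneg (C0 x : ℝ) : 0 ≤ om1 C0 x :=
  mul_nonneg (Real.smoothTransition.nonneg _) (Real.smoothTransition.nonneg _)

lemma om1_one {C0 x : ℝ} (h1 : 1 ≤ x) (h2 : x ≤ C0) : om1 C0 x = 1 := by
  unfold om1
  rw [Real.smoothTransition.one_of_one_le (by linarith),
    Real.smoothTransition.one_of_one_le (by linarith), one_mul]

lemma om1_supp {C0 x : ℝ} (hx : om1 C0 x ≠ 0) : 1 / 2 ≤ x ∧ x ≤ C0 + 1 := by
  constructor
  · by_contra hc
    push Not at hc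
    apply hx
    unfold om1
    rw [Real.smoothTransition.zero_of_nonpos (by linarith), zero_mul]
  · by_contra hc
    push Not at hc
    apply hx
    unfold om1
    rw [Real.smoothTransition.zero_of_nonpos (x := C0 + 1 - x) (by linarith), mul_zero]

lemma om1_wt {C0 : ℝ} (h : 1 ≤ C0) : IsWt (om1 C0) := by
  refine ⟨?_, 1 / 2, C0 + 1, by norm_num, by linarith, fun x hx => om1_supp hx⟩
  unfold om1
  exact (Real.smoothTransition.contDiff.comp (by fun_prop)).mul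
    (Real.smoothTransition.contDiff.comp (by fun_prop))

lemma char_mul {n : ℕ} (hn : 1 ≤ n) (s t : ℝ) :
    (n : ℂ) ^ (-(t * Complex.I)) * (starRingEnd ℂ) ((n : ℂ) ^ (-(s * Complex.I))) =
      (n : ℂ) ^ (-(((t - s : ℝ) : ℂ) * Complex.I)) := by
  have hn0 : (n : ℂ) ≠ 0 := by
    have : n ≠ 0 := by omega
    exact_mod_cast this
  have h := UC.Bc_aux.conj_pow (x := (n : ℝ)) (Nat.cast_nonneg n) s
  rw [Complex.ofReal_natCast] at h
  rw [h, ← Complex.cpow_add _ _ hn0]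
  congr 1
  push_cast
  ring

lemma sym_bound (W : Finset ℝ) (g : ℝ → ℝ) (K : ℝ → ℝ → ℝ) (M : ℝ)
    (hK : ∀ s t, K s t = K t s) (hK0 : ∀ s t, 0 ≤ K s t)
    (hM : ∀ s ∈ W, ∑ t ∈ W, K s t ≤ M) :
    ∑ s ∈ W, ∑ t ∈ W, g s * g t * K s t ≤ M * ∑ s ∈ W, g s ^ 2 := by
  have h1 : ∑ s ∈ W, ∑ t ∈ W, g s * g t * K s t ≤
      ∑ s ∈ W, ∑ t ∈ W, (g s ^ 2 * K s t / 2 + g t ^ 2 * K s t / 2) := by
    apply Finset.sum_le_sum
    intro s _
    apply Finset.sum_le_sum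
    intro t _
    nlinarith [mul_nonneg (sq_nonneg (g s - g t)) (hK0 s t)]
  have h2 : ∑ s ∈ W, ∑ t ∈ W, g s ^ 2 * K s t / 2 ≤ M * (∑ s ∈ W, g s ^ 2) / 2 := by
    rw [Finset.mul_sum, Finset.sum_div]
    apply Finset.sum_le_sum
    intro s hs
    rw [← Finset.sum_div, ← Finset.mul_sum]
    have := mul_le_mul_of_nonneg_left (hM s hs) (sq_nonneg (g s))
    linarith
  have h3 : ∑ s ∈ W, ∑ t ∈ W, g t ^ 2 * K s t / 2 = ∑ s ∈ W, ∑ t ∈ W, g s ^ 2 * K s t / 2 := by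
    rw [Finset.sum_comm]
    apply Finset.sum_congr rfl
    intro s _
    apply Finset.sum_congr rfl
    intro t _
    rw [hK]
  have h4 : ∑ s ∈ W, ∑ t ∈ W, (g s ^ 2 * K s t / 2 + g t ^ 2 * K s t / 2) =
      ∑ s ∈ W, ∑ t ∈ W, g s ^ 2 * K s t / 2 + ∑ s ∈ W, ∑ t ∈ W, g t ^ 2 * K s t / 2 := by
    rw [← Finset.sum_add_distrib]
    apply Finset.sum_congr rfl
    intro s _
    rw [← Finset.sum_add_distrib]
  rw [h4, h3] at h1
  linarith

/-- the smooth block as a finite sum -/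
lemma Bl_eq {C0 L : ℝ} (hL : 1 ≤ L) (E : Finset ℕ)
    (hE : ∀ n : ℕ, (n : ℝ) ≤ (C0 + 1) * L → 1 ≤ n → n ∈ E) (t : ℝ) :
    Bl (om1 C0) L t = ∑ n ∈ E, ((om1 C0 ((n : ℝ) / L) : ℝ) : ℂ) * (n : ℂ) ^ (-(t * Complex.I)) := by
  unfold Bl
  apply tsum_eq_sum
  intro n hn
  have hL0 : 0 < L := by linarith
  by_cases h : om1 C0 ((n : ℝ) / L) = 0
  · rw [h]
    simp
  · exfalso
    obtain ⟨h1, h2⟩ := om1_supp h
    apply hn
    apply hE
    · rwa [div_le_iff₀ hL0] at h2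
    · by_contra hc
      have : n = 0 := by omega
      subst this
      norm_num at h1

/-- expansion of the square -/
lemma expand (W : Finset ℝ) (g : ℝ → ℂ) {n : ℕ} (hn : 1 ≤ n) :
    ((‖∑ t ∈ W, g t * (n : ℂ) ^ (-(t * Complex.I))‖ ^ 2 : ℝ) : ℂ) =
      ∑ s ∈ W, ∑ t ∈ W, g t * (starRingEnd ℂ) (g s) * (n : ℂ) ^ (-(((t - s : ℝ) : ℂ) * Complex.I)) := by
  rw [Complex.sq_norm, Complex.normSq_eq_conj_mul_self, map_sum, Finset.sum_mul_sum]
  apply Finset.sum_congr rfl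
  intro s _
  apply Finset.sum_congr rfl
  intro t _
  rw [map_mul, ← char_mul hn]
  ring

lemma dual {C0 L : ℝ} (hL : 1 ≤ L) (E : Finset ℕ) (hE1 : ∀ n ∈ E, 1 ≤ n)
    (hE : ∀ n : ℕ, (n : ℝ) ≤ (C0 + 1) * L → 1 ≤ n → n ∈ E) (W : Finset ℝ) (g : ℝ → ℂ) :
    ∑ n ∈ E, om1 C0 ((n : ℝ) / L) * ‖∑ t ∈ W, g t * (n : ℂ) ^ (-(t * Complex.I))‖ ^ 2 ≤
      ∑ s ∈ W, ∑ t ∈ W, ‖g s‖ * ‖g t‖ * ‖Bl (om1 C0) L (t - s)‖ := by
  have h1 : ((∑ n ∈ E, om1 C0 ((n : ℝ) / L) *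
      ‖∑ t ∈ W, g t * (n : ℂ) ^ (-(t * Complex.I))‖ ^ 2 : ℝ) : ℂ) =
      ∑ s ∈ W, ∑ t ∈ W, g t * (starRingEnd ℂ) (g s) * Bl (om1 C0) L (t - s) := by
    rw [Complex.ofReal_sum]
    have e1 : ∀ n ∈ E, ((om1 C0 ((n : ℝ) / L) *
        ‖∑ t ∈ W, g t * (n : ℂ) ^ (-(t * Complex.I))‖ ^ 2 : ℝ) : ℂ) =
        ∑ s ∈ W, ∑ t ∈ W, g t * (starRingEnd ℂ) (g s) *
          (((om1 C0 ((n : ℝ) / L) : ℝ) : ℂ) * (n : ℂ) ^ (-(((t - s : ℝ) : ℂ) * Complex.I))) := by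
      intro n hn
      rw [Complex.ofReal_mul, expand W g (hE1 n hn), Finset.mul_sum]
      apply Finset.sum_congr rfl
      intro s _
      rw [Finset.mul_sum]
      apply Finset.sum_congr rfl
      intro t _
      ring
    rw [Finset.sum_congr rfl e1, Finset.sum_comm]
    apply Finset.sum_congr rfl
    intro s _
    rw [Finset.sum_comm]
    apply Finset.sum_congr rfl
    intro t _
    rw [Bl_eq hL E hE, Finset.mul_sum]
  have h2 : (0 : ℝ) ≤ ∑ n ∈ E, om1 C0 ((n : ℝ) / L) *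
      ‖∑ t ∈ W, g t * (n : ℂ) ^ (-(t * Complex.I))‖ ^ 2 :=
    Finset.sum_nonneg fun n _ => mul_nonneg (om1_nonneg _ _) (sq_nonneg _)
  have h3 : (∑ n ∈ E, om1 C0 ((n : ℝ) / L) *
      ‖∑ t ∈ W, g t * (n : ℂ) ^ (-(t * Complex.I))‖ ^ 2 : ℝ) =
      ‖∑ s ∈ W, ∑ t ∈ W, g t * (starRingEnd ℂ) (g s) * Bl (om1 C0) L (t - s)‖ := by
    rw [← h1, Complex.norm_real, Real.norm_of_nonneg h2]
  rw [h3]
  refine (norm_sum_le _ _).trans ?_
  apply Finset.sum_le_sum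
  intro s _
  refine (norm_sum_le _ _).trans ?_
  apply Finset.sum_le_sum
  intro t _
  rw [norm_mul, norm_mul, RCLike.norm_conj]
  apply le_of_eq
  ring

end HM_aux

open HM_aux in
theorem iHM (hKp : UC.StKp) (hS2 : UC.StS2) : StHM := by
  intro C0 hC0
  obtain ⟨C1, hC1, h1⟩ := hKp (om1 C0) (om1_wt hC0)
  obtain ⟨C2, hC2, h2⟩ := hS2
  refine ⟨2 * C1 * C2, by nlinarith, ?_⟩
  intro T0 T L Y a W hT hL ha hW hWT
  have hL0 : 0 < L := by linarith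
  obtain ⟨h2a, _, _⟩ := h2 W hW
  set S : ℝ := ∑ t ∈ W, ‖Dp Y a t‖ ^ 2 with hS
  set A : ℝ := ∑ n ∈ Finset.Icc 1 Y, ‖a n‖ ^ 2 with hA
  have hA0 : 0 ≤ A := Finset.sum_nonneg fun _ _ => sq_nonneg _
  have hS0 : 0 ≤ S := Finset.sum_nonneg fun _ _ => sq_nonneg _
  -- the kernel
  set K : ℝ → ℝ → ℝ := fun s t => C1 * (L / (1 + (s - t) ^ 2) + 2 * Real.sqrt T) with hK
  set M : ℝ := 2 * C1 * C2 * (L + W.card * Real.sqrt T) with hM
  have hM0 : 0 ≤ M := by positivity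
  have hKsym : ∀ s t, K s t = K t s := by
    intro s t
    simp only [hK]
    congr 3
    ring
  have hK0 : ∀ s t, 0 ≤ K s t := by
    intro s t
    simp only [hK]
    positivity
  have hKM : ∀ s ∈ W, ∑ t ∈ W, K s t ≤ M := by
    intro s _
    simp only [hK]
    rw [← Finset.mul_sum, Finset.sum_add_distrib, Finset.sum_const, nsmul_eq_mul]
    have e : ∑ t ∈ W, L / (1 + (s - t) ^ 2) = L * ∑ t ∈ W, 1 / (1 + (s - t) ^ 2) := by
      rw [Finset.mul_sum]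
      apply Finset.sum_congr rfl
      intro t _
      rw [mul_one_div]
    rw [e]
    have h3 := mul_le_mul_of_nonneg_left (h2a s) hL0.le
    have h4 : 0 ≤ (W.card : ℝ) * Real.sqrt T := by positivity
    have h5 : C1 * (L * ∑ t ∈ W, 1 / (1 + (s - t) ^ 2) + (W.card : ℝ) * (2 * Real.sqrt T)) ≤
        C1 * (L * C2 + (W.card : ℝ) * (2 * Real.sqrt T)) := by
      apply mul_le_mul_of_nonneg_left _ (by linarith)
      linarith
    refine h5.trans ?_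
    rw [hM]
    have h6 : 0 ≤ C1 * (C2 * L) := by positivity
    have h7 : 0 ≤ C1 * ((C2 - 1) * ((W.card : ℝ) * Real.sqrt T)) := by
      apply mul_nonneg (by linarith)
      apply mul_nonneg (by linarith) h4
    nlinarith
  -- the norm of the block
  have hBlK : ∀ s ∈ W, ∀ t ∈ W, ‖Bl (om1 C0) L (t - s)‖ ≤ K s t := by
    intro s hs t ht
    refine (h1 L (t - s) hL0).trans ?_
    simp only [hK]
    apply mul_le_mul_of_nonneg_left _ (by linarith)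
    have e1 : (t - s) ^ 2 = (s - t) ^ 2 := by ring
    rw [e1]
    have e2 : |t - s| ≤ T := by
      rw [abs_le]
      have := hWT s hs
      have := hWT t ht
      constructor <;> linarith
    have e3 : Real.sqrt (1 + |t - s|) ≤ 2 * Real.sqrt T := by
      have : Real.sqrt (1 + |t - s|) ≤ Real.sqrt (4 * T) := by
        apply Real.sqrt_le_sqrt
        linarith
      rw [Real.sqrt_mul (by norm_num), show (4 : ℝ) = 2 ^ 2 by norm_num,
        Real.sqrt_sq (by norm_num)] at this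
      exact this
    linarith
  -- the coefficients
  set X : ℕ → ℂ := fun n => ∑ t ∈ W, (starRingEnd ℂ) (Dp Y a t) * (n : ℂ) ^ (-(t * Complex.I)) with hX
  set F : Finset ℕ := (Finset.Icc 1 Y).filter (fun n => a n ≠ 0) with hF
  set E : Finset ℕ := Finset.Icc 1 (max Y ⌊(C0 + 1) * L⌋₊) with hEdef
  have hE1 : ∀ n ∈ E, 1 ≤ n := fun n hn => (Finset.mem_Icc.1 hn).1
  have hE : ∀ n : ℕ, (n : ℝ) ≤ (C0 + 1) * L → 1 ≤ n → n ∈ E := by
    intro n h3 h4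
    rw [hEdef, Finset.mem_Icc]
    exact ⟨h4, le_max_of_le_right (Nat.le_floor h3)⟩
  have hFE : F ⊆ E := by
    intro n hn
    rw [hF, Finset.mem_filter, Finset.mem_Icc] at hn
    rw [hEdef, Finset.mem_Icc]
    exact ⟨hn.1.1, le_max_of_le_left hn.1.2⟩
  have hSX : S ≤ ∑ n ∈ F, ‖a n‖ * ‖X n‖ := by
    have e1 : ((S : ℝ) : ℂ) = ∑ n ∈ Finset.Icc 1 Y, a n * X n := by
      rw [hS, Complex.ofReal_sum]
      have e2 : ∀ t ∈ W, ((‖Dp Y a t‖ ^ 2 : ℝ) : ℂ) =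
          ∑ n ∈ Finset.Icc 1 Y, a n * ((starRingEnd ℂ) (Dp Y a t) * (n : ℂ) ^ (-(t * Complex.I))) := by
        intro t _
        rw [Complex.sq_norm, Complex.normSq_eq_conj_mul_self]
        conv_lhs => rw [Dp, Finset.mul_sum]
        apply Finset.sum_congr rfl
        intro n _
        rw [show (∑ n ∈ Finset.Icc 1 Y, a n * (n : ℂ) ^ (-(t * Complex.I))) = Dp Y a t from rfl]
        ring
      rw [Finset.sum_congr rfl e2, Finset.sum_comm]
      apply Finset.sum_congr rfl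
      intro n _
      rw [hX, Finset.mul_sum]
    have e3 : ∑ n ∈ Finset.Icc 1 Y, a n * X n = ∑ n ∈ F, a n * X n := by
      rw [hF, Finset.sum_filter]
      apply Finset.sum_congr rfl
      intro n _
      by_cases h : a n = 0
      · simp [h]
      · simp [h]
    have e4 : S = ‖((S : ℝ) : ℂ)‖ := by
      rw [Complex.norm_real, Real.norm_of_nonneg hS0]
    rw [e4, e1, e3]
    refine (norm_sum_le _ _).trans (le_of_eq ?_)
    apply Finset.sum_congr rfl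
    intro n _
    rw [norm_mul]
  have hCS : S ^ 2 ≤ A * ∑ n ∈ F, ‖X n‖ ^ 2 := by
    have e1 : S ^ 2 ≤ (∑ n ∈ F, ‖a n‖ * ‖X n‖) ^ 2 := pow_le_pow_left₀ hS0 hSX 2
    have e2 := Finset.sum_mul_sq_le_sq_mul_sq F (fun n => ‖a n‖) (fun n => ‖X n‖)
    have e3 : ∑ n ∈ F, ‖a n‖ ^ 2 ≤ A := by
      rw [hA]
      apply Finset.sum_le_sum_of_subset_of_nonneg
      · rw [hF]
        exact Finset.filter_subset _ _
      · intro n _ _
        positivity
    have e4 : (0 : ℝ) ≤ ∑ n ∈ F, ‖X n‖ ^ 2 := Finset.sum_nonneg fun _ _ => sq_nonneg _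
    exact (e1.trans e2).trans (mul_le_mul_of_nonneg_right e3 e4)
  have hXF : ∑ n ∈ F, ‖X n‖ ^ 2 ≤ M * S := by
    have e1 : ∑ n ∈ F, ‖X n‖ ^ 2 = ∑ n ∈ F, om1 C0 ((n : ℝ) / L) * ‖X n‖ ^ 2 := by
      apply Finset.sum_congr rfl
      intro n hn
      rw [hF, Finset.mem_filter] at hn
      obtain ⟨e2, e3⟩ := ha n hn.2
      rw [om1_one (by rwa [le_div_iff₀ hL0, one_mul]) (by rwa [div_le_iff₀ hL0]), one_mul]
    have e2 : ∑ n ∈ F, om1 C0 ((n : ℝ) / L) * ‖X n‖ ^ 2 ≤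
        ∑ n ∈ E, om1 C0 ((n : ℝ) / L) * ‖X n‖ ^ 2 :=
      Finset.sum_le_sum_of_subset_of_nonneg hFE
        fun n _ _ => mul_nonneg (om1_nonneg _ _) (sq_nonneg _)
    have e3 := dual hL E hE1 hE W (fun t => (starRingEnd ℂ) (Dp Y a t))
    have e4 : ∑ s ∈ W, ∑ t ∈ W, ‖(starRingEnd ℂ) (Dp Y a s)‖ * ‖(starRingEnd ℂ) (Dp Y a t)‖ *
        ‖Bl (om1 C0) L (t - s)‖ ≤ ∑ s ∈ W, ∑ t ∈ W, ‖Dp Y a s‖ * ‖Dp Y a t‖ * K s t := by
      apply Finset.sum_le_sum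
      intro s hs
      apply Finset.sum_le_sum
      intro t ht
      rw [RCLike.norm_conj, RCLike.norm_conj]
      exact mul_le_mul_of_nonneg_left (hBlK s hs t ht) (by positivity)
    have e5 := sym_bound W (fun t => ‖Dp Y a t‖) K M hKsym hK0 hKM
    rw [e1]
    exact ((e2.trans e3).trans e4).trans e5
  have hfin : S ^ 2 ≤ A * (M * S) := hCS.trans (mul_le_mul_of_nonneg_left hXF hA0)
  rcases hS0.eq_or_lt with h0 | h0
  · rw [← h0]
    positivity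
  · have : S * S ≤ (M * A) * S := by nlinarith
    exact le_of_mul_le_mul_right this h0

end Pool.Agent.Work.MP_a8fbd7_nt.ZF
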