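import Pool.Agent.Work.MP_a8fbd7_nt.ZF.Stmts

/-!
Block ZF, item Kn: the Riesz kernel by Mellin inversion.
-/

set_option autoImplicit false

open MeasureTheory Set Filter Topology

noncomputable section

namespace Pool.Agent.Work.MP_a8fbd7_nt.ZF

namespace Kn_aux

/-- the function `max (1 - u) 0` on the positive half line, in Mellin form -/
def ff : ℝ → ℂ := fun u =>
  indicator (Ioc (0 : ℝ) 1) (fun _ => (1 : ℂ)) u - indicator (Ioc (0 : ℝ) 1) (fun t => (t : ℂ) ^ (1 : ℂ)) u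

theorem ff_eq {u : ℝ} (hu : 0 < u) : ff u = ((max (1 - u) 0 : ℝ) : ℂ) := by
  unfold ff
  by_cases h : u ≤ 1
  · have hm : u ∈ Ioc (0 : ℝ) 1 := ⟨hu, h⟩
    rw [indicator_of_mem hm, indicator_of_mem hm, max_eq_left (by linarith), Complex.cpow_one]
    push_cast
    ring
  · have hm : u ∉ Ioc (0 : ℝ) 1 := fun h' => h h'.2
    rw [indicator_of_notMem hm, indicator_of_notMem hm, max_eq_right (by linarith)]
    simp

theorem hasMellin_ff {s : ℂ} (hs : 0 < s.re) : HasMellin ff s (1 / s - 1 / (s + 1)) := by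
  have h1 := hasMellin_one_Ioc hs
  have h2 := hasMellin_cpow_Ioc 1 (s := s) (by simp; linarith)
  have h3 := hasMellin_sub h1.1 h2.1
  rw [h1.2, h2.2] at h3
  exact h3

theorem sub_inv_eq {s : ℂ} (hs : 0 < s.re) : 1 / s - 1 / (s + 1) = 1 / (s * (s + 1)) := by
  have h1 : s ≠ 0 := by
    intro h
    rw [h] at hs
    simp at hs
  have h2 : s + 1 ≠ 0 := by
    intro h
    have := congrArg Complex.re h
    simp at this
    linarith
  field_simp
  ring

theorem denom_ne {c : ℝ} (hc : 0 < c) (v : ℝ) :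
    ((c : ℂ) + v * Complex.I) * ((c : ℂ) + 1 + v * Complex.I) ≠ 0 := by
  refine mul_ne_zero ?_ ?_
  · intro h
    have := congrArg Complex.re h
    simp at this
    linarith
  · intro h
    have := congrArg Complex.re h
    simp at this
    linarith

theorem denom_ge {c : ℝ} (hc : 0 < c) (v : ℝ) :
    min (c ^ 2) 1 * (1 + v ^ 2) ≤ ‖((c : ℂ) + v * Complex.I) * ((c : ℂ) + 1 + v * Complex.I)‖ := by
  have h1 : ‖(c : ℂ) + v * Complex.I‖ ^ 2 = c ^ 2 + v ^ 2 := by
    rw [← Complex.normSq_eq_norm_sq, Complex.normSq_add_mul_I]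
  have h2 : ‖(c : ℂ) + 1 + v * Complex.I‖ ^ 2 = (c + 1) ^ 2 + v ^ 2 := by
    have : (c : ℂ) + 1 + v * Complex.I = ((c + 1 : ℝ) : ℂ) + v * Complex.I := by push_cast; ring
    rw [this, ← Complex.normSq_eq_norm_sq, Complex.normSq_add_mul_I]
  have h3 : ‖(c : ℂ) + v * Complex.I‖ ≤ ‖(c : ℂ) + 1 + v * Complex.I‖ := by
    refine le_of_sq_le_sq ?_ (norm_nonneg _)
    rw [h1, h2]
    nlinarith
  rw [norm_mul]
  have h4 : ‖(c : ℂ) + v * Complex.I‖ * ‖(c : ℂ) + v * Complex.I‖ ≤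
      ‖(c : ℂ) + v * Complex.I‖ * ‖(c : ℂ) + 1 + v * Complex.I‖ :=
    mul_le_mul_of_nonneg_left h3 (norm_nonneg _)
  refine le_trans ?_ h4
  rw [← sq, h1]
  have h5 : min (c ^ 2) 1 ≤ c ^ 2 := min_le_left _ _
  have h6 : min (c ^ 2) 1 ≤ 1 := min_le_right _ _
  nlinarith [sq_nonneg v]

theorem integrable_kernel {c x : ℝ} (hc : 0 < c) (hx : 0 < x) :
    Integrable (fun v : ℝ => (x : ℂ) ^ (c + v * Complex.I) /
      ((c + v * Complex.I) * (c + 1 + v * Complex.I))) := by
  have hm : 0 < min (c ^ 2) 1 := lt_min (by positivity) one_pos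
  have hg : Integrable (fun v : ℝ => (x ^ c * (min (c ^ 2) 1)⁻¹) * (1 + v ^ 2)⁻¹) :=
    integrable_inv_one_add_sq.const_mul _
  refine hg.mono' ?_ ?_
  · refine Continuous.aestronglyMeasurable ?_
    refine Continuous.div ?_ (by fun_prop) (denom_ne hc)
    exact Continuous.const_cpow (by fun_prop) (Or.inl (by exact_mod_cast hx.ne'))
  · refine Filter.Eventually.of_forall fun v => ?_
    rw [norm_div, Complex.norm_cpow_eq_rpow_re_of_pos hx]
    have h1 : ((c : ℂ) + v * Complex.I).re = c := by simp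
    rw [h1, mul_assoc, div_eq_mul_inv]
    refine mul_le_mul_of_nonneg_left ?_ (Real.rpow_nonneg hx.le c)
    rw [← mul_inv]
    exact inv_anti₀ (by positivity) (denom_ge hc v)

theorem vert {c : ℝ} (hc : 0 < c) : Complex.VerticalIntegrable (mellin ff) c := by
  have h := integrable_kernel hc (one_pos : (0 : ℝ) < 1)
  refine h.congr (Filter.Eventually.of_forall fun v => ?_)
  have hs : 0 < ((c : ℂ) + v * Complex.I).re := by simpa using hc
  show ((1 : ℝ) : ℂ) ^ ((c : ℂ) + v * Complex.I) / _ = mellin ff ((c : ℂ) + v * Complex.I)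
  rw [(hasMellin_ff hs).2, sub_inv_eq hs, Complex.ofReal_one, Complex.one_cpow]
  congr 2
  ring

theorem cont_ff {u : ℝ} (hu : 0 < u) : ContinuousAt ff u := by
  have h1 : ContinuousAt (fun u : ℝ => ((max (1 - u) 0 : ℝ) : ℂ)) u := by
    have : Continuous (fun u : ℝ => ((max (1 - u) 0 : ℝ) : ℂ)) :=
      Complex.continuous_ofReal.comp ((continuous_const.sub continuous_id).max continuous_const)
    exact this.continuousAt
  refine h1.congr ?_
  filter_upwards [Ioi_mem_nhds hu] with z hz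
  exact (ff_eq hz).symm

end Kn_aux

theorem iKn : StKn := by
  intro c x hc hx
  refine ⟨Kn_aux.integrable_kernel hc hx, ?_⟩
  have hx' : 0 < 1 / x := by positivity
  have h := mellinInv_mellin_eq c Kn_aux.ff hx' (Kn_aux.hasMellin_ff (s := (c : ℂ)) (by simpa using hc)).1
    (Kn_aux.vert hc) (Kn_aux.cont_ff hx')
  rw [Kn_aux.ff_eq hx'] at h
  rw [← h, mellinInv, Complex.real_smul]
  congr 1
  refine integral_congr_ae (Filter.Eventually.of_forall fun v => ?_)
  have hs : 0 < ((c : ℂ) + v * Complex.I).re := by simpa using hc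
  show (x : ℂ) ^ ((c : ℂ) + v * Complex.I) / _ = ((1 / x : ℝ) : ℂ) ^ (-((c : ℂ) + v * Complex.I)) • mellin Kn_aux.ff _
  rw [(Kn_aux.hasMellin_ff hs).2, Kn_aux.sub_inv_eq hs, smul_eq_mul]
  have h2 : ((1 / x : ℝ) : ℂ) ^ (-((c : ℂ) + v * Complex.I)) = (x : ℂ) ^ ((c : ℂ) + v * Complex.I) := by
    have h3 : ((1 / x : ℝ) : ℂ) = ((x : ℂ))⁻¹ := by push_cast; ring
    rw [h3, Complex.inv_cpow, Complex.cpow_neg, inv_inv]
    rw [Complex.arg_ofReal_of_nonneg hx.le]
    exact Real.pi_pos.ne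
  rw [h2, div_eq_mul_one_div]
  congr 2
  ring

end Pool.Agent.Work.MP_a8fbd7_nt.ZF
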