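/-
Block ZF (problem MP_a8fbd7_nt): item Lo, low heights.  Author: helper7.
-/
import Pool.Agent.Work.MP_a8fbd7_nt.ZF.Stmts
import Pool.Agent.Work.MP_37bd4f_nt.ZetaZeros

open MeasureTheory Set Filter Topology

noncomputable section

namespace Pool.Agent.Work.MP_a8fbd7_nt.ZF

namespace Lo_aux

lemma cont_Gz_on : ContinuousOn Gz {s : ℂ | riemannZeta₁ s ≠ 0} := by
  have hd : Differentiable ℂ riemannZeta₁ := differentiable_riemannZeta₁
  have hc : Continuous (deriv riemannZeta₁) := hd.contDiff.continuous_deriv le_top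
  unfold Gz
  exact (hc.continuousOn.div hd.continuous.continuousOn fun s hs => hs).neg

end Lo_aux

theorem iLo : StLo := by
  intro T0 hT0
  set K : Set ℂ := Icc (1 : ℝ) 3 ×ℂ Icc (-T0) T0 with hK
  have hKc : IsCompact K := IsCompact.reProdIm isCompact_Icc isCompact_Icc
  have hd : Differentiable ℂ riemannZeta₁ := differentiable_riemannZeta₁
  have hU : IsOpen {s : ℂ | riemannZeta₁ s ≠ 0} := isOpen_ne_fun hd.continuous continuous_const
  have hKU : K ⊆ {s : ℂ | riemannZeta₁ s ≠ 0} := by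
    intro s hs
    rw [hK, Complex.mem_reProdIm] at hs
    exact MP_37bd4f_nt.zeta₁_ne_zero hs.1.1
  obtain ⟨δ, hδ, hsub⟩ := hKc.exists_cthickening_subset_open hU hKU
  have hcomp : IsCompact (Metric.cthickening δ K) := hKc.cthickening
  obtain ⟨C, hC⟩ := hcomp.exists_bound_of_continuousOn (Lo_aux.cont_Gz_on.mono hsub)
  refine ⟨min δ (1 / 2), max C 1, lt_min hδ (by norm_num), min_le_right _ _, le_max_right _ _, ?_⟩
  intro s him hre hre3
  have hs : s ∈ Metric.cthickening δ K := by
    by_cases h1 : 1 ≤ s.re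
    · apply Metric.self_subset_cthickening
      rw [hK, Complex.mem_reProdIm]
      exact ⟨⟨h1, hre3⟩, abs_le.mp him⟩
    · rw [not_le] at h1
      have hmem : (⟨1, s.im⟩ : ℂ) ∈ K := by
        rw [hK, Complex.mem_reProdIm]
        exact ⟨⟨le_refl _, by norm_num⟩, abs_le.mp him⟩
      apply Metric.mem_cthickening_of_dist_le s ⟨1, s.im⟩ δ K hmem
      have h2 : dist s (⟨1, s.im⟩ : ℂ) = |s.re - 1| := by
        rw [Complex.dist_of_im_eq (show s.im = (⟨1, s.im⟩ : ℂ).im from rfl), Real.dist_eq]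
      rw [h2, abs_sub_comm, abs_of_nonneg (by linarith)]
      have := min_le_left δ (1 / 2)
      linarith
  exact ⟨hsub hs, (hC s hs).trans (le_max_left _ _)⟩

end Pool.Agent.Work.MP_a8fbd7_nt.ZF
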