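import Pool.Agent.Work.MP_a8fbd7_nt.ZF.Stmts

/-!
MP_a8fbd7_nt, block ZF, item Mb: the function `G = - ζ₁' / ζ₁` to the right of 1.
-/

open MeasureTheory Set Filter Topology

noncomputable section

namespace Pool.Agent.Work.MP_a8fbd7_nt.ZF

namespace Mb_aux

/-- the von Mangoldt function with complex values -/
def vm (n : ℕ) : ℂ := ((ArithmeticFunction.vonMangoldt n : ℝ) : ℂ)

theorem z1_ne {s : ℂ} (hs : 1 ≤ s.re) : riemannZeta₁ s ≠ 0 := by
  by_cases h : s = 1
  · rw [h, riemannZeta₁_one]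
    exact one_ne_zero
  · intro h0
    have h1 := riemannZeta_eq_inv_sub_mul h
    rw [h0, mul_zero] at h1
    exact riemannZeta_ne_zero_of_one_le_re hs h1

theorem deriv_cont : Continuous (deriv riemannZeta₁) :=
  differentiable_riemannZeta₁.deriv.continuous

theorem gz_contAt {s : ℂ} (hs : 1 ≤ s.re) : ContinuousAt Gz s := by
  unfold Gz
  exact (deriv_cont.continuousAt.div differentiable_riemannZeta₁.continuous.continuousAt
    (z1_ne hs)).neg

theorem summ {s : ℂ} (hs : 1 < s.re) : LSeriesSummable vm s :=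
  ArithmeticFunction.LSeriesSummable_vonMangoldt hs

theorem lser {s : ℂ} (hs : 1 < s.re) : LSeries vm s = -deriv riemannZeta s / riemannZeta s :=
  ArithmeticFunction.LSeries_vonMangoldt_eq_deriv_riemannZeta_div hs

theorem gz_eq {s : ℂ} (hs : 1 < s.re) : Gz s = LSeries vm s - 1 / (s - 1) := by
  have h1 : s ≠ 1 := by
    rintro rfl
    simp at hs
  have h2 : s - 1 ≠ 0 := sub_ne_zero.2 h1
  have h3 := z1_ne hs.le
  rw [lser hs, deriv_riemannZeta_eq_neg_inv_sub_sq_mul_add h1, riemannZeta_eq_inv_sub_mul h1, Gz]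
  field_simp
  ring

theorem norm_sum {c : ℝ} (hc : 1 < c) (s : ℂ) (hs : s.re = c) :
    ‖LSeries vm s‖ ≤ ‖LSeries vm (c : ℂ)‖ := by
  have hs1 : 1 < s.re := by rw [hs]; exact hc
  have hc1 : 1 < (c : ℂ).re := by rw [Complex.ofReal_re]; exact hc
  have h1 : ‖LSeries vm s‖ ≤ ∑' n, ‖LSeries.term vm s n‖ :=
    norm_tsum_le_tsum_norm (summ hs1).norm
  have h2 : ∀ n, ‖LSeries.term vm s n‖ = ‖LSeries.term vm (c : ℂ) n‖ := by
    intro n
    rw [LSeries.norm_term_eq, LSeries.norm_term_eq, hs, Complex.ofReal_re]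
  have h3 : ∀ n, LSeries.term vm (c : ℂ) n = ((‖LSeries.term vm (c : ℂ) n‖ : ℝ) : ℂ) := by
    intro n
    rw [LSeries.norm_term_eq]
    rw [Complex.ofReal_re]
    by_cases hn : n = 0
    · rw [if_pos hn, hn, LSeries.term_zero, Complex.ofReal_zero]
    · rw [if_neg hn, LSeries.term_of_ne_zero hn]
      have h4 : ‖vm n‖ = ArithmeticFunction.vonMangoldt n := by
        unfold vm
        rw [Complex.norm_real, Real.norm_eq_abs,
          abs_of_nonneg ArithmeticFunction.vonMangoldt_nonneg]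
      rw [h4, Complex.ofReal_div, Complex.ofReal_cpow (Nat.cast_nonneg n), Complex.ofReal_natCast]
      rfl
  have h5 : LSeries vm (c : ℂ) = ((∑' n, ‖LSeries.term vm (c : ℂ) n‖ : ℝ) : ℂ) := by
    rw [Complex.ofReal_tsum]
    unfold LSeries
    exact tsum_congr h3
  rw [h5, Complex.norm_real, Real.norm_eq_abs,
    abs_of_nonneg (tsum_nonneg fun n => norm_nonneg _)]
  refine h1.trans (le_of_eq ?_)
  exact tsum_congr h2

theorem bdd : ∃ M : ℝ, 0 ≤ M ∧ ∀ c : ℝ, 1 ≤ c → c ≤ 3 → ‖Gz (c : ℂ)‖ ≤ M := by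
  have h1 : ContinuousOn (fun c : ℝ => ‖Gz (c : ℂ)‖) (Set.Icc 1 3) := by
    intro c hc
    have h2 : ContinuousAt Gz (c : ℂ) := gz_contAt (by rw [Complex.ofReal_re]; exact hc.1)
    exact (h2.norm.comp (f := fun c : ℝ => (c : ℂ))
      Complex.continuous_ofReal.continuousAt).continuousWithinAt
  obtain ⟨M, hM⟩ := isCompact_Icc.bddAbove_image h1
  refine ⟨M, ?_, ?_⟩
  · have := hM ⟨1, ⟨le_refl 1, by norm_num⟩, rfl⟩
    exact (norm_nonneg _).trans this
  · intro c h1 h3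
    exact hM ⟨c, ⟨h1, h3⟩, rfl⟩

end Mb_aux

open Mb_aux in
theorem iMb : StMb := by
  obtain ⟨M, hM0, hM⟩ := bdd
  refine ⟨2 * M + 2, by linarith, ?_⟩
  intro c hc hc3
  have hre : ∀ v : ℝ, ((c : ℂ) + v * Complex.I).re = c := by
    intro v
    simp
  refine ⟨?_, ?_⟩
  · rw [continuous_iff_continuousAt]
    intro v
    have h1 : ContinuousAt Gz ((c : ℂ) + v * Complex.I) := gz_contAt (by rw [hre]; exact hc.le)
    have h2 : Continuous fun v : ℝ => (c : ℂ) + v * Complex.I := by fun_prop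
    exact ContinuousAt.comp (f := fun v : ℝ => (c : ℂ) + v * Complex.I) h1 h2.continuousAt
  · intro v
    have h0 : 0 < c - 1 := by linarith
    have he : Gz ((c : ℂ) + v * Complex.I) =
        LSeries vm ((c : ℂ) + v * Complex.I) - 1 / ((c : ℂ) + v * Complex.I - 1) :=
      gz_eq (by rw [hre]; exact hc)
    refine ⟨?_, he⟩
    rw [he]
    have h1 : ‖LSeries vm ((c : ℂ) + v * Complex.I)‖ ≤ ‖LSeries vm (c : ℂ)‖ :=
      norm_sum hc _ (hre v)
    have h2 : ‖1 / ((c : ℂ) + v * Complex.I - 1)‖ ≤ 1 / (c - 1) := by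
      rw [norm_div, norm_one]
      refine one_div_le_one_div_of_le h0 ?_
      have h3 := Complex.re_le_norm ((c : ℂ) + v * Complex.I - 1)
      rw [Complex.sub_re, hre, Complex.one_re] at h3
      exact h3
    have h4 : LSeries vm (c : ℂ) = Gz (c : ℂ) + 1 / ((c : ℂ) - 1) := by
      rw [gz_eq (by rw [Complex.ofReal_re]; exact hc)]
      ring
    have h5 : ‖LSeries vm (c : ℂ)‖ ≤ M + 1 / (c - 1) := by
      rw [h4]
      refine (norm_add_le _ _).trans (add_le_add (hM c hc.le hc3) (le_of_eq ?_))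
      rw [norm_div, norm_one]
      congr 1
      have h6 : (c : ℂ) - 1 = ((c - 1 : ℝ) : ℂ) := by push_cast; ring
      rw [h6, Complex.norm_real, Real.norm_eq_abs, abs_of_pos h0]
    have h7 : M ≤ 2 * M / (c - 1) := by
      rw [le_div_iff₀ h0]
      nlinarith
    calc ‖LSeries vm ((c : ℂ) + v * Complex.I) - 1 / ((c : ℂ) + v * Complex.I - 1)‖
        ≤ ‖LSeries vm ((c : ℂ) + v * Complex.I)‖ + ‖1 / ((c : ℂ) + v * Complex.I - 1)‖ :=
          norm_sub_le _ _
      _ ≤ (M + 1 / (c - 1)) + 1 / (c - 1) := add_le_add (h1.trans h5) h2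
      _ ≤ (2 * M / (c - 1) + 1 / (c - 1)) + 1 / (c - 1) := by linarith
      _ = (2 * M + 2) / (c - 1) := by ring

end Pool.Agent.Work.MP_a8fbd7_nt.ZF
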