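import Pool.Agent.Work.MP_a8fbd7_nt.ZF.Stmts

/-!
MP_a8fbd7_nt, block ZF, item Near2: the near zone with two products.
-/

open MeasureTheory Set Filter Topology

noncomputable section

namespace Pool.Agent.Work.MP_a8fbd7_nt.ZF

open Pool.Agent.Work.MP_56b8f5_nt.UC (IsWt Bl Dp Sep)
open Pool.Agent.Work.MP_56b8f5_nt

namespace Near2_aux

/-- the number of points is small -/
theorem few {c CH T L0 D R : ℝ} (hc : 0 < c) (hc2 : c ≤ 1 / 2) (hCH : 1 ≤ CH) (hT : 1 ≤ T)
    (hL0 : T ^ (1 / 2 + c) ≤ L0) (hD1 : 1 ≤ D) (hD : D ≤ T ^ (c / 8)) (hR0 : 0 ≤ R) (hR : R ≤ 2 * T)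
    (hS : R * (L0 ^ (1 - c / 8)) ^ 2 ≤ CH * (L0 + R * Real.sqrt T) * (D * L0)) :
    R * Real.sqrt T ≤ (2 * CH + 2 * ((2 * CH) ^ (8 / (5 * c))) ^ 2) * L0 := by
  have hT0 : 0 < T := by linarith
  have hTc : (1 : ℝ) ≤ T ^ (1 / 2 + c) := Real.one_le_rpow hT (by linarith)
  have hL1 : 1 ≤ L0 := hTc.trans hL0
  have hL0p : 0 < L0 := by linarith
  have hsq : Real.sqrt T ≤ T := by
    rw [Real.sqrt_le_left hT0.le]
    nlinarith
  have hsq0 : 0 ≤ Real.sqrt T := Real.sqrt_nonneg T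
  have hB0 : 0 ≤ (2 * CH) ^ (8 / (5 * c)) := Real.rpow_nonneg (by linarith) _
  have hRT : R * Real.sqrt T ≤ 2 * T ^ 2 := by
    calc R * Real.sqrt T ≤ (2 * T) * T := mul_le_mul hR hsq hsq0 (by linarith)
      _ = 2 * T ^ 2 := by ring
  rcases le_or_gt L0 (T ^ 2) with hcase | hcase
  · rcases le_or_gt (2 * CH) (T ^ (5 * c / 8)) with hbig | hsmall
    · -- large `T`
      set P : ℝ := L0 ^ (1 - c / 4) with hP
      have hPpos : 0 < P := Real.rpow_pos_of_pos hL0p _
      have hpow : (L0 ^ (1 - c / 8)) ^ 2 = L0 * P := by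
        rw [hP, ← Real.rpow_natCast, ← Real.rpow_mul hL0p.le]
        nth_rewrite 2 [← Real.rpow_one L0]
        rw [← Real.rpow_add hL0p]
        congr 1
        push_cast
        ring
      have h1 : R * P ≤ CH * D * (L0 + R * Real.sqrt T) := by
        rw [hpow] at hS
        have h2 : L0 * (R * P) ≤ L0 * (CH * D * (L0 + R * Real.sqrt T)) := by
          calc L0 * (R * P) = R * (L0 * P) := by ring
            _ ≤ _ := hS
            _ = _ := by ring
        exact le_of_mul_le_mul_left h2 hL0p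
      have h3 : T ^ (1 / 2 + 3 * c / 4) ≤ P := by
        calc T ^ (1 / 2 + 3 * c / 4) ≤ T ^ ((1 / 2 + c) * (1 - c / 4)) :=
              Real.rpow_le_rpow_of_exponent_le hT (by nlinarith)
          _ = (T ^ (1 / 2 + c)) ^ (1 - c / 4) := Real.rpow_mul hT0.le _ _
          _ ≤ L0 ^ (1 - c / 4) :=
              Real.rpow_le_rpow (by linarith) hL0 (by linarith)
      have h4 : CH * D * Real.sqrt T ≤ P / 2 := by
        have h5 : Real.sqrt T = T ^ (1 / 2 : ℝ) := Real.sqrt_eq_rpow T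
        have h6 : T ^ (1 / 2 + 3 * c / 4) = T ^ (5 * c / 8) * (T ^ (c / 8) * T ^ (1 / 2 : ℝ)) := by
          rw [← Real.rpow_add hT0, ← Real.rpow_add hT0]
          congr 1
          ring
        have h7 : 2 * (CH * D * Real.sqrt T) ≤ T ^ (1 / 2 + 3 * c / 4) := by
          rw [h6, h5]
          calc 2 * (CH * D * T ^ (1 / 2 : ℝ)) = (2 * CH) * (D * T ^ (1 / 2 : ℝ)) := by ring
            _ ≤ T ^ (5 * c / 8) * (T ^ (c / 8) * T ^ (1 / 2 : ℝ)) := by
                refine mul_le_mul hbig ?_ (by positivity) (by positivity)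
                exact mul_le_mul_of_nonneg_right hD (by positivity)
        linarith
      have h8 : R * P ≤ 2 * CH * D * L0 := by
        have h9 : R * (CH * D * Real.sqrt T) ≤ R * (P / 2) := mul_le_mul_of_nonneg_left h4 hR0
        nlinarith
      have h10 : R ≤ 2 * CH * T ^ (5 * c / 8) := by
        have h11 : L0 = P * L0 ^ (c / 4) := by
          rw [hP, ← Real.rpow_add hL0p]
          conv_lhs => rw [← Real.rpow_one L0]
          congr 1
          ring
        have h12 : P * R ≤ P * (2 * CH * (D * L0 ^ (c / 4))) := by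
          calc P * R = R * P := by ring
            _ ≤ 2 * CH * D * L0 := h8
            _ = 2 * CH * D * (P * L0 ^ (c / 4)) := by rw [← h11]
            _ = _ := by ring
        have h13 : R ≤ 2 * CH * (D * L0 ^ (c / 4)) := le_of_mul_le_mul_left h12 hPpos
        have h14 : L0 ^ (c / 4) ≤ T ^ (c / 2) := by
          calc L0 ^ (c / 4) ≤ (T ^ 2) ^ (c / 4) :=
                Real.rpow_le_rpow hL0p.le hcase (by linarith)
            _ = T ^ (c / 2) := by
                rw [← Real.rpow_natCast, ← Real.rpow_mul hT0.le]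
                congr 1
                push_cast
                ring
        have h15 : D * L0 ^ (c / 4) ≤ T ^ (c / 8) * T ^ (c / 2) :=
          mul_le_mul hD h14 (by positivity) (by positivity)
        have h16 : T ^ (c / 8) * T ^ (c / 2) = T ^ (5 * c / 8) := by
          rw [← Real.rpow_add hT0]
          congr 1
          ring
        calc R ≤ 2 * CH * (D * L0 ^ (c / 4)) := h13
          _ ≤ 2 * CH * (T ^ (c / 8) * T ^ (c / 2)) :=
              mul_le_mul_of_nonneg_left h15 (by linarith)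
          _ = _ := by rw [h16]
      have h17 : R * Real.sqrt T ≤ 2 * CH * L0 := by
        calc R * Real.sqrt T ≤ (2 * CH * T ^ (5 * c / 8)) * Real.sqrt T :=
              mul_le_mul_of_nonneg_right h10 hsq0
          _ = 2 * CH * T ^ (5 * c / 8 + 1 / 2) := by
              rw [Real.sqrt_eq_rpow, Real.rpow_add hT0]
              ring
          _ ≤ 2 * CH * T ^ (1 / 2 + c) := by
              refine mul_le_mul_of_nonneg_left ?_ (by linarith)
              exact Real.rpow_le_rpow_of_exponent_le hT (by linarith)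
          _ ≤ 2 * CH * L0 := mul_le_mul_of_nonneg_left hL0 (by linarith)
      have h18 : 0 ≤ 2 * ((2 * CH) ^ (8 / (5 * c))) ^ 2 * L0 := by positivity
      linarith
    · -- bounded `T`
      have h1 : T ≤ (2 * CH) ^ (8 / (5 * c)) := by
        calc T = (T ^ (5 * c / 8)) ^ (8 / (5 * c)) := by
              rw [← Real.rpow_mul hT0.le]
              have h2 : 5 * c / 8 * (8 / (5 * c)) = 1 := by
                field_simp
              rw [h2, Real.rpow_one]
          _ ≤ (2 * CH) ^ (8 / (5 * c)) :=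
              Real.rpow_le_rpow (by positivity) hsmall.le (by positivity)
      have h3 : T ^ 2 ≤ ((2 * CH) ^ (8 / (5 * c))) ^ 2 := pow_le_pow_left₀ hT0.le h1 2
      have h4 : 0 ≤ 2 * CH * L0 := by positivity
      have h5 : 2 * ((2 * CH) ^ (8 / (5 * c))) ^ 2 * 1 ≤ 2 * ((2 * CH) ^ (8 / (5 * c))) ^ 2 * L0 :=
        mul_le_mul_of_nonneg_left hL1 (by positivity)
      linarith
  · have h1 : 2 * L0 ≤ 2 * CH * L0 := by nlinarith
    have h2 : 0 ≤ 2 * ((2 * CH) ^ (8 / (5 * c))) ^ 2 * L0 := by positivity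
    linarith

end Near2_aux

open Near2_aux in
theorem iNear2 (hHM : StHM) (hS2 : UC.StS2) : StNear2 := by
  intro c C0 hc hc2 hC0
  obtain ⟨CH, hCH1, hCH⟩ := hHM C0 hC0
  obtain ⟨CS, hCS1, hCS⟩ := hS2
  set K : ℝ := 2 * CH + 2 * ((2 * CH) ^ (8 / (5 * c))) ^ 2 with hK
  have hB0 : 0 ≤ (2 * CH) ^ (8 / (5 * c)) := Real.rpow_nonneg (by linarith) _
  have hK0 : 0 ≤ K := by positivity
  refine ⟨c / 8, CH * (1 + K), by linarith, by nlinarith, ?_⟩
  intro T0 T q D L L4 Y a G4 W hT hL0 hL01 hL4 hq hD1 hD ha hsum hsep hW hlow hG4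
  have hTc : (1 : ℝ) ≤ T ^ (1 / 2 + c) := Real.one_le_rpow hT (by linarith)
  have hL0' : 1 ≤ L 0 := hTc.trans hL0
  have hL1' : 1 ≤ L 1 := hL0'.trans hL01
  have hcard : (W.card : ℝ) ≤ 2 * T := (hCS W hsep).2.2 T0 T hT hW
  have hHM1 : ∀ i : Fin 2, 1 ≤ L i → ∑ t ∈ W, ‖Dp Y (a i) t‖ ^ 2 ≤
      CH * (L i + W.card * Real.sqrt T) * (D * L i) := by
    intro i hi
    refine (hCH T0 T (L i) Y (a i) W hT hi (ha i) hsep hW).trans ?_
    refine mul_le_mul_of_nonneg_left (hsum i) ?_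
    have := Real.sqrt_nonneg T
    positivity
  have hS0 := hHM1 0 hL0'
  have hS1 := hHM1 1 hL1'
  have hR : (W.card : ℝ) * Real.sqrt T ≤ K * L 0 := by
    refine few hc hc2 hCH1 hT hL0 hD1 hD (Nat.cast_nonneg _) hcard ?_
    refine le_trans ?_ hS0
    have h1 : ∀ t ∈ W, ((L 0) ^ (1 - c / 8)) ^ 2 ≤ ‖Dp Y (a 0) t‖ ^ 2 := fun t ht =>
      pow_le_pow_left₀ (Real.rpow_nonneg (by linarith) _) (hlow t ht) 2
    have h2 := Finset.card_nsmul_le_sum W (fun t => ‖Dp Y (a 0) t‖ ^ 2) _ h1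
    rwa [nsmul_eq_mul] at h2
  have hR1 : (W.card : ℝ) * Real.sqrt T ≤ K * L 1 :=
    hR.trans (mul_le_mul_of_nonneg_left hL01 hK0)
  have hCK0 : 0 ≤ CH * (1 + K) := by positivity
  have hb : ∀ x : ℝ, 1 ≤ x → (W.card : ℝ) * Real.sqrt T ≤ K * x →
      CH * (x + W.card * Real.sqrt T) * (D * x) ≤ CH * (1 + K) * D * x ^ 2 := by
    intro x hx hxR
    have h1 : x + W.card * Real.sqrt T ≤ (1 + K) * x := by linarith
    calc CH * (x + W.card * Real.sqrt T) * (D * x) ≤ CH * ((1 + K) * x) * (D * x) := by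
          refine mul_le_mul_of_nonneg_right ?_ (by positivity)
          exact mul_le_mul_of_nonneg_left h1 (by linarith)
      _ = _ := by ring
  have hS0' := hS0.trans (hb _ hL0' hR)
  have hS1' := hS1.trans (hb _ hL1' hR1)
  have hsq : ∀ x : ℝ, 1 ≤ x → Real.sqrt (CH * (1 + K) * D * x ^ 2) =
      Real.sqrt (CH * (1 + K) * D) * x := by
    intro x hx
    rw [Real.sqrt_mul (by positivity), Real.sqrt_sq (by linarith)]
  have hCS2 : ∑ t ∈ W, ‖Dp Y (a 0) t‖ * ‖Dp Y (a 1) t‖ ≤ CH * (1 + K) * D * (L 0 * L 1) := by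
    refine (Real.sum_mul_le_sqrt_mul_sqrt W _ _).trans ?_
    calc Real.sqrt (∑ t ∈ W, ‖Dp Y (a 0) t‖ ^ 2) * Real.sqrt (∑ t ∈ W, ‖Dp Y (a 1) t‖ ^ 2)
        ≤ (Real.sqrt (CH * (1 + K) * D) * L 0) * (Real.sqrt (CH * (1 + K) * D) * L 1) := by
          refine mul_le_mul ?_ ?_ (Real.sqrt_nonneg _) (by positivity)
          · rw [← hsq _ hL0']
            exact Real.sqrt_le_sqrt hS0'
          · rw [← hsq _ hL1']
            exact Real.sqrt_le_sqrt hS1'
      _ = (Real.sqrt (CH * (1 + K) * D) * Real.sqrt (CH * (1 + K) * D)) * (L 0 * L 1) := by ring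
      _ = CH * (1 + K) * D * (L 0 * L 1) := by
          rw [Real.mul_self_sqrt (by positivity)]
  calc ∑ t ∈ W, ‖Dp Y (a 0) t * Dp Y (a 1) t * G4 t‖
      ≤ ∑ t ∈ W, (‖Dp Y (a 0) t‖ * ‖Dp Y (a 1) t‖) * (q * L4) := by
        refine Finset.sum_le_sum fun t ht => ?_
        rw [norm_mul, norm_mul]
        exact mul_le_mul_of_nonneg_left (hG4 t ht) (by positivity)
    _ = (∑ t ∈ W, ‖Dp Y (a 0) t‖ * ‖Dp Y (a 1) t‖) * (q * L4) := by rw [Finset.sum_mul]
    _ ≤ (CH * (1 + K) * D * (L 0 * L 1)) * (q * L4) :=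
        mul_le_mul_of_nonneg_right hCS2 (by positivity)
    _ = CH * (1 + K) * D * q * (L 0 * L 1 * L4) := by ring

end Pool.Agent.Work.MP_a8fbd7_nt.ZF
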