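import Pool.Agent.Work.MP_a8fbd7_nt.ZF.Stmts

/-! ITEM Pe: Perron formula for the Riesz mean. -/

set_option autoImplicit false

open MeasureTheory Set Filter Topology

noncomputable section

namespace Pool.Agent.Work.MP_a8fbd7_nt.ZF

namespace Pe_aux

/-- the von Mangoldt function as a complex sequence -/
def Lam (n : ℕ) : ℂ := ((ArithmeticFunction.vonMangoldt n : ℝ) : ℂ)

/-- the denominator -/
def K (c v : ℝ) : ℂ := (c + v * Complex.I) * (c + 1 + v * Complex.I)

theorem kn_int (hKn : StKn) {c x : ℝ} (hc : 0 < c) (hx : 0 < x) :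
    Integrable fun v : ℝ => (x : ℂ) ^ (c + v * Complex.I) / K c v := (hKn c x hc hx).1

theorem kn_val (hKn : StKn) {c x : ℝ} (hc : 0 < c) (hx : 0 < x) :
    ∫ v : ℝ, (x : ℂ) ^ (c + v * Complex.I) / K c v =
      (2 * Real.pi : ℝ) * ((max (1 - 1 / x) 0 : ℝ) : ℂ) := by
  have h := (hKn c x hc hx).2
  have h2 : ((2 * Real.pi : ℝ) : ℂ) ≠ 0 := by
    exact_mod_cast (by positivity : (0 : ℝ) < 2 * Real.pi).ne'
  rw [← h]
  have h3 : ((1 / (2 * Real.pi) : ℝ) : ℂ) = 1 / ((2 * Real.pi : ℝ) : ℂ) := by push_cast; ring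
  rw [h3, ← mul_assoc, mul_one_div_cancel h2, one_mul]
  rfl

theorem k_int (hKn : StKn) {c : ℝ} (hc : 0 < c) : Integrable fun v : ℝ => ‖1 / K c v‖ := by
  have h := (kn_int hKn hc one_pos).norm
  refine h.congr (Eventually.of_forall fun v => ?_)
  simp

theorem norm_cpow (x c v : ℝ) (hx : 0 < x) : ‖(x : ℂ) ^ (c + v * Complex.I)‖ = x ^ c := by
  rw [Complex.norm_cpow_eq_rpow_re_of_pos hx]
  simp

theorem norm_cpow1 (x c v : ℝ) (hx : 0 < x) :
    ‖(x : ℂ) ^ (c + 1 + v * Complex.I)‖ = x ^ (c + 1) := by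
  rw [Complex.norm_cpow_eq_rpow_re_of_pos hx]
  simp

theorem key (u y c t v : ℝ) (hu : 0 < u) (hy : 0 < y) :
    (u : ℂ) ^ (-(c + (t + v) * Complex.I)) * ((y : ℂ) ^ (c + 1 + v * Complex.I) / K c v) =
      ((u : ℂ) ^ (-(t * Complex.I)) * y) *
        (((y / u : ℝ) : ℂ) ^ (c + v * Complex.I) / K c v) := by
  have hu' : (u : ℂ) ≠ 0 := by exact_mod_cast hu.ne'
  have hy' : (y : ℂ) ≠ 0 := by exact_mod_cast hy.ne'
  have h1 : (y : ℂ) ^ (c + 1 + v * Complex.I) = y * (y : ℂ) ^ (c + v * Complex.I) := by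
    have : (c : ℂ) + 1 + v * Complex.I = 1 + (c + v * Complex.I) := by ring
    rw [this, Complex.cpow_add _ _ hy', Complex.cpow_one]
  have h2 : (u : ℂ) ^ (-(c + (t + v) * Complex.I)) =
      (u : ℂ) ^ (-(t * Complex.I)) * ((u : ℂ) ^ (c + v * Complex.I))⁻¹ := by
    have : -((c : ℂ) + (t + v) * Complex.I) = -(t * Complex.I) + -(c + v * Complex.I) := by ring
    rw [this, Complex.cpow_add _ _ hu', Complex.cpow_neg _ (c + v * Complex.I)]
  have h3 : (y : ℂ) ^ (c + v * Complex.I) =
      ((y / u : ℝ) : ℂ) ^ (c + v * Complex.I) * (u : ℂ) ^ (c + v * Complex.I) := by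
    rw [← Complex.mul_cpow_ofReal_nonneg (div_pos hy hu).le hu.le]
    congr 1
    rw [← Complex.ofReal_mul, div_mul_cancel₀ _ hu.ne']
  have h4 : (u : ℂ) ^ (c + v * Complex.I) ≠ 0 := by
    rw [Complex.cpow_def_of_ne_zero hu']
    exact Complex.exp_ne_zero _
  rw [h1, h2, h3]
  generalize (u : ℂ) ^ (c + v * Complex.I) = A at h4 ⊢
  generalize ((y / u : ℝ) : ℂ) ^ (c + v * Complex.I) = B
  generalize (u : ℂ) ^ (-(t * Complex.I)) = D
  generalize K c v = E
  field_simp

theorem max_mul {y u : ℝ} (hy : 0 < y) (hu : 0 < u) :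
    y * max (1 - 1 / (y / u)) 0 = max (y - u) 0 := by
  have : 1 / (y / u) = u / y := by field_simp
  rw [this, mul_max_of_nonneg _ _ hy.le, mul_zero, mul_sub, mul_one, mul_div_cancel₀ _ hy.ne']

/-- the integral over `v` for one value of `u` -/
theorem int_one (hKn : StKn) {c : ℝ} (hc : 0 < c) (u y t : ℝ) (hu : 0 < u) (hy : 0 < y) :
    ∫ v : ℝ, (u : ℂ) ^ (-(c + (t + v) * Complex.I)) *
        ((y : ℂ) ^ (c + 1 + v * Complex.I) / K c v) =
      (2 * Real.pi : ℝ) * (((max (y - u) 0 : ℝ) : ℂ) * (u : ℂ) ^ (-(t * Complex.I))) := by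
  simp only [key u y c t _ hu hy]
  rw [integral_const_mul, kn_val hKn hc (div_pos hy hu), ← max_mul hy hu]
  push_cast
  ring

theorem int_one_int (hKn : StKn) {c : ℝ} (hc : 0 < c) (u y t : ℝ) (hu : 0 < u) (hy : 0 < y) :
    Integrable fun v : ℝ => (u : ℂ) ^ (-(c + (t + v) * Complex.I)) *
        ((y : ℂ) ^ (c + 1 + v * Complex.I) / K c v) := by
  simp only [key u y c t _ hu hy]
  exact (kn_int hKn hc (div_pos hy hu)).const_mul _

/-- part (i) -/
theorem part1 (hKn : StKn) {c : ℝ} (hc : 1 < c) (y t : ℝ) (hy : 1 ≤ y) :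
    ∫ v : ℝ, LSeries Lam (c + (t + v) * Complex.I) *
        ((y : ℂ) ^ (c + 1 + v * Complex.I) / K c v) = (2 * Real.pi : ℝ) * Lr y t := by
  have hc0 : 0 < c := by linarith
  have hy0 : 0 < y := by linarith
  let F : ℕ → ℝ → ℂ := fun n v => LSeries.term Lam (c + (t + v) * Complex.I) n *
    ((y : ℂ) ^ (c + 1 + v * Complex.I) / K c v)
  have hF0 : ∀ v, F 0 v = 0 := by intro v; simp [F]
  have hFn : ∀ n : ℕ, n ≠ 0 → ∀ v : ℝ, F n v = Lam n * (((n : ℝ) : ℂ) ^ (-(c + (t + v) * Complex.I)) *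
      ((y : ℂ) ^ (c + 1 + v * Complex.I) / K c v)) := by
    intro n hn v
    simp only [F, LSeries.term_of_ne_zero hn]
    rw [Complex.cpow_neg, Complex.ofReal_natCast]
    ring
  have hint : ∀ n, Integrable (F n) := by
    intro n
    rcases Nat.eq_zero_or_pos n with rfl | hn
    · have : F 0 = fun _ => 0 := by funext v; exact hF0 v
      rw [this]; exact integrable_zero _ _ _
    · have : F n = fun v : ℝ => Lam n * (((n : ℝ) : ℂ) ^ (-(c + (t + v) * Complex.I)) *
          ((y : ℂ) ^ (c + 1 + v * Complex.I) / K c v)) := by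
        funext v; exact hFn n hn.ne' v
      rw [this]
      exact (int_one_int hKn hc0 n y t (by exact_mod_cast hn) hy0).const_mul _
  have hnorm : ∀ (n : ℕ) (v : ℝ), ‖F n v‖ = ‖LSeries.term Lam (c : ℂ) n‖ * (y ^ (c + 1) * ‖1 / K c v‖) := by
    intro n v
    simp only [F]
    rw [norm_mul, norm_div, norm_cpow1 y c v hy0, norm_div, norm_one]
    have : ‖LSeries.term Lam (c + (t + v) * Complex.I) n‖ = ‖LSeries.term Lam (c : ℂ) n‖ := by
      rw [LSeries.norm_term_eq, LSeries.norm_term_eq]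
      simp
    rw [this]
    ring
  have hsum : Summable fun n => ∫ v, ‖F n v‖ := by
    simp only [hnorm]
    simp only [integral_const_mul]
    apply Summable.mul_right
    have h1 := ArithmeticFunction.LSeriesSummable_vonMangoldt (s := (c : ℂ)) (by simpa using hc)
    exact h1.norm
  have hS := hasSum_integral_of_summable_integral_norm hint hsum
  have e1 : (∫ v : ℝ, LSeries Lam (c + (t + v) * Complex.I) *
        ((y : ℂ) ^ (c + 1 + v * Complex.I) / K c v)) = ∫ v, ∑' n, F n v := by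
    congr 1
    funext v
    simp only [F]
    rw [tsum_mul_right]
    rfl
  rw [e1, ← hS.tsum_eq]
  have hval : ∀ n : ℕ, ∫ v, F n v = (2 * Real.pi : ℝ) *
      (Lam n * (((max (y - n) 0 : ℝ) : ℂ) * (n : ℂ) ^ (-(t * Complex.I)))) := by
    intro n
    rcases Nat.eq_zero_or_pos n with rfl | hn
    · have : F 0 = fun _ => 0 := by funext v; exact hF0 v
      rw [this]
      simp [Lam]
    · simp only [hFn n hn.ne']
      rw [integral_const_mul, int_one hKn hc0 n y t (by exact_mod_cast hn) hy0,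
        Complex.ofReal_natCast]
      ring
  simp only [hval]
  rw [tsum_mul_left]
  congr 1
  unfold Lr
  rw [tsum_eq_sum (s := Finset.Icc 1 ⌊y⌋₊)]
  · apply Finset.sum_congr rfl
    intro n hn
    rw [Finset.mem_Icc] at hn
    have : (n : ℝ) ≤ y := (Nat.le_floor_iff hy0.le).1 hn.2
    rw [max_eq_left (by linarith)]
    unfold Lam
    ring
  · intro n hn
    rw [Finset.mem_Icc, not_and_or, not_le, not_le] at hn
    rcases hn with h | h
    · have : n = 0 := by omega
      subst this
      simp [Lam]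
    · have : y < n := (Nat.floor_lt hy0.le).1 h
      rw [max_eq_right (by linarith)]
      simp

/-- part (ii) -/
theorem part2 (hKn : StKn) {c : ℝ} (hc : 1 < c) (y t : ℝ) (hy : 1 ≤ y) :
    ∫ v : ℝ, (1 / (c + (t + v) * Complex.I - 1)) *
        ((y : ℂ) ^ (c + 1 + v * Complex.I) / K c v) =
      (2 * Real.pi : ℝ) * ∫ u in (1 : ℝ)..y, ((y - u : ℝ) : ℂ) * (u : ℂ) ^ (-(t * Complex.I)) := by
  have hc0 : 0 < c := by linarith
  have hy0 : 0 < y := by linarith
  have e1 : ∀ v : ℝ, (1 / (c + (t + v) * Complex.I - 1)) *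
      ((y : ℂ) ^ (c + 1 + v * Complex.I) / K c v) =
      ∫ u in Ioi (1 : ℝ), (u : ℂ) ^ (-(c + (t + v) * Complex.I)) *
        ((y : ℂ) ^ (c + 1 + v * Complex.I) / K c v) := by
    intro v
    rw [integral_mul_const]
    congr 1
    rw [integral_Ioi_cpow_of_lt (by simpa using hc) one_pos]
    simp only [Complex.ofReal_one, Complex.one_cpow]
    have : -((c : ℂ) + (t + v) * Complex.I) + 1 = -(c + (t + v) * Complex.I - 1) := by ring
    rw [this, neg_div_neg_eq]
  simp only [e1]
  have hH : Integrable (Function.uncurry fun (v u : ℝ) =>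
      (u : ℂ) ^ (-(c + (t + v) * Complex.I)) * ((y : ℂ) ^ (c + 1 + v * Complex.I) / K c v))
      (volume.prod (volume.restrict (Ioi (1 : ℝ)))) := by
    have hg : Integrable (fun z : ℝ × ℝ => (y ^ (c + 1) * ‖1 / K c z.1‖) * z.2 ^ (-c))
        (volume.prod (volume.restrict (Ioi (1 : ℝ)))) := by
      apply Integrable.mul_prod (f := fun v : ℝ => y ^ (c + 1) * ‖1 / K c v‖)
        (g := fun u : ℝ => u ^ (-c))
      · exact (k_int hKn hc0).const_mul _
      · exact integrableOn_Ioi_rpow_of_lt (by linarith) one_pos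
    refine hg.mono' ?_ ?_
    · apply Measurable.aestronglyMeasurable
      unfold Function.uncurry K
      fun_prop
    · have hae : ∀ᵐ z : ℝ × ℝ ∂(volume.prod (volume.restrict (Ioi (1 : ℝ)))), z.2 ∈ Ioi (1 : ℝ) := by
        have : (volume.prod (volume.restrict (Ioi (1 : ℝ))) : Measure (ℝ × ℝ)) =
            (volume.prod volume).restrict (univ ×ˢ Ioi (1 : ℝ)) := by
          rw [← Measure.prod_restrict, Measure.restrict_univ]
        rw [this]
        filter_upwards [ae_restrict_mem (MeasurableSet.univ.prod measurableSet_Ioi)] with z hz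
        exact hz.2
      filter_upwards [hae] with z hz
      have hz0 : (0 : ℝ) < z.2 := lt_trans one_pos hz
      simp only [Function.uncurry]
      rw [norm_mul, norm_div, norm_cpow1 y c z.1 hy0, norm_div, norm_one,
        Complex.norm_cpow_eq_rpow_re_of_pos hz0]
      have : (-((c : ℂ) + (t + z.1) * Complex.I)).re = -c := by simp
      rw [this]
      apply le_of_eq
      ring
  rw [integral_integral_swap hH]
  have e2 : ∀ u ∈ Ioi (1 : ℝ), (∫ v : ℝ, (u : ℂ) ^ (-(c + (t + v) * Complex.I)) *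
      ((y : ℂ) ^ (c + 1 + v * Complex.I) / K c v)) =
      (2 * Real.pi : ℝ) * (((max (y - u) 0 : ℝ) : ℂ) * (u : ℂ) ^ (-(t * Complex.I))) := by
    intro u hu
    exact int_one hKn hc0 u y t (lt_trans one_pos hu) hy0
  rw [setIntegral_congr_fun measurableSet_Ioi e2, integral_const_mul]
  congr 1
  rw [intervalIntegral.integral_of_le hy]
  have e3 : ∫ u in Ioi (1 : ℝ), ((max (y - u) 0 : ℝ) : ℂ) * (u : ℂ) ^ (-(t * Complex.I)) =
      ∫ u in Ioc (1 : ℝ) y, ((max (y - u) 0 : ℝ) : ℂ) * (u : ℂ) ^ (-(t * Complex.I)) := by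
    apply setIntegral_eq_of_subset_of_forall_sdiff_eq_zero measurableSet_Ioi
    · intro u hu; exact hu.1
    · intro u hu
      have h1 : 1 < u := hu.1
      have h2 : ¬ (1 < u ∧ u ≤ y) := hu.2
      have h3 : y < u := by
        by_contra h; exact h2 ⟨h1, not_lt.1 h⟩
      rw [max_eq_right (by linarith)]
      simp
  rw [e3]
  apply setIntegral_congr_fun measurableSet_Ioc
  intro u hu
  simp only
  rw [max_eq_left (by linarith [hu.2])]

end Pe_aux

open Pe_aux in
theorem iPe (hKn : StKn) (hMb : StMb) : StPe := by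
  intro c y t hc1 hc3 hy
  obtain ⟨C, hC, hM⟩ := hMb
  obtain ⟨hcont, hG⟩ := hM c hc1 hc3
  have hc0 : 0 < c := by linarith
  have hy0 : 0 < y := by linarith
  have hpi : ((2 * Real.pi : ℝ) : ℂ) ≠ 0 := by
    exact_mod_cast (by positivity : (0 : ℝ) < 2 * Real.pi).ne'
  -- the two integrable pieces
  have hcast : ∀ v : ℝ, (c : ℂ) + (t + v) * Complex.I = c + ((t + v : ℝ) : ℂ) * Complex.I := by
    intro v; push_cast; ring
  have hyc : Continuous fun v : ℝ => (y : ℂ) ^ (c + 1 + v * Complex.I) := by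
    have hy' : (y : ℂ) ≠ 0 := by exact_mod_cast hy0.ne'
    refine Continuous.const_cpow (by fun_prop) (Or.inl hy')
  have hKne : ∀ v : ℝ, K c v ≠ 0 := by
    intro v
    unfold K
    apply mul_ne_zero
    · intro h
      have := congrArg Complex.re h
      simp at this; linarith
    · intro h
      have := congrArg Complex.re h
      simp at this; linarith
  have hKc : Continuous fun v : ℝ => K c v := by unfold K; fun_prop
  have hbase : Continuous fun v : ℝ => (y : ℂ) ^ (c + 1 + v * Complex.I) / K c v :=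
    hyc.div hKc hKne
  have hbn : ∀ v : ℝ, ‖(y : ℂ) ^ (c + 1 + v * Complex.I) / K c v‖ = y ^ (c + 1) * ‖1 / K c v‖ := by
    intro v
    rw [norm_div, norm_cpow1 y c v hy0, norm_div, norm_one]; ring
  have hB : Integrable fun v : ℝ => (1 / (c + (t + v) * Complex.I - 1)) *
      ((y : ℂ) ^ (c + 1 + v * Complex.I) / K c v) := by
    have hden : ∀ v : ℝ, c - 1 ≤ ‖(c : ℂ) + (t + v) * Complex.I - 1‖ := by
      intro v
      have h1 := Complex.re_le_norm ((c : ℂ) + (t + v) * Complex.I - 1)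
      simpa using h1
    have hne : ∀ v : ℝ, (c : ℂ) + (t + v) * Complex.I - 1 ≠ 0 := by
      intro v h
      have := hden v
      rw [h, norm_zero] at this
      linarith
    refine (((k_int hKn hc0).const_mul (y ^ (c + 1))).const_mul (1 / (c - 1))).mono' ?_ ?_
    · apply Continuous.aestronglyMeasurable
      refine Continuous.mul (Continuous.div continuous_const (by fun_prop) hne) hbase
    · refine Eventually.of_forall fun v => ?_
      rw [norm_mul, hbn v, norm_div, norm_one]
      apply mul_le_mul_of_nonneg_right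
      · apply one_div_le_one_div_of_le (by linarith) (hden v)
      · positivity
  have hGi : Integrable fun v : ℝ => Gz (c + (t + v) * Complex.I) *
      ((y : ℂ) ^ (c + 1 + v * Complex.I) / K c v) := by
    refine (((k_int hKn hc0).const_mul (y ^ (c + 1))).const_mul (C / (c - 1))).mono' ?_ ?_
    · apply Continuous.aestronglyMeasurable
      refine Continuous.mul ?_ hbase
      have : (fun v : ℝ => Gz (c + (t + v) * Complex.I)) =
          (fun w : ℝ => Gz (c + w * Complex.I)) ∘ (fun v : ℝ => t + v) := by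
        funext v
        simp only [Function.comp]
        rw [hcast v]
      rw [this]
      exact hcont.comp (by fun_prop)
    · refine Eventually.of_forall fun v => ?_
      rw [norm_mul, hbn v]
      apply mul_le_mul_of_nonneg_right
      · rw [hcast v]; exact (hG (t + v)).1
      · positivity
  have hsplit : ∀ v : ℝ, Gz (c + (t + v) * Complex.I) *
      ((y : ℂ) ^ (c + 1 + v * Complex.I) / K c v) =
      LSeries Lam (c + (t + v) * Complex.I) * ((y : ℂ) ^ (c + 1 + v * Complex.I) / K c v) -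
      (1 / (c + (t + v) * Complex.I - 1)) * ((y : ℂ) ^ (c + 1 + v * Complex.I) / K c v) := by
    intro v
    rw [← sub_mul]
    congr 1
    rw [hcast v]
    exact (hG (t + v)).2
  have hA : Integrable fun v : ℝ => LSeries Lam (c + (t + v) * Complex.I) *
      ((y : ℂ) ^ (c + 1 + v * Complex.I) / K c v) := by
    refine (hGi.add hB).congr (Eventually.of_forall fun v => ?_)
    simp only [Pi.add_apply]
    rw [hsplit v]
    ring
  have hfin : ∫ v : ℝ, Gz (c + (t + v) * Complex.I) * (y : ℂ) ^ (c + 1 + v * Complex.I) /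
      ((c + v * Complex.I) * (c + 1 + v * Complex.I)) =
      (2 * Real.pi : ℝ) * Lr y t - (2 * Real.pi : ℝ) *
        ∫ u in (1 : ℝ)..y, ((y - u : ℝ) : ℂ) * (u : ℂ) ^ (-(t * Complex.I)) := by
    rw [← part1 hKn hc1 y t hy, ← part2 hKn hc1 y t hy, ← integral_sub hA hB]
    congr 1
    funext v
    rw [← hsplit v]
    unfold K
    rw [mul_div_assoc]
  rw [hfin, ← mul_sub]
  have h3 : ((1 / (2 * Real.pi) : ℝ) : ℂ) = 1 / ((2 * Real.pi : ℝ) : ℂ) := by push_cast; ring
  rw [h3, ← mul_assoc, one_div_mul_cancel hpi, one_mul]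

end Pool.Agent.Work.MP_a8fbd7_nt.ZF
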