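import Pool.Agent.Work.MP_a8fbd7_nt.ZF.Stmts

/-!
MP_a8fbd7_nt, block ZF, item Pnt: the prime number theorem with error `x (log x)^{-A}`.
-/

set_option autoImplicit false

open MeasureTheory Set Filter Topology

noncomputable section

namespace Pool.Agent.Work.MP_a8fbd7_nt.ZF

namespace Pnt_aux

theorem Ps_zero (y : ℝ) : Ps y 0 = ((Nat.primeCounting ⌊y⌋₊ : ℝ) : ℂ) := by
  have h1 : (Finset.Icc 1 ⌊y⌋₊).filter Nat.Prime = (Finset.range (⌊y⌋₊ + 1)).filter Nat.Prime := by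
    ext p
    simp only [Finset.mem_filter, Finset.mem_Icc, Finset.mem_range]
    constructor
    · rintro ⟨⟨_, h2⟩, h3⟩
      exact ⟨by omega, h3⟩
    · rintro ⟨h2, h3⟩
      exact ⟨⟨h3.one_lt.le, by omega⟩, h3⟩
  unfold Ps
  rw [h1]
  simp [Nat.primeCounting, Nat.primeCounting', Nat.count_eq_card_filter_range]

theorem int_zero (y : ℝ) :
    (∫ u in (2 : ℝ)..y, (u : ℂ) ^ (-(((0 : ℝ) : ℂ) * Complex.I)) / (Real.log u : ℂ)) =
      ((∫ u in (2 : ℝ)..y, 1 / Real.log u : ℝ) : ℂ) := by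
  rw [← intervalIntegral.integral_ofReal]
  congr 1
  ext u
  simp

end Pnt_aux

/-- ITEM Pnt. -/
theorem iPnt (hPrA : StPrA) : StPnt := by
  intro A hA
  obtain ⟨C, hC, h⟩ := hPrA A 1 hA one_pos
  refine ⟨C, hC, fun y hy => ?_⟩
  have h1 := h y 0 hy (by rw [abs_zero]; positivity)
  rw [Pnt_aux.Ps_zero, Pnt_aux.int_zero, ← Complex.ofReal_sub, Complex.norm_real,
    Real.norm_eq_abs] at h1
  exact h1

end Pool.Agent.Work.MP_a8fbd7_nt.ZF
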