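import Pool.Agent.Work.MP_a8fbd7_nt.ZF.Stmts

/-!
MP_a8fbd7_nt, block ZF, item PrA: primes with the twist `p^{-it}` from `∑ Λ(n) n^{-it}`.
-/

set_option autoImplicit false

open MeasureTheory Set Filter Topology

noncomputable section

namespace Pool.Agent.Work.MP_a8fbd7_nt.ZF

namespace PrA_aux

/-- `log p p^{-it}` for primes, `0` else -/
def cf (t : ℝ) (n : ℕ) : ℂ :=
  if n.Prime then ((Real.log n : ℝ) : ℂ) * (n : ℂ) ^ (-(t * Complex.I)) else 0

/-- `∑_{p ≤ u} log p p^{-it}` -/
def th (t u : ℝ) : ℂ := ∑ n ∈ Finset.Icc 0 ⌊u⌋₊, cf t n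

/-- `∫_1^u v^{-it} dv` -/
def Mn (t u : ℝ) : ℂ := ∫ v in (1 : ℝ)..u, (v : ℂ) ^ (-(t * Complex.I))

/-- weight `1 / log u` -/
def ft (u : ℝ) : ℂ := (((Real.log u)⁻¹ : ℝ) : ℂ)

/-- derivative of `ft` -/
def fd (u : ℝ) : ℂ := ((-(u⁻¹) / Real.log u ^ 2 : ℝ) : ℂ)

theorem re_exp (t : ℝ) : (-(t * Complex.I) : ℂ).re = 0 := by simp

theorem norm_nat (t : ℝ) (n : ℕ) (hn : 1 ≤ n) : ‖(n : ℂ) ^ (-(t * Complex.I))‖ = 1 := by
  rw [Complex.norm_natCast_cpow_of_pos (by omega), re_exp, Real.rpow_zero]

theorem norm_real (t u : ℝ) (hu : 0 < u) : ‖(u : ℂ) ^ (-(t * Complex.I))‖ = 1 := by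
  rw [Complex.norm_cpow_eq_rpow_re_of_pos hu, re_exp, Real.rpow_zero]

theorem norm_th (t u : ℝ) (hu : 0 ≤ u) : ‖th t u‖ ≤ Real.log 4 * u := by
  have h1 : ‖th t u‖ ≤ Chebyshev.theta u := by
    rw [Chebyshev.theta_eq_sum_Icc, Finset.sum_filter]
    unfold th
    refine (norm_sum_le _ _).trans (Finset.sum_le_sum (fun n _ => ?_))
    unfold cf
    split_ifs with h
    · rw [norm_mul, norm_nat t n h.one_lt.le, mul_one, Complex.norm_real, Real.norm_eq_abs,
        abs_of_nonneg (Real.log_natCast_nonneg n)]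
    · simp
  exact h1.trans (Chebyshev.theta_le_log4_mul_x hu)

theorem norm_Ls_sub_th (t u : ℝ) : ‖Ls u t - th t u‖ ≤ Chebyshev.psi u - Chebyshev.theta u := by
  rw [Chebyshev.psi_sub_theta_eq_sum_not_prime, Finset.sum_filter]
  have h0 : th t u = ∑ n ∈ Finset.Icc 1 ⌊u⌋₊, cf t n := by
    unfold th
    symm
    apply Finset.sum_subset
    · intro n hn
      rw [Finset.mem_Icc] at hn ⊢
      omega
    · intro n hn hn'
      rw [Finset.mem_Icc] at hn hn'
      have : n = 0 := by omega
      rw [this]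
      simp [cf, Nat.not_prime_zero]
  have hI : Finset.Ioc 0 ⌊u⌋₊ = Finset.Icc 1 ⌊u⌋₊ := by
    ext n
    rw [Finset.mem_Ioc, Finset.mem_Icc]
    omega
  rw [h0, hI]
  unfold Ls
  rw [← Finset.sum_sub_distrib]
  refine (norm_sum_le _ _).trans (Finset.sum_le_sum (fun n hn => ?_))
  have hn1 : 1 ≤ n := (Finset.mem_Icc.1 hn).1
  unfold cf
  by_cases h : n.Prime
  · rw [if_pos h, if_neg (not_not.2 h), ArithmeticFunction.vonMangoldt_apply_prime h]
    simp
  · rw [if_neg h, if_pos h, sub_zero, norm_mul, norm_nat t n hn1, mul_one, Complex.norm_real,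
      Real.norm_eq_abs, abs_of_nonneg ArithmeticFunction.vonMangoldt_nonneg]

theorem Mn_eq (t u : ℝ) : Mn t u = (u : ℂ) ^ (-(t * Complex.I) + 1) / (-(t * Complex.I) + 1)
    - 1 / (-(t * Complex.I) + 1) := by
  unfold Mn
  rw [integral_cpow (Or.inl (by rw [re_exp]; norm_num))]
  rw [Complex.ofReal_one, Complex.one_cpow, sub_div]

theorem Mn_deriv (t u : ℝ) (hu : 0 < u) : HasDerivAt (Mn t) ((u : ℂ) ^ (-(t * Complex.I))) u := by
  have hr : (-(t * Complex.I) : ℂ) ≠ -1 := by
    intro h
    have := congrArg Complex.re h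
    rw [re_exp] at this
    simp at this
  have h := (hasDerivAt_ofReal_cpow_const' hu.ne' hr).sub_const (1 / (-(t * Complex.I) + 1))
  refine h.congr_of_eventuallyEq ?_
  exact Filter.Eventually.of_forall (fun v => Mn_eq t v)

theorem norm_Mn (t u : ℝ) (hu : 1 ≤ u) : ‖Mn t u‖ ≤ u := by
  unfold Mn
  have h := intervalIntegral.norm_integral_le_of_norm_le_const (a := (1 : ℝ)) (b := u) (C := 1)
    (f := fun v : ℝ => (v : ℂ) ^ (-(t * Complex.I))) (by
      intro v hv
      rw [uIoc_of_le hu] at hv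
      exact (norm_real t v (lt_trans one_pos hv.1)).le)
  rw [one_mul, abs_of_nonneg (by linarith)] at h
  linarith

theorem ft_deriv (u : ℝ) (hu : 2 ≤ u) : HasDerivAt ft (fd u) u := by
  have hl : Real.log u ≠ 0 := (Real.log_pos (by linarith)).ne'
  have h := ((Real.hasDerivAt_log (by linarith : u ≠ 0)).inv hl).ofReal_comp
  exact h

theorem fd_cont (y : ℝ) : ContinuousOn fd (Icc 2 y) := by
  intro u hu
  apply ContinuousAt.continuousWithinAt
  have h0 : u ≠ 0 := by linarith [hu.1]
  have hl : Real.log u ≠ 0 := (Real.log_pos (by linarith [hu.1])).ne'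
  have : ContinuousAt (fun u : ℝ => (-(u⁻¹) / Real.log u ^ 2 : ℝ)) u := by
    apply ContinuousAt.div
    · exact (continuousAt_inv₀ h0).neg
    · exact (Real.continuousAt_log h0).pow 2
    · exact pow_ne_zero 2 hl
  exact Complex.continuous_ofReal.continuousAt.comp this

theorem Ps_eq (t y : ℝ) (hy : 2 ≤ y) :
    Ps y t = ft y * th t y - ∫ u in (2 : ℝ)..y, fd u * th t u := by
  have h1 : Ps y t = ∑ n ∈ Finset.Icc 0 ⌊y⌋₊, ft n * cf t n := by
    unfold Ps
    rw [Finset.sum_filter]
    have hs : ∀ n ∈ Finset.Icc 1 ⌊y⌋₊, (if n.Prime then (n : ℂ) ^ (-(t * Complex.I)) else 0) =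
        ft n * cf t n := by
      intro n _
      unfold cf ft
      split_ifs with h
      · have hl : ((Real.log (n : ℝ) : ℝ) : ℂ) ≠ 0 := by
          rw [Ne, Complex.ofReal_eq_zero]
          exact (Real.log_pos (by exact_mod_cast h.one_lt)).ne'
        rw [Complex.ofReal_inv]
        field_simp
      · simp
    rw [Finset.sum_congr rfl hs]
    apply Finset.sum_subset
    · intro n hn
      rw [Finset.mem_Icc] at hn ⊢
      omega
    · intro n hn hn'
      rw [Finset.mem_Icc] at hn hn'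
      have : n = 0 := by omega
      rw [this]
      simp [cf, Nat.not_prime_zero]
  rw [h1]
  have hd : ∀ u ∈ Icc (2 : ℝ) y, deriv ft u = fd u := fun u hu => (ft_deriv u hu.1).deriv
  rw [sum_mul_eq_sub_integral_mul₁ (cf t) (f := ft) (by simp [cf, Nat.not_prime_zero])
    (by simp [cf, Nat.not_prime_one]) y (fun u hu => (ft_deriv u hu.1).differentiableAt) (by
      refine ContinuousOn.integrableOn_Icc ?_
      exact (fd_cont y).congr hd)]
  rw [intervalIntegral.integral_of_le hy]
  congr 1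
  apply setIntegral_congr_fun measurableSet_Ioc
  intro u hu
  have := hd u ⟨hu.1.le, hu.2⟩
  simp only [this]
  rfl

theorem th_int (t y : ℝ) (hy : 2 ≤ y) :
    IntervalIntegrable (fun u => fd u * th t u) volume 2 y := by
  rw [intervalIntegrable_iff_integrableOn_Icc_of_le hy]
  exact integrableOn_mul_sum_Icc (cf t) (by norm_num) ((fd_cont y).integrableOn_Icc)

theorem Mn_cont (t y : ℝ) : ContinuousOn (Mn t) (Icc 2 y) := by
  intro u hu
  exact (Mn_deriv t u (by linarith [hu.1])).continuousAt.continuousWithinAt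

theorem Mn_int (t y : ℝ) (hy : 2 ≤ y) :
    IntervalIntegrable (fun u => fd u * Mn t u) volume 2 y := by
  apply ContinuousOn.intervalIntegrable
  rw [uIcc_of_le hy]
  exact (fd_cont y).mul (Mn_cont t y)

theorem main_eq (t y : ℝ) (hy : 2 ≤ y) :
    ∫ u in (2 : ℝ)..y, (u : ℂ) ^ (-(t * Complex.I)) / (Real.log u : ℂ) =
      ft y * Mn t y - ft 2 * Mn t 2 - ∫ u in (2 : ℝ)..y, fd u * Mn t u := by
  have h := intervalIntegral.integral_mul_deriv_eq_deriv_mul (a := (2 : ℝ)) (b := y)
    (u := ft) (v := Mn t) (u' := fd) (v' := fun u : ℝ => (u : ℂ) ^ (-(t * Complex.I)))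
    (fun u hu => by
      rw [uIcc_of_le hy] at hu
      exact ft_deriv u hu.1)
    (fun u hu => by
      rw [uIcc_of_le hy] at hu
      exact Mn_deriv t u (by linarith [hu.1]))
    (by
      apply ContinuousOn.intervalIntegrable
      rw [uIcc_of_le hy]
      exact fd_cont y)
    (by
      apply ContinuousOn.intervalIntegrable
      rw [uIcc_of_le hy]
      intro u hu
      apply ContinuousAt.continuousWithinAt
      exact Complex.continuousAt_ofReal_cpow_const u _ (Or.inr (by linarith [hu.1])))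
  rw [← h]
  apply intervalIntegral.integral_congr
  intro u _
  simp only [ft, Complex.ofReal_inv]
  rw [div_eq_mul_inv, mul_comm]

theorem diff_eq (t y : ℝ) (hy : 2 ≤ y) :
    Ps y t - ∫ u in (2 : ℝ)..y, (u : ℂ) ^ (-(t * Complex.I)) / (Real.log u : ℂ) =
      ft y * (th t y - Mn t y) + ft 2 * Mn t 2
        - ∫ u in (2 : ℝ)..y, fd u * (th t u - Mn t u) := by
  rw [Ps_eq t y hy, main_eq t y hy]
  have h : ∫ u in (2 : ℝ)..y, fd u * (th t u - Mn t u) =
      (∫ u in (2 : ℝ)..y, fd u * th t u) - ∫ u in (2 : ℝ)..y, fd u * Mn t u := by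
    rw [← intervalIntegral.integral_sub (th_int t y hy) (Mn_int t y hy)]
    apply intervalIntegral.integral_congr
    intro u _
    simp only
    ring
  rw [h]
  ring

theorem log_pow_le (a : ℝ) (ha : 0 < a) : ∃ K : ℝ, 1 ≤ K ∧ ∀ y : ℝ, 1 ≤ y →
    Real.log y ^ a ≤ K * y ^ (1 / 4 : ℝ) := by
  refine ⟨max 1 ((4 * a) ^ a), le_max_left _ _, fun y hy => ?_⟩
  have hl : Real.log y ≤ y ^ (1 / (4 * a)) / (1 / (4 * a)) :=
    Real.log_le_rpow_div (by linarith) (by positivity)
  have h1 : Real.log y ^ a ≤ (y ^ (1 / (4 * a)) / (1 / (4 * a))) ^ a :=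
    Real.rpow_le_rpow (Real.log_nonneg hy) hl ha.le
  have h2 : (y ^ (1 / (4 * a)) / (1 / (4 * a))) ^ a = (4 * a) ^ a * y ^ (1 / 4 : ℝ) := by
    have hy0 : 0 ≤ y := by linarith
    have h3 : y ^ (1 / (4 * a)) / (1 / (4 * a)) = (4 * a) * y ^ (1 / (4 * a)) := by
      field_simp
    rw [h3, Real.mul_rpow (by positivity) (Real.rpow_nonneg hy0 _), ← Real.rpow_mul hy0]
    congr 2
    field_simp
  rw [h2] at h1
  refine h1.trans ?_
  exact mul_le_mul_of_nonneg_right (le_max_right _ _) (Real.rpow_nonneg (by linarith) _)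

end PrA_aux

open PrA_aux in
theorem iPrA (hUn : StUn) : StPrA := by
  intro A B hA hB
  obtain ⟨CU, hCU1, hCU⟩ := hUn A (2 * B) hA (by linarith)
  obtain ⟨Cs, hCs⟩ := Chebyshev.psi_sub_theta_le_mul_sqrt
  obtain ⟨K, hK1, hK⟩ := log_pow_le A hA
  obtain ⟨K', hK'1, hK'⟩ := log_pow_le (A + 1) (by linarith)
  have hCs0 : 0 ≤ max Cs 0 := le_max_right _ _
  set D : ℝ := max Cs 0 * K + CU * 2 ^ A with hD
  have hD0 : 0 ≤ D := by positivity
  have hl2 : 0 < Real.log 2 := Real.log_pos (by norm_num)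
  have hl4 : 0 < Real.log 4 := Real.log_pos (by norm_num)
  -- the error for `√y ≤ u ≤ y`
  have hE1 : ∀ y t u : ℝ, 2 ≤ y → |t| ≤ y ^ B → 2 ≤ u → Real.sqrt y ≤ u → u ≤ y →
      ‖th t u - Mn t u‖ ≤ D * u / Real.log y ^ A := by
    intro y t u hy ht hu hu1 hu2
    have hy0 : 0 < y := by linarith
    have hly : 0 < Real.log y := Real.log_pos (by linarith)
    have hlu : 0 < Real.log u := Real.log_pos (by linarith)
    have ht2 : |t| ≤ u ^ (2 * B) := by
      refine ht.trans ?_
      have : y ^ B = (Real.sqrt y) ^ (2 * B) := by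
        rw [Real.sqrt_eq_rpow, ← Real.rpow_mul hy0.le]
        congr 1
        ring
      rw [this]
      exact Real.rpow_le_rpow (Real.sqrt_nonneg _) hu1 (by linarith)
    have h1 := hCU u t hu ht2
    have h2 : ‖Ls u t - th t u‖ ≤ max Cs 0 * Real.sqrt u :=
      (norm_Ls_sub_th t u).trans ((hCs u).trans
        (mul_le_mul_of_nonneg_right (le_max_left _ _) (Real.sqrt_nonneg _)))
    have hlA : 0 < Real.log y ^ A := Real.rpow_pos_of_pos hly A
    have hluA : 0 < Real.log u ^ A := Real.rpow_pos_of_pos hlu A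
    -- log u ≥ log y / 2
    have h3 : Real.log y / 2 ≤ Real.log u := by
      rw [← Real.log_sqrt hy0.le]
      exact Real.log_le_log (Real.sqrt_pos.2 hy0) hu1
    have h4 : Real.log y ^ A ≤ 2 ^ A * Real.log u ^ A := by
      rw [← Real.mul_rpow (by norm_num) hlu.le]
      exact Real.rpow_le_rpow hly.le (by linarith) hA.le
    have h5 : CU * u / Real.log u ^ A ≤ CU * 2 ^ A * u / Real.log y ^ A := by
      rw [div_le_div_iff₀ hluA hlA]
      have : CU * u * Real.log y ^ A ≤ CU * u * (2 ^ A * Real.log u ^ A) :=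
        mul_le_mul_of_nonneg_left h4 (by positivity)
      calc CU * u * Real.log y ^ A ≤ CU * u * (2 ^ A * Real.log u ^ A) := this
        _ = CU * 2 ^ A * u * Real.log u ^ A := by ring
    have h6 : Real.sqrt u ≤ K * u / Real.log y ^ A := by
      rw [le_div_iff₀ hlA]
      have h7 : Real.log y ^ A ≤ K * y ^ (1 / 4 : ℝ) := hK y (by linarith)
      have h8 : y ^ (1 / 4 : ℝ) ≤ Real.sqrt u := by
        have : y ^ (1 / 4 : ℝ) = Real.sqrt (Real.sqrt y) := by
          rw [Real.sqrt_eq_rpow, Real.sqrt_eq_rpow, ← Real.rpow_mul hy0.le]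
          norm_num
        rw [this]
        exact Real.sqrt_le_sqrt hu1
      calc Real.sqrt u * Real.log y ^ A ≤ Real.sqrt u * (K * Real.sqrt u) := by
            apply mul_le_mul_of_nonneg_left _ (Real.sqrt_nonneg _)
            exact h7.trans (mul_le_mul_of_nonneg_left h8 (by linarith))
        _ = K * (Real.sqrt u * Real.sqrt u) := by ring
        _ = K * u := by rw [Real.mul_self_sqrt (by linarith)]
    have h9 : th t u - Mn t u = (Ls u t - Mn t u) - (Ls u t - th t u) := by ring
    rw [h9]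
    refine (norm_sub_le _ _).trans ?_
    have h10 : ‖Ls u t - Mn t u‖ ≤ CU * u / Real.log u ^ A := h1
    calc ‖Ls u t - Mn t u‖ + ‖Ls u t - th t u‖
        ≤ CU * 2 ^ A * u / Real.log y ^ A + max Cs 0 * (K * u / Real.log y ^ A) :=
          add_le_add (h10.trans h5) (h2.trans (mul_le_mul_of_nonneg_left h6 hCs0))
      _ = D * u / Real.log y ^ A := by
          rw [hD]
          ring
  -- the error for all `u`
  have hE2 : ∀ y t u : ℝ, 2 ≤ y → |t| ≤ y ^ B → 2 ≤ u → u ≤ y →
      ‖th t u - Mn t u‖ ≤ D * u / Real.log y ^ A + (Real.log 4 + 1) * Real.sqrt y := by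
    intro y t u hy ht hu hu2
    have hly : 0 < Real.log y := Real.log_pos (by linarith)
    have hlA : 0 < Real.log y ^ A := Real.rpow_pos_of_pos hly A
    rcases le_total (Real.sqrt y) u with h | h
    · have h1 := hE1 y t u hy ht hu h hu2
      have h2 : 0 ≤ (Real.log 4 + 1) * Real.sqrt y := by positivity
      linarith
    · have h1 : ‖th t u - Mn t u‖ ≤ (Real.log 4 + 1) * u := by
        refine (norm_sub_le _ _).trans ?_
        have := norm_th t u (by linarith)
        have := norm_Mn t u (by linarith)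
        linarith
      have h2 : (Real.log 4 + 1) * u ≤ (Real.log 4 + 1) * Real.sqrt y :=
        mul_le_mul_of_nonneg_left h (by linarith)
      have h3 : 0 ≤ D * u / Real.log y ^ A := by positivity
      linarith
  set F : ℝ := D / Real.log 2 + 2 * K / Real.log 2
    + (D + (Real.log 4 + 1) * K') / Real.log 2 ^ 2 with hF
  refine ⟨max 1 F, le_max_left _ _, fun y t hy ht => ?_⟩
  have hy0 : 0 < y := by linarith
  have hly : 0 < Real.log y := Real.log_pos (by linarith)
  have hlA : 0 < Real.log y ^ A := Real.rpow_pos_of_pos hly A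
  have hly2 : Real.log 2 ≤ Real.log y := Real.log_le_log (by norm_num) hy
  rw [diff_eq t y hy]
  have hR0 : 0 ≤ y / Real.log y ^ A := by positivity
  have hsq : Real.sqrt y ≤ y := by
    rw [Real.sqrt_le_left hy0.le]
    nlinarith
  have hq1 : y ^ (1 / 4 : ℝ) ≤ y := by
    calc y ^ (1 / 4 : ℝ) ≤ y ^ (1 : ℝ) := Real.rpow_le_rpow_of_exponent_le (by linarith) (by norm_num)
      _ = y := Real.rpow_one y
  have hq2 : y ^ (1 / 4 : ℝ) ≤ Real.sqrt y := by
    rw [Real.sqrt_eq_rpow]
    exact Real.rpow_le_rpow_of_exponent_le (by linarith) (by norm_num)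
  -- first term
  have hT1 : ‖ft y * (th t y - Mn t y)‖ ≤ D / Real.log 2 * (y / Real.log y ^ A) := by
    rw [norm_mul]
    have h1 : ‖ft y‖ ≤ (Real.log 2)⁻¹ := by
      unfold ft
      rw [Complex.norm_real, Real.norm_eq_abs, abs_of_nonneg (inv_nonneg.2 hly.le)]
      exact inv_anti₀ hl2 hly2
    have h2 := hE1 y t y hy ht hy hsq le_rfl
    calc ‖ft y‖ * ‖th t y - Mn t y‖ ≤ (Real.log 2)⁻¹ * (D * y / Real.log y ^ A) :=
          mul_le_mul h1 h2 (norm_nonneg _) (inv_nonneg.2 hl2.le)
      _ = D / Real.log 2 * (y / Real.log y ^ A) := by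
          field_simp
  -- second term
  have hT2 : ‖ft 2 * Mn t 2‖ ≤ 2 * K / Real.log 2 * (y / Real.log y ^ A) := by
    rw [norm_mul]
    have h1 : ‖ft 2‖ = (Real.log 2)⁻¹ := by
      unfold ft
      rw [Complex.norm_real, Real.norm_eq_abs, abs_of_nonneg (inv_nonneg.2 hl2.le)]
    have h2 := norm_Mn t 2 (by norm_num)
    have h3 : 1 ≤ K * (y / Real.log y ^ A) := by
      rw [← mul_div_assoc, le_div_iff₀ hlA, one_mul]
      exact (hK y (by linarith)).trans (mul_le_mul_of_nonneg_left hq1 (by linarith))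
    rw [h1]
    calc (Real.log 2)⁻¹ * ‖Mn t 2‖ ≤ (Real.log 2)⁻¹ * 2 :=
          mul_le_mul_of_nonneg_left h2 (inv_nonneg.2 hl2.le)
      _ = (Real.log 2)⁻¹ * 2 * 1 := by ring
      _ ≤ (Real.log 2)⁻¹ * 2 * (K * (y / Real.log y ^ A)) :=
          mul_le_mul_of_nonneg_left h3 (by positivity)
      _ = 2 * K / Real.log 2 * (y / Real.log y ^ A) := by
          field_simp
  -- third term
  have hT3 : ‖∫ u in (2 : ℝ)..y, fd u * (th t u - Mn t u)‖ ≤
      (D + (Real.log 4 + 1) * K') / Real.log 2 ^ 2 * (y / Real.log y ^ A) := by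
    have hb : ∀ u ∈ Ioc (2 : ℝ) y, ‖fd u * (th t u - Mn t u)‖ ≤
        (D / Real.log y ^ A + (Real.log 4 + 1) * Real.sqrt y * u⁻¹) / Real.log 2 ^ 2 := by
      intro u hu
      have hu2 : 2 ≤ u := hu.1.le
      have hu0 : 0 < u := by linarith
      have hlu : Real.log 2 ≤ Real.log u := Real.log_le_log (by norm_num) hu2
      have h1 : ‖fd u‖ ≤ u⁻¹ / Real.log 2 ^ 2 := by
        unfold fd
        rw [Complex.norm_real, Real.norm_eq_abs, neg_div, abs_neg, abs_of_nonneg (by positivity)]
        apply div_le_div_of_nonneg_left (inv_nonneg.2 hu0.le) (by positivity)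
        exact pow_le_pow_left₀ hl2.le hlu 2
      have h2 := hE2 y t u hy ht hu2 hu.2
      rw [norm_mul]
      calc ‖fd u‖ * ‖th t u - Mn t u‖
          ≤ (u⁻¹ / Real.log 2 ^ 2) *
            (D * u / Real.log y ^ A + (Real.log 4 + 1) * Real.sqrt y) :=
            mul_le_mul h1 h2 (norm_nonneg _) (by positivity)
        _ = (D / Real.log y ^ A + (Real.log 4 + 1) * Real.sqrt y * u⁻¹) / Real.log 2 ^ 2 := by
            field_simp
    have hgi : IntervalIntegrable (fun u : ℝ =>
        (D / Real.log y ^ A + (Real.log 4 + 1) * Real.sqrt y * u⁻¹) / Real.log 2 ^ 2)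
        volume 2 y := by
      apply ContinuousOn.intervalIntegrable
      rw [uIcc_of_le hy]
      intro u hu
      apply ContinuousAt.continuousWithinAt
      have h0 : u ≠ 0 := by linarith [hu.1]
      exact (continuousAt_const.add (continuousAt_const.mul (continuousAt_inv₀ h0))).div_const _
    have h1 : ‖∫ u in (2 : ℝ)..y, fd u * (th t u - Mn t u)‖ ≤
        ∫ u in (2 : ℝ)..y,
          (D / Real.log y ^ A + (Real.log 4 + 1) * Real.sqrt y * u⁻¹) / Real.log 2 ^ 2 := by
      apply intervalIntegral.norm_integral_le_of_norm_le hy _ hgi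
      exact Filter.Eventually.of_forall (fun u hu => hb u hu)
    refine h1.trans ?_
    have hinv : IntervalIntegrable (fun u : ℝ => (Real.log 4 + 1) * Real.sqrt y * u⁻¹)
        volume 2 y := by
      apply ContinuousOn.intervalIntegrable
      rw [uIcc_of_le hy]
      intro u hu
      apply ContinuousAt.continuousWithinAt
      have h0 : u ≠ 0 := by linarith [hu.1]
      exact continuousAt_const.mul (continuousAt_inv₀ h0)
    rw [intervalIntegral.integral_div, intervalIntegral.integral_add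
      (intervalIntegrable_const) hinv, intervalIntegral.integral_const,
      intervalIntegral.integral_const_mul, integral_inv_of_pos (by norm_num) hy0]
    have hlog : Real.log (y / 2) ≤ Real.log y :=
      Real.log_le_log (by positivity) (by linarith)
    have h3 : Real.sqrt y * Real.log y ≤ K' * (y / Real.log y ^ A) := by
      rw [← mul_div_assoc, le_div_iff₀ hlA]
      have h4 : Real.log y ^ (A + 1) ≤ K' * y ^ (1 / 4 : ℝ) := hK' y (by linarith)
      rw [Real.rpow_add hly, Real.rpow_one] at h4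
      calc Real.sqrt y * Real.log y * Real.log y ^ A
          = Real.sqrt y * (Real.log y ^ A * Real.log y) := by ring
        _ ≤ Real.sqrt y * (K' * Real.sqrt y) := by
            apply mul_le_mul_of_nonneg_left _ (Real.sqrt_nonneg _)
            exact h4.trans (mul_le_mul_of_nonneg_left hq2 (by linarith))
        _ = K' * (Real.sqrt y * Real.sqrt y) := by ring
        _ = K' * y := by rw [Real.mul_self_sqrt hy0.le]
    have h5 : (y - 2) • (D / Real.log y ^ A) +
        (Real.log 4 + 1) * Real.sqrt y * Real.log (y / 2) ≤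
        (D + (Real.log 4 + 1) * K') * (y / Real.log y ^ A) := by
      rw [smul_eq_mul]
      have h6 : (y - 2) * (D / Real.log y ^ A) ≤ D * (y / Real.log y ^ A) := by
        have : 0 ≤ D / Real.log y ^ A := by positivity
        calc (y - 2) * (D / Real.log y ^ A) ≤ y * (D / Real.log y ^ A) :=
              mul_le_mul_of_nonneg_right (by linarith) this
          _ = D * (y / Real.log y ^ A) := by ring
      have h7 : (Real.log 4 + 1) * Real.sqrt y * Real.log (y / 2) ≤
          (Real.log 4 + 1) * (K' * (y / Real.log y ^ A)) := by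
        calc (Real.log 4 + 1) * Real.sqrt y * Real.log (y / 2)
            ≤ (Real.log 4 + 1) * Real.sqrt y * Real.log y :=
              mul_le_mul_of_nonneg_left hlog (by positivity)
          _ = (Real.log 4 + 1) * (Real.sqrt y * Real.log y) := by ring
          _ ≤ (Real.log 4 + 1) * (K' * (y / Real.log y ^ A)) :=
              mul_le_mul_of_nonneg_left h3 (by positivity)
      calc (y - 2) * (D / Real.log y ^ A) + (Real.log 4 + 1) * Real.sqrt y * Real.log (y / 2)
          ≤ D * (y / Real.log y ^ A) + (Real.log 4 + 1) * (K' * (y / Real.log y ^ A)) :=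
            add_le_add h6 h7
        _ = (D + (Real.log 4 + 1) * K') * (y / Real.log y ^ A) := by ring
    calc ((y - 2) • (D / Real.log y ^ A) +
        (Real.log 4 + 1) * Real.sqrt y * Real.log (y / 2)) / Real.log 2 ^ 2
        ≤ ((D + (Real.log 4 + 1) * K') * (y / Real.log y ^ A)) / Real.log 2 ^ 2 :=
          div_le_div_of_nonneg_right h5 (by positivity)
      _ = (D + (Real.log 4 + 1) * K') / Real.log 2 ^ 2 * (y / Real.log y ^ A) := by ring
  calc ‖ft y * (th t y - Mn t y) + ft 2 * Mn t 2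
        - ∫ u in (2 : ℝ)..y, fd u * (th t u - Mn t u)‖
      ≤ ‖ft y * (th t y - Mn t y)‖ + ‖ft 2 * Mn t 2‖
        + ‖∫ u in (2 : ℝ)..y, fd u * (th t u - Mn t u)‖ :=
        (norm_sub_le _ _).trans (add_le_add (norm_add_le _ _) le_rfl)
    _ ≤ D / Real.log 2 * (y / Real.log y ^ A) + 2 * K / Real.log 2 * (y / Real.log y ^ A)
        + (D + (Real.log 4 + 1) * K') / Real.log 2 ^ 2 * (y / Real.log y ^ A) :=
        add_le_add (add_le_add hT1 hT2) hT3
    _ = F * (y / Real.log y ^ A) := by
        rw [hF]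
        ring
    _ ≤ max 1 F * (y / Real.log y ^ A) := mul_le_mul_of_nonneg_right (le_max_right _ _) hR0
    _ = max 1 F * y / Real.log y ^ A := by ring

end Pool.Agent.Work.MP_a8fbd7_nt.ZF
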