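/-
Block OX (problem MP_a8fbd7_nt), part ZF, item PrI: primes in intervals, large `t`.
Author: helper22.
-/
import Pool.Agent.Work.MP_a8fbd7_nt.ZF.Stmts

set_option autoImplicit false

open MeasureTheory Set Filter Topology

noncomputable section

namespace Pool.Agent.Work.MP_a8fbd7_nt.ZF

namespace PrI_aux

/-- the exponent -/
def ex (t : ℝ) : ℂ := -((t : ℂ) * Complex.I)

theorem ex_re (t : ℝ) : (ex t).re = 0 := by simp [ex]

theorem ex_add_ne (t : ℝ) : ex t + 1 ≠ 0 := by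
  intro h
  have := congrArg Complex.re h
  rw [Complex.add_re, ex_re] at this
  simp at this

theorem ex_ne (t : ℝ) : ex t ≠ -1 := by
  intro h
  apply ex_add_ne t
  rw [h]; ring

theorem le_norm (t : ℝ) : |t| ≤ ‖ex t + 1‖ := by
  have h := Complex.abs_im_le_norm (ex t + 1)
  simpa [ex] using h

/-- the primitive -/
def V (t x : ℝ) : ℂ := (x : ℂ) ^ (ex t + 1) / (ex t + 1)

theorem V_norm (t x : ℝ) (ht : 0 < |t|) (hx : 0 < x) : ‖V t x‖ ≤ x / |t| := by
  unfold V
  rw [norm_div, Complex.norm_cpow_eq_rpow_re_of_pos hx]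
  have : (ex t + 1).re = 1 := by rw [Complex.add_re, ex_re]; simp
  rw [this, Real.rpow_one]
  exact div_le_div_of_nonneg_left hx.le ht (le_norm t)

theorem V_deriv (t x : ℝ) (hx : 0 < x) : HasDerivAt (V t) ((x : ℂ) ^ (ex t)) x :=
  hasDerivAt_ofReal_cpow_const' hx.ne' (ex_ne t)

theorem log_deriv (x : ℝ) (hx : 0 < x) :
    HasDerivAt (fun u : ℝ => ((Real.log u : ℝ) : ℂ)) ((x⁻¹ : ℝ) : ℂ) x :=
  (Real.hasDerivAt_log hx.ne').ofReal_comp

theorem log_half (x : ℝ) (hx : 2 ≤ x) : (1 : ℝ) / 2 ≤ Real.log x := by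
  have h := Real.log_two_gt_d9
  have h2 := Real.log_le_log (by norm_num) hx
  linarith

theorem log_ne (x : ℝ) (hx : 2 ≤ x) : ((Real.log x : ℝ) : ℂ) ≠ 0 := by
  have := log_half x hx
  exact_mod_cast (by linarith : (0 : ℝ) < Real.log x).ne'

theorem Phi_deriv (t x : ℝ) (hx : 2 ≤ x) :
    HasDerivAt (fun u : ℝ => V t u / ((Real.log u : ℝ) : ℂ))
      ((x : ℂ) ^ (ex t) / ((Real.log x : ℝ) : ℂ)
        - V t x * ((x⁻¹ : ℝ) : ℂ) / ((Real.log x : ℝ) : ℂ) ^ 2) x := by
  have hx0 : 0 < x := by linarith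
  have h := (V_deriv t x hx0).div (log_deriv x hx0) (log_ne x hx)
  refine h.congr_deriv ?_
  have h0 := log_ne x hx
  field_simp

theorem cont1 (t b y : ℝ) (hb : 2 ≤ b) (hby : b ≤ y) :
    ContinuousOn (fun u : ℝ => (u : ℂ) ^ (ex t) / ((Real.log u : ℝ) : ℂ)) (Set.uIcc b y) := by
  rw [Set.uIcc_of_le hby]
  intro x hx
  have hx2 : 2 ≤ x := hb.trans hx.1
  have hx0 : 0 < x := by linarith
  refine ContinuousAt.continuousWithinAt ?_
  exact (Complex.continuousAt_ofReal_cpow_const x (ex t) (Or.inr hx0.ne')).div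
    (log_deriv x hx0).continuousAt (log_ne x hx2)

theorem cont2 (t b y : ℝ) (hb : 2 ≤ b) (hby : b ≤ y) :
    ContinuousOn (fun u : ℝ => V t u * ((u⁻¹ : ℝ) : ℂ) / ((Real.log u : ℝ) : ℂ) ^ 2)
      (Set.uIcc b y) := by
  rw [Set.uIcc_of_le hby]
  intro x hx
  have hx2 : 2 ≤ x := hb.trans hx.1
  have hx0 : 0 < x := by linarith
  refine ContinuousAt.continuousWithinAt ?_
  refine ((V_deriv t x hx0).continuousAt.mul ?_).div ((log_deriv x hx0).continuousAt.pow 2)
    (pow_ne_zero 2 (log_ne x hx2))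
  exact Complex.continuous_ofReal.continuousAt.comp (continuousAt_inv₀ hx0.ne')

/-- the main term -/
theorem main_term (b y t : ℝ) (hb : 2 ≤ b) (hby : b ≤ y) (ht : 0 < |t|) :
    ‖∫ u in b..y, (u : ℂ) ^ (ex t) / ((Real.log u : ℝ) : ℂ)‖ ≤ 8 * y / |t| := by
  have i1 := (cont1 t b y hb hby).intervalIntegrable (μ := volume)
  have i2 := (cont2 t b y hb hby).intervalIntegrable (μ := volume)
  have hF : ∫ u in b..y, ((u : ℂ) ^ (ex t) / ((Real.log u : ℝ) : ℂ)
        - V t u * ((u⁻¹ : ℝ) : ℂ) / ((Real.log u : ℝ) : ℂ) ^ 2)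
      = V t y / ((Real.log y : ℝ) : ℂ) - V t b / ((Real.log b : ℝ) : ℂ) := by
    refine intervalIntegral.integral_eq_sub_of_hasDerivAt
      (f := fun u : ℝ => V t u / ((Real.log u : ℝ) : ℂ)) (fun x hx => ?_) (i1.sub i2)
    rw [Set.uIcc_of_le hby] at hx
    exact Phi_deriv t x (hb.trans hx.1)
  rw [intervalIntegral.integral_sub i1 i2] at hF
  have hE : ∫ u in b..y, (u : ℂ) ^ (ex t) / ((Real.log u : ℝ) : ℂ)
      = V t y / ((Real.log y : ℝ) : ℂ) - V t b / ((Real.log b : ℝ) : ℂ)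
        + ∫ u in b..y, V t u * ((u⁻¹ : ℝ) : ℂ) / ((Real.log u : ℝ) : ℂ) ^ 2 := by
    rw [← hF]; ring
  rw [hE]
  have hy2 : 2 ≤ y := hb.trans hby
  have bd : ∀ x : ℝ, 2 ≤ x → x ≤ y → ‖V t x / ((Real.log x : ℝ) : ℂ)‖ ≤ 2 * y / |t| := by
    intro x hx hxy
    have hl := log_half x hx
    rw [norm_div, Complex.norm_real, Real.norm_eq_abs, abs_of_pos (by linarith)]
    have hV := V_norm t x ht (by linarith)
    rw [div_le_iff₀ (by linarith)]
    have h1 : x / |t| ≤ y / |t| := div_le_div_of_nonneg_right hxy ht.le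
    have h2 : 0 ≤ y / |t| := by positivity
    have h3 : 2 * y / |t| * Real.log x = (y / |t|) * (2 * Real.log x) := by ring
    rw [h3]
    nlinarith
  have bint : ‖∫ u in b..y, V t u * ((u⁻¹ : ℝ) : ℂ) / ((Real.log u : ℝ) : ℂ) ^ 2‖
      ≤ (4 / |t|) * |y - b| := by
    refine intervalIntegral.norm_integral_le_of_norm_le_const fun x hx => ?_
    rw [Set.uIoc_of_le hby] at hx
    have hx2 : 2 ≤ x := hb.trans hx.1.le
    have hx0 : 0 < x := by linarith
    have hl := log_half x hx2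
    have hV := V_norm t x ht hx0
    rw [norm_div, norm_mul, norm_pow, Complex.norm_real, Complex.norm_real, Real.norm_eq_abs,
      Real.norm_eq_abs, abs_of_pos (inv_pos.mpr hx0), abs_of_pos (by linarith : 0 < Real.log x),
      div_le_iff₀ (by positivity)]
    have h1 : ‖V t x‖ * x⁻¹ ≤ 1 / |t| := by
      calc ‖V t x‖ * x⁻¹ ≤ (x / |t|) * x⁻¹ :=
            mul_le_mul_of_nonneg_right hV (inv_nonneg.mpr hx0.le)
        _ = 1 / |t| := by field_simp
    have h2 : (1 : ℝ) ≤ 4 * Real.log x ^ 2 := by nlinarith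
    have h3 : 4 / |t| * Real.log x ^ 2 = (1 / |t|) * (4 * Real.log x ^ 2) := by ring
    rw [h3]
    have h4 : 0 ≤ 1 / |t| := by positivity
    nlinarith
  have h1 := bd y hy2 le_rfl
  have h2 := bd b hb hby
  have h3 : (4 / |t|) * |y - b| ≤ 4 * y / |t| := by
    rw [abs_of_nonneg (by linarith : 0 ≤ y - b)]
    have : (4 / |t|) * (y - b) = 4 * (y - b) / |t| := by ring
    rw [this]
    exact div_le_div_of_nonneg_right (by linarith) ht.le
  have h4 : 8 * y / |t| = 2 * y / |t| + 2 * y / |t| + 4 * y / |t| := by ring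
  rw [h4]
  refine (norm_add_le _ _).trans (add_le_add ((norm_sub_le _ _).trans (add_le_add h1 h2))
    (bint.trans h3))

/-- trivial bound for a difference -/
theorem triv (a b t : ℝ) (hb : 0 ≤ b) (hab : a ≤ b) : ‖Ps b t - Ps a t‖ ≤ b := by
  have hsub : (Finset.Icc 1 ⌊a⌋₊).filter Nat.Prime ⊆ (Finset.Icc 1 ⌊b⌋₊).filter Nat.Prime := by
    refine Finset.filter_subset_filter _ (Finset.Icc_subset_Icc le_rfl (Nat.floor_le_floor hab))
  have h : Ps b t - Ps a t = ∑ p ∈ ((Finset.Icc 1 ⌊b⌋₊).filter Nat.Prime) \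
      ((Finset.Icc 1 ⌊a⌋₊).filter Nat.Prime), (p : ℂ) ^ (-(t * Complex.I)) := by
    unfold Ps
    rw [← Finset.sum_sdiff hsub]
    ring
  rw [h]
  have h1 : ‖∑ p ∈ ((Finset.Icc 1 ⌊b⌋₊).filter Nat.Prime) \
      ((Finset.Icc 1 ⌊a⌋₊).filter Nat.Prime), (p : ℂ) ^ (-(t * Complex.I))‖
      ≤ ∑ p ∈ ((Finset.Icc 1 ⌊b⌋₊).filter Nat.Prime) \
      ((Finset.Icc 1 ⌊a⌋₊).filter Nat.Prime), (1 : ℝ) := by
    refine norm_sum_le_of_le _ fun p hp => ?_
    have hp1 : 1 ≤ p := (Finset.mem_Icc.mp (Finset.mem_filter.mp (Finset.mem_sdiff.mp hp).1).1).1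
    rw [Complex.norm_natCast_cpow_of_pos (by omega)]
    simp
  refine h1.trans ?_
  rw [Finset.sum_const, nsmul_eq_mul, mul_one]
  have h2 : (((Finset.Icc 1 ⌊b⌋₊).filter Nat.Prime) \
      ((Finset.Icc 1 ⌊a⌋₊).filter Nat.Prime)).card ≤ ⌊b⌋₊ := by
    calc _ ≤ ((Finset.Icc 1 ⌊b⌋₊).filter Nat.Prime).card := Finset.card_le_card Finset.sdiff_subset
      _ ≤ (Finset.Icc 1 ⌊b⌋₊).card := Finset.card_filter_le _ _
      _ = ⌊b⌋₊ := by simp
  exact (Nat.cast_le.mpr h2).trans (Nat.floor_le hb)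

/-- powers of the logarithm against the square root -/
theorem log_pow_le (A y : ℝ) (hA : 0 < A) (hy : 1 ≤ y) :
    Real.log y ^ A ≤ (2 * A) ^ A * Real.sqrt y := by
  have hl : 0 ≤ Real.log y := Real.log_nonneg hy
  have h := Real.log_le_rpow_div (by linarith : 0 ≤ y) (show 0 < 1 / (2 * A) by positivity)
  have h2 : y ^ (1 / (2 * A)) / (1 / (2 * A)) = 2 * A * y ^ (1 / (2 * A)) := by
    field_simp
  rw [h2] at h
  calc Real.log y ^ A ≤ (2 * A * y ^ (1 / (2 * A))) ^ A := Real.rpow_le_rpow hl h hA.le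
    _ = (2 * A) ^ A * Real.sqrt y := by
      rw [Real.mul_rpow (by positivity) (by positivity), ← Real.rpow_mul (by linarith),
        Real.sqrt_eq_rpow]
      congr 2
      field_simp

end PrI_aux

open PrI_aux in
theorem iPrI (hPrA : StPrA) : StPrI := by
  intro A B hA hB
  obtain ⟨C₁, hC₁, h1⟩ := hPrA A B hA hB
  obtain ⟨C₂, hC₂, h2⟩ := hPrA A (2 * B) hA (by positivity)
  have hK : 0 ≤ Real.log 4 ^ A := by positivity
  have h2A : 0 ≤ (2 * A) ^ A := by positivity
  have hpA : (0 : ℝ) < 2 ^ A := by positivity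
  refine ⟨C₁ + 2 ^ A * C₂ + 8 + Real.log 4 ^ A + (2 * A) ^ A, ?_, ?_⟩
  · nlinarith [mul_nonneg hpA.le (by linarith : (0 : ℝ) ≤ C₂)]
  intro y a t hy ha hay ht1 ht2
  have hy0 : 0 < y := by linarith
  have hly : 1 / 2 ≤ Real.log y := log_half y hy
  have hL : 0 < Real.log y ^ A := Real.rpow_pos_of_pos (by linarith) A
  have htp : 0 < |t| := lt_of_lt_of_le hL ht1
  have hq : 0 < y / Real.log y ^ A := by positivity
  have hC2n : 0 ≤ 2 ^ A * C₂ := mul_nonneg hpA.le (by linarith)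
  have split : ∀ X : ℝ, X * y / Real.log y ^ A = X * (y / Real.log y ^ A) := fun X => by ring
  rw [split]
  rcases lt_or_ge y 4 with hy4 | hy4
  · -- small y
    have htr := triv a y t hy0.le hay
    have hlog : Real.log y ^ A ≤ Real.log 4 ^ A :=
      Real.rpow_le_rpow (by linarith) (Real.log_le_log hy0 hy4.le) hA.le
    have h3 : y ≤ Real.log 4 ^ A * (y / Real.log y ^ A) := by
      rw [← mul_div_assoc, le_div_iff₀ hL]
      nlinarith
    refine htr.trans (h3.trans ?_)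
    refine mul_le_mul_of_nonneg_right ?_ hq.le
    nlinarith
  · -- large y
    set s := Real.sqrt y with hs
    have hs2 : 2 ≤ s := by
      rw [hs]
      have : Real.sqrt 4 ≤ Real.sqrt y := Real.sqrt_le_sqrt hy4
      have h4 : Real.sqrt 4 = 2 := by
        rw [show (4 : ℝ) = 2 ^ 2 by norm_num, Real.sqrt_sq (by norm_num)]
      linarith
    have hss : s * s = y := Real.mul_self_sqrt hy0.le
    have hsy : s ≤ y := by nlinarith
    set b := max a s with hb
    have hb2 : 2 ≤ b := hs2.trans (le_max_right _ _)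
    have hb0 : 0 < b := by linarith
    have hby : b ≤ y := max_le hay hsy
    have hsb : s ≤ b := le_max_right _ _
    -- the piece between a and b
    have p1 : ‖Ps b t - Ps a t‖ ≤ (2 * A) ^ A * (y / Real.log y ^ A) := by
      have hsbound : s ≤ (2 * A) ^ A * (y / Real.log y ^ A) := by
        rw [← mul_div_assoc, le_div_iff₀ hL]
        have := log_pow_le A y hA (by linarith)
        rw [← hs] at this
        calc s * Real.log y ^ A ≤ s * ((2 * A) ^ A * s) :=
              mul_le_mul_of_nonneg_left this (by linarith)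
          _ = (2 * A) ^ A * (s * s) := by ring
          _ = (2 * A) ^ A * y := by rw [hss]
      rcases le_total s a with hsa | has
      · have : b = a := max_eq_left hsa
        rw [this, sub_self, norm_zero]
        positivity
      · have : b = s := max_eq_right has
        rw [this]
        exact (triv a s t (by linarith) has).trans hsbound
    have p2 : ‖Ps y t - ∫ u in (2 : ℝ)..y, (u : ℂ) ^ (-(t * Complex.I)) / (Real.log u : ℂ)‖
        ≤ C₁ * (y / Real.log y ^ A) := by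
      have := h1 y t hy ht2
      rwa [split] at this
    have p3 : ‖Ps b t - ∫ u in (2 : ℝ)..b, (u : ℂ) ^ (-(t * Complex.I)) / (Real.log u : ℂ)‖
        ≤ 2 ^ A * C₂ * (y / Real.log y ^ A) := by
      have hpow : |t| ≤ b ^ (2 * B) := by
        refine ht2.trans ?_
        rw [Real.rpow_mul hb0.le]
        refine Real.rpow_le_rpow hy0.le ?_ hB.le
        rw [← hss]
        have : b ^ (2 : ℝ) = b * b := by
          rw [show (2 : ℝ) = ((2 : ℕ) : ℝ) by norm_num, Real.rpow_natCast]; ring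
        rw [this]
        exact mul_le_mul hsb hsb (by linarith) hb0.le
      refine (h2 b t hb2 hpow).trans ?_
      have hlogb : Real.log y / 2 ≤ Real.log b := by
        have e : Real.log s = Real.log y / 2 := by
          rw [hs, Real.log_sqrt hy0.le]
        rw [← e]
        exact Real.log_le_log (by linarith) hsb
      have hLb : (Real.log y / 2) ^ A ≤ Real.log b ^ A :=
        Real.rpow_le_rpow (by linarith) hlogb hA.le
      rw [Real.div_rpow (by linarith) (by norm_num)] at hLb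
      have hx : 0 < Real.log y ^ A / 2 ^ A := by positivity
      calc C₂ * b / Real.log b ^ A ≤ C₂ * b / (Real.log y ^ A / 2 ^ A) :=
            div_le_div_of_nonneg_left (by positivity) hx hLb
        _ ≤ C₂ * y / (Real.log y ^ A / 2 ^ A) := by
            refine div_le_div_of_nonneg_right ?_ hx.le
            exact mul_le_mul_of_nonneg_left hby (by linarith)
        _ = 2 ^ A * C₂ * (y / Real.log y ^ A) := by
            field_simp
    have p4 : ‖(∫ u in (2 : ℝ)..y, (u : ℂ) ^ (-(t * Complex.I)) / (Real.log u : ℂ))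
        - ∫ u in (2 : ℝ)..b, (u : ℂ) ^ (-(t * Complex.I)) / (Real.log u : ℂ)‖
        ≤ 8 * (y / Real.log y ^ A) := by
      have j1 := (cont1 t 2 y le_rfl hy).intervalIntegrable (μ := volume)
      have j2 := (cont1 t 2 b le_rfl hb2).intervalIntegrable (μ := volume)
      have e := intervalIntegral.integral_interval_sub_left j1 j2
      have e' : (∫ u in (2 : ℝ)..y, (u : ℂ) ^ (-(t * Complex.I)) / (Real.log u : ℂ))
        - ∫ u in (2 : ℝ)..b, (u : ℂ) ^ (-(t * Complex.I)) / (Real.log u : ℂ)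
        = ∫ u in b..y, (u : ℂ) ^ (ex t) / ((Real.log u : ℝ) : ℂ) := e
      rw [e']
      refine (main_term b y t hb2 hby htp).trans ?_
      rw [mul_div_assoc]
      refine mul_le_mul_of_nonneg_left ?_ (by norm_num)
      exact div_le_div_of_nonneg_left hy0.le hL ht1
    have key : Ps y t - Ps a t = (Ps b t - Ps a t)
        + (Ps y t - ∫ u in (2 : ℝ)..y, (u : ℂ) ^ (-(t * Complex.I)) / (Real.log u : ℂ))
        - (Ps b t - ∫ u in (2 : ℝ)..b, (u : ℂ) ^ (-(t * Complex.I)) / (Real.log u : ℂ))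
        + ((∫ u in (2 : ℝ)..y, (u : ℂ) ^ (-(t * Complex.I)) / (Real.log u : ℂ))
        - ∫ u in (2 : ℝ)..b, (u : ℂ) ^ (-(t * Complex.I)) / (Real.log u : ℂ)) := by ring
    rw [key]
    refine (norm_add_le _ _).trans ?_
    have q1 := (norm_sub_le ((Ps b t - Ps a t)
        + (Ps y t - ∫ u in (2 : ℝ)..y, (u : ℂ) ^ (-(t * Complex.I)) / (Real.log u : ℂ)))
        (Ps b t - ∫ u in (2 : ℝ)..b, (u : ℂ) ^ (-(t * Complex.I)) / (Real.log u : ℂ)))
    have q2 := norm_add_le (Ps b t - Ps a t)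
        (Ps y t - ∫ u in (2 : ℝ)..y, (u : ℂ) ^ (-(t * Complex.I)) / (Real.log u : ℂ))
    have q3 : 0 ≤ Real.log 4 ^ A * (y / Real.log y ^ A) := by positivity
    have q4 : (C₁ + 2 ^ A * C₂ + 8 + Real.log 4 ^ A + (2 * A) ^ A) * (y / Real.log y ^ A)
        = C₁ * (y / Real.log y ^ A) + 2 ^ A * C₂ * (y / Real.log y ^ A)
          + 8 * (y / Real.log y ^ A) + Real.log 4 ^ A * (y / Real.log y ^ A)
          + (2 * A) ^ A * (y / Real.log y ^ A) := by ring
    rw [q4]
    linarith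

end Pool.Agent.Work.MP_a8fbd7_nt.ZF
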