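/-
MP_a8fbd7_nt, block ZF, item Rg: the uniform zero-free region.  Author: helper9.
-/
import Pool.Agent.Work.MP_a8fbd7_nt.ZF.Stmts

set_option autoImplicit false

open MeasureTheory Set Filter Topology

namespace Pool.Agent.Work.MP_a8fbd7_nt.ZF

namespace Rg_aux

theorem gz_eq {s : ℂ} (hs : s ≠ 1) (h0 : riemannZeta s ≠ 0) :
    riemannZeta₁ s ≠ 0 ∧ Gz s = -(deriv riemannZeta s / riemannZeta s) - (s - 1)⁻¹ := by
  have h1 : s - 1 ≠ 0 := sub_ne_zero.2 hs
  have e := riemannZeta_eq_inv_sub_mul hs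
  have hz : riemannZeta₁ s ≠ 0 := by
    intro h
    rw [h, mul_zero] at e
    exact h0 e
  refine ⟨hz, ?_⟩
  have d := deriv_riemannZeta_eq_neg_inv_sub_sq_mul_add hs
  unfold Gz
  rw [d, e]
  field_simp
  ring

theorem inv_le {s : ℂ} (h : 1 ≤ |s.im|) : ‖(s - 1)⁻¹‖ ≤ 1 := by
  have h1 : |s.im| ≤ ‖s - 1‖ := by
    have h2 := Complex.abs_im_le_norm (s - 1)
    simpa using h2
  rw [norm_inv]
  exact inv_le_one_of_one_le₀ (h.trans h1)

theorem tend (K c : ℝ) (hc : 0 < c) :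
    ∃ H1 : ℝ, ∀ H : ℝ, H1 ≤ H → K * Real.log (Real.log H) / Real.log H ≤ c := by
  have h1 : Tendsto (fun x : ℝ => Real.log x ^ 1 / (1 * x + 0)) atTop (𝓝 0) :=
    Real.tendsto_pow_log_div_mul_add_atTop 1 0 1 one_ne_zero
  have h2 : Tendsto (fun H : ℝ => Real.log (Real.log H) ^ 1 / (1 * Real.log H + 0)) atTop (𝓝 0) :=
    h1.comp Real.tendsto_log_atTop
  have h3 := h2.const_mul K
  rw [mul_zero] at h3
  obtain ⟨H1, h4⟩ := eventually_atTop.1 (h3.eventually_le_const hc)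
  refine ⟨H1, fun H hH => ?_⟩
  have h5 := h4 H hH
  rw [pow_one, one_mul, add_zero] at h5
  rw [mul_div_assoc]
  exact h5

end Rg_aux

theorem iRg (hV : StVK3) (hLo : StLo) : StRg := by
  intro K hK
  obtain ⟨C', T0, hC', hT0, hv⟩ := hV K hK
  set T1 : ℝ := max T0 (Real.exp (Real.exp 1)) with hT1
  have hT1a : T0 ≤ T1 := le_max_left _ _
  have hT1b : Real.exp (Real.exp 1) ≤ T1 := le_max_right _ _
  obtain ⟨c, C1, hc, hc2, hC1, hl⟩ := hLo T1 (by linarith)
  obtain ⟨H1, hH1⟩ := Rg_aux.tend K c hc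
  refine ⟨C1 + C' + 1, max H1 3, by linarith, le_max_right _ _, ?_⟩
  intro H s hH hsH hre hre3
  have hHH1 : H1 ≤ H := (le_max_left _ _).trans hH
  have hH3 : (3 : ℝ) ≤ H := (le_max_right _ _).trans hH
  have hL1 : 1 ≤ Real.log H := by
    rw [Real.le_log_iff_exp_le (by linarith)]
    have := Real.exp_one_lt_d9
    linarith
  have hL2 : 1 ≤ Real.log H ^ 2 := one_le_pow₀ hL1
  rcases le_or_gt |s.im| T1 with h | h
  · have h1 := hl s h (by have := hH1 H hHH1; linarith) hre3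
    refine ⟨h1.1, h1.2.trans ?_⟩
    nlinarith
  · have him : 1 ≤ |s.im| := by linarith
    have hs1 : s ≠ 1 := by
      intro e
      rw [e] at him
      simp at him
      linarith
    have hpos : 0 < |s.im| := by linarith
    have hxe : Real.exp 1 ≤ Real.log |s.im| := by
      rw [Real.le_log_iff_exp_le hpos]
      exact hT1b.trans h.le
    have hxy : Real.log |s.im| ≤ Real.log H := Real.log_le_log hpos hsH
    have hanti : Real.log (Real.log H) / Real.log H ≤
        Real.log (Real.log |s.im|) / Real.log |s.im| :=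
      Real.log_div_self_antitoneOn (show Real.log |s.im| ∈ {x | Real.exp 1 ≤ x} from hxe)
        (show Real.log H ∈ {x | Real.exp 1 ≤ x} from hxe.trans hxy) hxy
    have hcond : 1 - K * Real.log (Real.log |s.im|) / Real.log |s.im| ≤ s.re := by
      refine le_trans ?_ hre
      rw [mul_div_assoc, mul_div_assoc]
      have := mul_le_mul_of_nonneg_left hanti (by linarith : (0 : ℝ) ≤ K)
      linarith
    obtain ⟨hz, hb⟩ := hv s (hT1a.trans h.le) hcond
    obtain ⟨hz1, he⟩ := Rg_aux.gz_eq hs1 hz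
    refine ⟨hz1, ?_⟩
    rw [he]
    have hlog0 : 0 ≤ Real.log |s.im| := (Real.exp_pos 1).le.trans hxe
    have hsq : Real.log |s.im| ^ 2 ≤ Real.log H ^ 2 := pow_le_pow_left₀ hlog0 hxy 2
    calc ‖-(deriv riemannZeta s / riemannZeta s) - (s - 1)⁻¹‖
        ≤ ‖-(deriv riemannZeta s / riemannZeta s)‖ + ‖(s - 1)⁻¹‖ := norm_sub_le _ _
      _ ≤ C' * Real.log |s.im| ^ 2 + 1 := by
          rw [norm_neg]
          exact add_le_add hb (Rg_aux.inv_le him)
      _ ≤ C' * Real.log H ^ 2 + 1 * Real.log H ^ 2 := by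
          have := mul_le_mul_of_nonneg_left hsq (by linarith : (0 : ℝ) ≤ C')
          linarith
      _ ≤ (C1 + C' + 1) * Real.log H ^ 2 := by nlinarith

end Pool.Agent.Work.MP_a8fbd7_nt.ZF
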