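import Pool.Agent.Work.MP_a8fbd7_nt.ZF.Stmts

/-!
MP_a8fbd7_nt, block ZF, item Ro: rough numbers, sharp cut-off.  Author: helper13.
-/

open MeasureTheory Set Filter Topology

noncomputable section

namespace Pool.Agent.Work.MP_a8fbd7_nt.ZF

open Pool.Agent.Work.MP_56b8f5_nt.UC (IsWt Bl Dp Sep)
open Pool.Agent.Work.MP_a8fbd7_nt.OX.ID (Rough roughOne)

namespace Ro_aux

/-- the largest prime factor -/
def gp (n : ℕ) : ℕ := n.primeFactors.sup id

theorem gp_prime {n : ℕ} (hn : 2 ≤ n) : (gp n).Prime ∧ gp n ∣ n := by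
  have h1 : n.primeFactors.Nonempty := Nat.nonempty_primeFactors.2 hn
  obtain ⟨p, hp, he⟩ := Finset.exists_mem_eq_sup _ h1 (id : ℕ → ℕ)
  have h2 : gp n = p := he
  rw [h2]
  exact ⟨Nat.prime_of_mem_primeFactors hp, Nat.dvd_of_mem_primeFactors hp⟩

theorem gp_mul {m p : ℕ} (hm : m ≠ 0) (hp : p.Prime) (h : gp m ≤ p) : gp (m * p) = p := by
  unfold gp at *
  rw [Nat.primeFactors_mul hm hp.ne_zero, hp.primeFactors, Finset.sup_union,
    Finset.sup_singleton]
  exact max_eq_right h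

theorem gp_div {n : ℕ} (hn : 2 ≤ n) : gp (n / gp n) ≤ gp n := by
  have h1 : n / gp n ∣ n := Nat.div_dvd_of_dvd (gp_prime hn).2
  exact Finset.sup_mono (Nat.primeFactors_mono h1 (by omega))

open Classical in
/-- decomposition by the largest prime factor -/
theorem decomp (z Y : ℕ) (F : ℕ → ℂ) :
    ∑ n ∈ (Finset.Ioc 1 Y).filter (fun n : ℕ => Rough z n), F n =
      ∑ m ∈ (Finset.Icc 1 Y).filter (fun n : ℕ => Rough z n),
        ∑ p ∈ (Finset.Ioc (max z (gp m - 1)) (Y / m)).filter Nat.Prime, F (m * p) := by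
  rw [Finset.sum_sigma']
  refine Finset.sum_nbij' (fun n => ⟨n / gp n, gp n⟩) (fun x => x.1 * x.2) ?_ ?_ ?_ ?_ ?_
  · intro n hn
    rw [Finset.mem_filter, Finset.mem_Ioc] at hn
    obtain ⟨⟨h1, h2⟩, h3⟩ := hn
    obtain ⟨hp, hd⟩ := gp_prime (n := n) h1
    have hm : n / gp n ∣ n := Nat.div_dvd_of_dvd hd
    have hm0 : 0 < n / gp n := Nat.div_pos (Nat.le_of_dvd (by omega) hd) hp.pos
    rw [Finset.mem_sigma, Finset.mem_filter, Finset.mem_Icc, Finset.mem_filter, Finset.mem_Ioc]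
    refine ⟨⟨⟨hm0, (Nat.div_le_self _ _).trans h2⟩, h3.of_dvd hm⟩, ⟨?_, ?_⟩, hp⟩
    · rw [max_lt_iff]
      refine ⟨h3 _ hp hd, ?_⟩
      have h4 := gp_div (n := n) h1
      have h5 := hp.pos
      show gp (n / gp n) - 1 < gp n
      omega
    · show gp n ≤ Y / (n / gp n)
      rw [Nat.le_div_iff_mul_le hm0, Nat.mul_div_cancel' hd]
      exact h2
  · rintro ⟨m, p⟩ hx
    rw [Finset.mem_sigma, Finset.mem_filter, Finset.mem_Icc, Finset.mem_filter,
      Finset.mem_Ioc] at hx
    obtain ⟨⟨⟨h1, h2⟩, h3⟩, ⟨h4, h5⟩, h6⟩ := hx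
    simp only at h1 h2 h3 h4 h5 h6 ⊢
    rw [max_lt_iff] at h4
    rw [Nat.le_div_iff_mul_le h1] at h5
    rw [Finset.mem_filter, Finset.mem_Ioc]
    refine ⟨⟨?_, by rw [mul_comm]; exact h5⟩, ?_⟩
    · have h7 := h6.two_le
      calc 1 < 1 * p := by omega
        _ ≤ m * p := Nat.mul_le_mul_right p h1
    · refine h3.mul ?_
      intro q hq hqp
      rw [(Nat.prime_dvd_prime_iff_eq hq h6).1 hqp]
      exact h4.1
  · intro n hn
    rw [Finset.mem_filter, Finset.mem_Ioc] at hn
    exact Nat.div_mul_cancel (gp_prime (n := n) hn.1.1).2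
  · rintro ⟨m, p⟩ hx
    rw [Finset.mem_sigma, Finset.mem_filter, Finset.mem_Icc, Finset.mem_filter,
      Finset.mem_Ioc] at hx
    obtain ⟨⟨⟨h1, h2⟩, h3⟩, ⟨h4, h5⟩, h6⟩ := hx
    simp only at h1 h2 h3 h4 h5 h6 ⊢
    rw [max_lt_iff] at h4
    have h7 : gp (m * p) = p := gp_mul (by omega) h6 (by omega)
    rw [h7, Nat.mul_div_cancel _ h6.pos]
  · intro n hn
    rw [Finset.mem_filter, Finset.mem_Ioc] at hn
    simp only
    rw [Nat.div_mul_cancel (gp_prime (n := n) hn.1.1).2]

theorem norm_cpow_it (n : ℕ) (hn : 1 ≤ n) (t : ℝ) : ‖(n : ℂ) ^ (-(t * Complex.I))‖ = 1 := by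
  rw [Complex.norm_natCast_cpow_of_pos hn]
  simp

/-- primes in an interval -/
theorem ps_diff (a : ℕ) (b t : ℝ) (h : a ≤ ⌊b⌋₊) :
    Ps b t - Ps a t = ∑ p ∈ (Finset.Ioc a ⌊b⌋₊).filter Nat.Prime, (p : ℂ) ^ (-(t * Complex.I)) := by
  unfold Ps
  rw [Nat.floor_natCast]
  have h1 : (Finset.Icc 1 ⌊b⌋₊).filter Nat.Prime =
      ((Finset.Icc 1 a).filter Nat.Prime) ∪ ((Finset.Ioc a ⌊b⌋₊).filter Nat.Prime) := by
    ext p
    simp only [Finset.mem_filter, Finset.mem_Icc, Finset.mem_union, Finset.mem_Ioc]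
    constructor
    · rintro ⟨⟨h1, h2⟩, h3⟩
      by_cases h4 : p ≤ a
      · exact Or.inl ⟨⟨h1, h4⟩, h3⟩
      · exact Or.inr ⟨⟨by omega, h2⟩, h3⟩
    · rintro (⟨⟨h1, h2⟩, h3⟩ | ⟨⟨h1, h2⟩, h3⟩)
      · exact ⟨⟨h1, by omega⟩, h3⟩
      · exact ⟨⟨by omega, h2⟩, h3⟩
  have h2 : Disjoint ((Finset.Icc 1 a).filter Nat.Prime) ((Finset.Ioc a ⌊b⌋₊).filter Nat.Prime) := by
    rw [Finset.disjoint_left]
    intro p hp hq
    simp only [Finset.mem_filter, Finset.mem_Icc, Finset.mem_Ioc] at hp hq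
    omega
  rw [h1, Finset.sum_union h2]
  ring

/-- the harmonic sum -/
theorem harm (Y : ℕ) (y : ℝ) (hY : (Y : ℝ) ≤ y) (hy : 1 ≤ y) :
    ∑ m ∈ Finset.Icc 1 Y, (1 : ℝ) / m ≤ 1 + Real.log y := by
  have h1 : ∑ m ∈ Finset.Icc 1 Y, (1 : ℝ) / m = (harmonic Y : ℝ) := by
    rw [harmonic_eq_sum_Icc]
    push_cast
    exact Finset.sum_congr rfl fun m _ => one_div _
  rw [h1]
  rcases Nat.eq_zero_or_pos Y with h | h
  · subst h
    simp only [harmonic_zero, Rat.cast_zero]
    have := Real.log_nonneg hy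
    linarith
  · refine (harmonic_le_one_add_log Y).trans ?_
    have : Real.log Y ≤ Real.log y := Real.log_le_log (by exact_mod_cast h) hY
    linarith

end Ro_aux

/-- Ro. -/
theorem iRo (hPrI : StPrI) : StRo := by
  intro A η hA hη
  obtain ⟨C, hC1, hC⟩ := hPrI (A + 1) (3 / η) (by linarith) (by positivity)
  set L : ℝ := 3 ^ (A + 1) with hL
  have hL0 : 0 < L := Real.rpow_pos_of_pos (by norm_num) _
  refine ⟨4 * C / η ^ (A + 1) + L ^ A + 1, ?_, ?_⟩
  · have h1 : 0 ≤ 4 * C / η ^ (A + 1) := by positivity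
    have h2 : 0 ≤ L ^ A := by positivity
    linarith
  intro T y t z hT hz hy hyT ht1 ht2
  classical
  have hlT1 : 1 ≤ Real.log T := by
    rw [Real.le_log_iff_exp_le (by linarith)]
    have := Real.exp_one_lt_d9
    linarith
  have hlT0 : 0 < Real.log T := by linarith
  have hlA : 0 < Real.log T ^ A := Real.rpow_pos_of_pos hlT0 _
  have hY : ((⌊y⌋₊ : ℕ) : ℝ) ≤ y := Nat.floor_le (by linarith)
  by_cases hbig : L ≤ Real.log T
  · -- large T
    have hT0 : 0 < T := by linarith
    have key : ∀ m ∈ (Finset.Icc 1 ⌊y⌋₊).filter (fun n : ℕ => Rough z n),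
        ‖∑ p ∈ (Finset.Ioc (max z (Ro_aux.gp m - 1)) (⌊y⌋₊ / m)).filter Nat.Prime,
          ((m * p : ℕ) : ℂ) ^ (-(t * Complex.I))‖ ≤
          C * y / (η ^ (A + 1) * Real.log T ^ (A + 1)) * (1 / m) := by
      intro m hm
      rw [Finset.mem_filter, Finset.mem_Icc] at hm
      obtain ⟨⟨hm1, hm2⟩, hm3⟩ := hm
      have hm0 : (0 : ℝ) < m := by exact_mod_cast hm1
      have hfac : ∑ p ∈ (Finset.Ioc (max z (Ro_aux.gp m - 1)) (⌊y⌋₊ / m)).filter Nat.Prime,
          ((m * p : ℕ) : ℂ) ^ (-(t * Complex.I)) = (m : ℂ) ^ (-(t * Complex.I)) *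
          ∑ p ∈ (Finset.Ioc (max z (Ro_aux.gp m - 1)) (⌊y⌋₊ / m)).filter Nat.Prime,
          (p : ℂ) ^ (-(t * Complex.I)) := by
        rw [Finset.mul_sum]
        refine Finset.sum_congr rfl fun p _ => ?_
        push_cast
        exact Complex.natCast_mul_natCast_cpow m p _
      rw [hfac, norm_mul, Ro_aux.norm_cpow_it m hm1, one_mul]
      have hrhs : 0 ≤ C * y / (η ^ (A + 1) * Real.log T ^ (A + 1)) * (1 / m) := by positivity
      by_cases hne : ((Finset.Ioc (max z (Ro_aux.gp m - 1)) (⌊y⌋₊ / m)).filter Nat.Prime).Nonempty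
      · obtain ⟨p, hp⟩ := hne
        rw [Finset.mem_filter, Finset.mem_Ioc, max_lt_iff] at hp
        obtain ⟨⟨⟨hp1, hp2⟩, hp3⟩, hp4⟩ := hp
        set a : ℕ := max z (Ro_aux.gp m - 1) with ha
        have hfl : ⌊y / m⌋₊ = ⌊y⌋₊ / m := Nat.floor_div_natCast y m
        have hab : a ≤ ⌊y / m⌋₊ := by
          rw [hfl]
          have : a < p := by rw [ha, max_lt_iff]; exact ⟨hp1, hp2⟩
          omega
        have hb0 : 0 ≤ y / m := by positivity
        have hpb : (p : ℝ) ≤ y / m := by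
          calc (p : ℝ) ≤ ((⌊y / m⌋₊ : ℕ) : ℝ) := by rw [hfl]; exact_mod_cast hp3
            _ ≤ y / m := Nat.floor_le hb0
        have hzb : T ^ η ≤ y / m := by
          calc T ^ η ≤ z := hz
            _ ≤ p := by exact_mod_cast hp1.le
            _ ≤ y / m := hpb
        have hbT : y / m ≤ T ^ 3 := by
          calc y / m ≤ y := div_le_self (by linarith) (by exact_mod_cast hm1)
            _ ≤ T ^ 3 := hyT
        have hb2 : 2 ≤ y / m := by
          calc (2 : ℝ) ≤ p := by exact_mod_cast hp4.two_le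
            _ ≤ y / m := hpb
        have hlb1 : η * Real.log T ≤ Real.log (y / m) := by
          rw [← Real.log_rpow hT0]
          exact Real.log_le_log (Real.rpow_pos_of_pos hT0 _) hzb
        have hlb2 : Real.log (y / m) ≤ 3 * Real.log T := by
          have : Real.log (T ^ 3) = 3 * Real.log T := by
            rw [Real.log_pow]; norm_num
          rw [← this]
          exact Real.log_le_log (by linarith) hbT
        have hlb0 : 0 < Real.log (y / m) := lt_of_lt_of_le (by positivity) hlb1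
        have hc1 : Real.log (y / m) ^ (A + 1) ≤ |t| := by
          calc Real.log (y / m) ^ (A + 1) ≤ (3 * Real.log T) ^ (A + 1) :=
                Real.rpow_le_rpow hlb0.le hlb2 (by linarith)
            _ = L * Real.log T ^ (A + 1) := by
                rw [Real.mul_rpow (by norm_num) hlT0.le]
            _ ≤ Real.log T * Real.log T ^ (A + 1) := by
                apply mul_le_mul_of_nonneg_right hbig
                positivity
            _ = Real.log T ^ (A + 2) := by
                have : A + 2 = 1 + (A + 1) := by ring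
                rw [this, Real.rpow_add hlT0 1 (A + 1), Real.rpow_one]
            _ ≤ |t| := ht1
        have hc2 : |t| ≤ (y / m) ^ (3 / η) := by
          calc |t| ≤ T ^ 3 := ht2
            _ = (T ^ η) ^ (3 / η) := by
                rw [← Real.rpow_mul hT0.le, mul_div_cancel₀ _ hη.ne', ← Real.rpow_natCast]
                norm_num
            _ ≤ (y / m) ^ (3 / η) :=
                Real.rpow_le_rpow (by positivity) hzb (by positivity)
        have hmain := hC (y / m) a t hb2 (by positivity)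
          (by
            calc (a : ℝ) ≤ ((⌊y / m⌋₊ : ℕ) : ℝ) := by exact_mod_cast hab
              _ ≤ y / m := Nat.floor_le hb0) hc1 hc2
        rw [Ro_aux.ps_diff a (y / m) t hab, hfl] at hmain
        refine hmain.trans ?_
        have h5 : (η * Real.log T) ^ (A + 1) ≤ Real.log (y / m) ^ (A + 1) :=
          Real.rpow_le_rpow (by positivity) hlb1 (by linarith)
        rw [Real.mul_rpow hη.le hlT0.le] at h5
        calc C * (y / m) / Real.log (y / m) ^ (A + 1)
            ≤ C * (y / m) / (η ^ (A + 1) * Real.log T ^ (A + 1)) := by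
              apply div_le_div_of_nonneg_left (by positivity) (by positivity) h5
          _ = C * y / (η ^ (A + 1) * Real.log T ^ (A + 1)) * (1 / m) := by
              field_simp
      · rw [Finset.not_nonempty_iff_eq_empty] at hne
        rw [hne, Finset.sum_empty, norm_zero]
        exact hrhs
    have hdec : Rs z y t = ∑ m ∈ (Finset.Icc 1 ⌊y⌋₊).filter (fun n : ℕ => Rough z n),
        ∑ p ∈ (Finset.Ioc (max z (Ro_aux.gp m - 1)) (⌊y⌋₊ / m)).filter Nat.Prime,
          ((m * p : ℕ) : ℂ) ^ (-(t * Complex.I)) := by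
      unfold Rs
      exact Ro_aux.decomp z ⌊y⌋₊ (fun n => (n : ℂ) ^ (-(t * Complex.I)))
    set D : ℝ := C * y / (η ^ (A + 1) * Real.log T ^ (A + 1)) with hD
    have hD0 : 0 ≤ D := by positivity
    have h6 : ‖Rs z y t‖ ≤ D * (1 + Real.log y) := by
      rw [hdec]
      refine (norm_sum_le _ _).trans ?_
      refine (Finset.sum_le_sum key).trans ?_
      calc ∑ m ∈ (Finset.Icc 1 ⌊y⌋₊).filter (fun n : ℕ => Rough z n), D * (1 / (m : ℝ))
          ≤ ∑ m ∈ Finset.Icc 1 ⌊y⌋₊, D * (1 / (m : ℝ)) := by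
            apply Finset.sum_le_sum_of_subset_of_nonneg (Finset.filter_subset _ _)
            intro m _ _
            positivity
        _ = D * ∑ m ∈ Finset.Icc 1 ⌊y⌋₊, (1 : ℝ) / m := by rw [Finset.mul_sum]
        _ ≤ D * (1 + Real.log y) :=
            mul_le_mul_of_nonneg_left (Ro_aux.harm _ _ hY hy) hD0
    have h7 : 1 + Real.log y ≤ 4 * Real.log T := by
      have h8 : Real.log y ≤ 3 * Real.log T := by
        have : Real.log (T ^ 3) = 3 * Real.log T := by
          rw [Real.log_pow]; norm_num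
        rw [← this]
        exact Real.log_le_log (by linarith) hyT
      linarith
    calc ‖Rs z y t‖ ≤ D * (1 + Real.log y) := h6
      _ ≤ D * (4 * Real.log T) := mul_le_mul_of_nonneg_left h7 hD0
      _ = (4 * C / η ^ (A + 1)) * y / Real.log T ^ A := by
          rw [hD, Real.rpow_add hlT0 A 1, Real.rpow_one]
          field_simp
      _ ≤ (4 * C / η ^ (A + 1) + L ^ A + 1) * y / Real.log T ^ A := by
          apply div_le_div_of_nonneg_right _ hlA.le
          apply mul_le_mul_of_nonneg_right _ (by linarith)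
          have : 0 ≤ L ^ A := by positivity
          linarith
  · -- bounded T
    push Not at hbig
    have h1 : ‖Rs z y t‖ ≤ y := by
      unfold Rs
      refine (norm_sum_le _ _).trans ?_
      calc ∑ n ∈ (Finset.Ioc 1 ⌊y⌋₊).filter (fun n : ℕ => Rough z n),
            ‖(n : ℂ) ^ (-(t * Complex.I))‖
          = ∑ n ∈ (Finset.Ioc 1 ⌊y⌋₊).filter (fun n : ℕ => Rough z n), (1 : ℝ) := by
            refine Finset.sum_congr rfl fun n hn => ?_
            rw [Finset.mem_filter, Finset.mem_Ioc] at hn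
            exact Ro_aux.norm_cpow_it n (by omega) t
        _ = (((Finset.Ioc 1 ⌊y⌋₊).filter (fun n : ℕ => Rough z n)).card : ℝ) := by simp
        _ ≤ ((⌊y⌋₊ : ℕ) : ℝ) := by
            have h2 : ((Finset.Ioc 1 ⌊y⌋₊).filter (fun n : ℕ => Rough z n)).card ≤ ⌊y⌋₊ := by
              refine (Finset.card_filter_le _ _).trans ?_
              rw [Nat.card_Ioc]
              omega
            exact_mod_cast h2
        _ ≤ y := hY
    have h3 : Real.log T ^ A ≤ L ^ A := Real.rpow_le_rpow hlT0.le hbig.le hA.le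
    have h4 : 1 ≤ (4 * C / η ^ (A + 1) + L ^ A + 1) / Real.log T ^ A := by
      rw [one_le_div hlA]
      have : 0 ≤ 4 * C / η ^ (A + 1) := by positivity
      linarith
    calc ‖Rs z y t‖ ≤ 1 * y := by rw [one_mul]; exact h1
      _ ≤ ((4 * C / η ^ (A + 1) + L ^ A + 1) / Real.log T ^ A) * y :=
          mul_le_mul_of_nonneg_right h4 (by linarith)
      _ = (4 * C / η ^ (A + 1) + L ^ A + 1) * y / Real.log T ^ A := by ring

end Pool.Agent.Work.MP_a8fbd7_nt.ZF
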