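import Pool.Agent.Work.MP_a8fbd7_nt.ZF.Stmts

/-!
MP_a8fbd7_nt, block ZF, item Sh: shift of the contour.
-/

set_option autoImplicit false

open MeasureTheory Set Filter Topology

noncomputable section

namespace Pool.Agent.Work.MP_a8fbd7_nt.ZF

namespace Sh_aux

lemma int_r {r : ℝ} (hr : 0 < r) : Integrable (fun v : ℝ => (r ^ 2 + v ^ 2)⁻¹) := by
  have h1 : (fun v : ℝ => (r ^ 2 + v ^ 2)⁻¹) = fun v : ℝ => (r ^ 2)⁻¹ * (1 + (v / r) ^ 2)⁻¹ := by
    funext v
    field_simp
  rw [h1]
  exact (integrable_inv_one_add_sq.comp_div hr.ne').const_mul _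

lemma integral_r {r : ℝ} (hr : 0 < r) : ∫ v : ℝ, (r ^ 2 + v ^ 2)⁻¹ = Real.pi / r := by
  have h1 : (fun v : ℝ => (r ^ 2 + v ^ 2)⁻¹) = fun v : ℝ => (r ^ 2)⁻¹ * (1 + (v / r) ^ 2)⁻¹ := by
    funext v
    field_simp
  rw [h1, integral_const_mul, Measure.integral_comp_div (fun x : ℝ => (1 + x ^ 2)⁻¹) r,
    integral_univ_inv_one_add_sq, abs_of_pos hr, smul_eq_mul]
  field_simp

/-- The integrand on the vertical line of real part `σ`. -/
def F (G : ℂ → ℂ) (y t : ℝ) (s : ℂ) : ℂ :=
  G (s + t * Complex.I) * (y : ℂ) ^ (s + 1) / (s * (s + 1))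

lemma norm_den {s : ℂ} (hs : 1 / 2 ≤ s.re) : s.re ^ 2 + s.im ^ 2 ≤ ‖s * (s + 1)‖ := by
  have h1 : ‖s‖ ^ 2 = s.re ^ 2 + s.im ^ 2 := by
    rw [← Complex.normSq_eq_norm_sq, Complex.normSq_apply]
    ring
  have h2 : ‖s‖ ≤ ‖s + 1‖ := by
    have h3 : ‖s‖ ^ 2 ≤ ‖s + 1‖ ^ 2 := by
      rw [← Complex.normSq_eq_norm_sq, ← Complex.normSq_eq_norm_sq, Complex.normSq_apply,
        Complex.normSq_apply]
      simp only [Complex.add_re, Complex.one_re, Complex.add_im, Complex.one_im, add_zero]
      nlinarith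
    exact le_of_sq_le_sq h3 (norm_nonneg _)
  rw [norm_mul, ← h1, sq]
  exact mul_le_mul_of_nonneg_left h2 (norm_nonneg _)

lemma norm_F {G : ℂ → ℂ} {y t M : ℝ} (hy : 1 ≤ y) (hM : 0 ≤ M) {s : ℂ} (hs : 1 / 2 ≤ s.re)
    (hG : ‖G (s + t * Complex.I)‖ ≤ M) :
    ‖F G y t s‖ ≤ M * y ^ (s.re + 1) * (s.re ^ 2 + s.im ^ 2)⁻¹ := by
  unfold F
  have hy0 : 0 < y := by linarith
  have h1 : 0 < s.re ^ 2 + s.im ^ 2 := by nlinarith [sq_nonneg s.im]
  rw [norm_div, norm_mul, Complex.norm_cpow_eq_rpow_re_of_pos hy0]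
  have h2 : (s + 1).re = s.re + 1 := by simp
  rw [h2, div_eq_mul_inv]
  have h3 : (‖s * (s + 1)‖)⁻¹ ≤ (s.re ^ 2 + s.im ^ 2)⁻¹ := inv_anti₀ h1 (norm_den hs)
  have h4 : 0 < y ^ (s.re + 1) := Real.rpow_pos_of_pos hy0 _
  exact mul_le_mul (mul_le_mul_of_nonneg_right hG h4.le) h3 (by positivity) (by positivity)

end Sh_aux

open Sh_aux in
theorem iSh : StSh := by
  refine ⟨13, by norm_num, ?_⟩
  intro G a c y U t M M2 ha hac hc hU hy hM hM2 hG hcont hb
  have hy0 : 0 < y := by linarith
  have hU0 : 0 < U := by linarith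
  have hc0 : 1 / 2 ≤ c := ha.trans hac
  set f : ℝ → ℂ := fun v => G (c + (t + v) * Complex.I) * (y : ℂ) ^ (c + 1 + v * Complex.I) /
    ((c + v * Complex.I) * (c + 1 + v * Complex.I)) with hf
  have hfF : ∀ v : ℝ, f v = F G y t (c + v * Complex.I) := by
    intro v
    simp only [hf, F]
    have e1 : (c : ℂ) + v * Complex.I + t * Complex.I = c + (t + v) * Complex.I := by ring
    have e2 : (c : ℂ) + v * Complex.I + 1 = c + 1 + v * Complex.I := by ring
    rw [e1, e2]
  have hyc : 0 < y ^ (c + 1) := Real.rpow_pos_of_pos hy0 _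
  have hya : 0 < y ^ (a + 1) := Real.rpow_pos_of_pos hy0 _
  have hre : ∀ σ v : ℝ, ((σ : ℂ) + v * Complex.I).re = σ := by intro σ v; simp
  have him : ∀ σ v : ℝ, ((σ : ℂ) + v * Complex.I).im = v := by intro σ v; simp
  -- pointwise bound on the line `c`
  have hbf : ∀ v : ℝ, ‖f v‖ ≤ M2 * y ^ (c + 1) * (c ^ 2 + v ^ 2)⁻¹ := by
    intro v
    rw [hfF]
    have h1 := norm_F (G := G) (y := y) (t := t) (M := M2) hy hM2
      (s := (c : ℂ) + v * Complex.I) (by rw [hre]; exact hc0) (by
        have e1 : (c : ℂ) + v * Complex.I + t * Complex.I = c + (t + v) * Complex.I := by ring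
        rw [e1]
        exact hb v)
    rw [hre, him] at h1
    exact h1
  have hfc : Continuous f := by
    have hden : ∀ v : ℝ, ((c : ℂ) + v * Complex.I) * (c + 1 + v * Complex.I) ≠ 0 := by
      intro v
      refine mul_ne_zero ?_ ?_
      · intro h
        have := congrArg Complex.re h
        rw [hre] at this
        simp at this
        linarith
      · intro h
        have := congrArg Complex.re h
        simp at this
        linarith
    refine Continuous.div (hcont.mul ?_) (by fun_prop) hden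
    refine Continuous.const_cpow (by fun_prop) (Or.inl ?_)
    exact_mod_cast hy0.ne'
  have hc00 : 0 < c := by linarith
  have hfi : Integrable f := by
    refine Integrable.mono' ((int_r hc00).const_mul (M2 * y ^ (c + 1))) hfc.aestronglyMeasurable ?_
    exact Eventually.of_forall hbf
  -- the tail
  have htail : ‖∫ v in (Ioc (-U) U)ᶜ, f v‖ ≤ M2 * y ^ (c + 1) * (2 * (Real.pi / U)) := by
    calc ‖∫ v in (Ioc (-U) U)ᶜ, f v‖ ≤ ∫ v in (Ioc (-U) U)ᶜ, ‖f v‖ := norm_integral_le_integral_norm _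
      _ ≤ ∫ v in (Ioc (-U) U)ᶜ, M2 * y ^ (c + 1) * (2 * (U ^ 2 + v ^ 2)⁻¹) := by
          refine setIntegral_mono_on hfi.norm.integrableOn
            (((int_r hU0).const_mul 2).const_mul _).integrableOn measurableSet_Ioc.compl ?_
          intro v hv
          refine (hbf v).trans ?_
          refine mul_le_mul_of_nonneg_left ?_ (by positivity)
          have hv2 : U ^ 2 ≤ v ^ 2 := by
            rw [mem_compl_iff, mem_Ioc, not_and_or, not_lt, not_le] at hv
            rcases hv with hv | hv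
            · nlinarith
            · nlinarith
          have hvpos : 0 < v ^ 2 := lt_of_lt_of_le (by positivity) hv2
          rw [← div_eq_mul_inv, inv_eq_one_div, div_le_div_iff₀ (by positivity) (by positivity)]
          nlinarith [sq_nonneg c]
      _ ≤ ∫ v : ℝ, M2 * y ^ (c + 1) * (2 * (U ^ 2 + v ^ 2)⁻¹) := by
          refine setIntegral_le_integral (((int_r hU0).const_mul 2).const_mul _) ?_
          exact Eventually.of_forall fun v => by positivity
      _ = M2 * y ^ (c + 1) * (2 * (Real.pi / U)) := by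
          rw [integral_const_mul, integral_const_mul, integral_r hU0]
  -- the rectangle
  have hdiff : DifferentiableOn ℂ (F G y t)
      (uIcc (a + (-U : ℝ) * Complex.I : ℂ).re ((c : ℂ) + U * Complex.I).re ×ℂ
        uIcc (a + (-U : ℝ) * Complex.I : ℂ).im ((c : ℂ) + U * Complex.I).im) := by
    intro s hs
    rw [hre, hre, him, him] at hs
    rw [Complex.mem_reProdIm, uIcc_of_le hac, uIcc_of_le (by linarith : -U ≤ U)] at hs
    obtain ⟨⟨hs1, hs2⟩, hs3, hs4⟩ := hs
    have hGd := (hG (s + t * Complex.I) (by simpa using hs1) (by simpa using hs2) (by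
      have : (s + t * Complex.I).im - t = s.im := by simp
      rw [this, abs_le]
      exact ⟨hs3, hs4⟩)).1
    have hs0 : s ≠ 0 := by
      rintro rfl
      simp at hs1
      linarith
    have hs01 : s + 1 ≠ 0 := by
      intro h
      have := congrArg Complex.re h
      simp at this
      linarith
    refine DifferentiableAt.differentiableWithinAt ?_
    unfold F
    refine DifferentiableAt.div (DifferentiableAt.mul ?_ ?_) (by fun_prop) (mul_ne_zero hs0 hs01)
    · exact DifferentiableAt.comp s hGd (by fun_prop)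
    · refine DifferentiableAt.const_cpow (by fun_prop) (Or.inl ?_)
      exact_mod_cast hy0.ne'
  have hrect := Complex.integral_boundary_rect_eq_zero_of_differentiableOn (F G y t)
    (a + (-U : ℝ) * Complex.I) (c + U * Complex.I) hdiff
  rw [hre, hre, him, him] at hrect
  -- bounds for the sides
  have hin : ∀ σ v : ℝ, a ≤ σ → σ ≤ c → |v| ≤ U →
      ‖F G y t (σ + v * Complex.I)‖ ≤ M * y ^ (σ + 1) * (σ ^ 2 + v ^ 2)⁻¹ := by
    intro σ v h1 h2 h3
    have h4 := norm_F (G := G) (y := y) (t := t) (M := M) hy hM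
      (s := (σ : ℂ) + v * Complex.I) (by rw [hre]; linarith) (by
        refine (hG _ (by simpa using h1) (by simpa using h2) ?_).2
        have : ((σ : ℂ) + v * Complex.I + t * Complex.I).im - t = v := by simp
        rw [this]
        exact h3)
    rw [hre, him] at h4
    exact h4
  have hhor : ∀ v : ℝ, |v| = U → ‖∫ x : ℝ in a..c, F G y t (x + v * Complex.I)‖ ≤
      (5 / 2) * (M * y ^ (c + 1) / U ^ 2) := by
    intro v hv
    have h1 : ‖∫ x : ℝ in a..c, F G y t (x + v * Complex.I)‖ ≤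
        (M * y ^ (c + 1) / U ^ 2) * |c - a| := by
      refine intervalIntegral.norm_integral_le_of_norm_le_const ?_
      intro x hx
      rw [uIoc_of_le hac] at hx
      refine (hin x v hx.1.le hx.2 hv.le).trans ?_
      rw [div_eq_mul_inv]
      have hx0 : y ^ (x + 1) ≤ y ^ (c + 1) := Real.rpow_le_rpow_of_exponent_le hy (by linarith [hx.2])
      have hv2 : v ^ 2 = U ^ 2 := by rw [← sq_abs, hv]
      have h5 : (x ^ 2 + v ^ 2)⁻¹ ≤ (U ^ 2)⁻¹ := by
        refine inv_anti₀ (by positivity) ?_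
        rw [hv2]
        nlinarith [sq_nonneg x]
      exact mul_le_mul (mul_le_mul_of_nonneg_left hx0 hM) h5 (by positivity) (by positivity)
    refine h1.trans ?_
    rw [abs_of_nonneg (by linarith), mul_comm]
    exact mul_le_mul_of_nonneg_right (by linarith) (by positivity)
  have hver : ‖∫ v : ℝ in (-U)..U, F G y t (a + v * Complex.I)‖ ≤
      M * y ^ (a + 1) * (2 * Real.pi) := by
    rw [intervalIntegral.integral_of_le (by linarith)]
    have hint := (int_r (show (0 : ℝ) < 1 / 2 by norm_num)).const_mul (M * y ^ (a + 1))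
    calc ‖∫ v in Ioc (-U) U, F G y t (a + v * Complex.I)‖
        ≤ ∫ v in Ioc (-U) U, M * y ^ (a + 1) * ((1 / 2) ^ 2 + v ^ 2)⁻¹ := by
          refine norm_integral_le_of_norm_le hint.integrableOn ?_
          refine (ae_restrict_iff' measurableSet_Ioc).2 (Eventually.of_forall fun v hv => ?_)
          refine (hin a v le_rfl hac (abs_le.2 ⟨hv.1.le, hv.2⟩)).trans ?_
          refine mul_le_mul_of_nonneg_left ?_ (by positivity)
          refine inv_anti₀ (by positivity) ?_
          nlinarith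
      _ ≤ ∫ v : ℝ, M * y ^ (a + 1) * ((1 / 2) ^ 2 + v ^ 2)⁻¹ := by
          refine setIntegral_le_integral hint ?_
          exact Eventually.of_forall fun v => by positivity
      _ = M * y ^ (a + 1) * (2 * Real.pi) := by
          rw [integral_const_mul, integral_r (by norm_num)]
          ring
  -- assembling
  have hmain : ∫ v in Ioc (-U) U, f v = (∫ v : ℝ in (-U)..U, F G y t (a + v * Complex.I)) +
      Complex.I * ((∫ x : ℝ in a..c, F G y t (x + (-U : ℝ) * Complex.I)) -
        ∫ x : ℝ in a..c, F G y t (x + (U : ℝ) * Complex.I)) := by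
    rw [← intervalIntegral.integral_of_le (by linarith : -U ≤ U)]
    have e1 : ∫ v : ℝ in (-U)..U, f v = ∫ v : ℝ in (-U)..U, F G y t (c + v * Complex.I) :=
      intervalIntegral.integral_congr fun v _ => hfF v
    rw [e1]
    simp only [smul_eq_mul] at hrect
    have hI : Complex.I * Complex.I = -1 := Complex.I_mul_I
    have h7 := congrArg (fun z => Complex.I * z) hrect
    simp only [mul_zero] at h7
    linear_combination (-1 : ℂ) * h7 + (∫ v : ℝ in (-U)..U, F G y t (c + v * Complex.I)) * hI -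
      (∫ v : ℝ in (-U)..U, F G y t (a + v * Complex.I)) * hI
  have hsplit : ∫ v : ℝ, f v = (∫ v in Ioc (-U) U, f v) + ∫ v in (Ioc (-U) U)ᶜ, f v :=
    (integral_add_compl measurableSet_Ioc hfi).symm
  have hpi : Real.pi < 3.15 := Real.pi_lt_d2
  have hfin : ‖∫ v : ℝ, f v‖ ≤ M * y ^ (a + 1) * (2 * Real.pi) +
      (2 * ((5 / 2) * (M * y ^ (c + 1) / U ^ 2))) + M2 * y ^ (c + 1) * (2 * (Real.pi / U)) := by
    rw [hsplit, hmain]
    refine (norm_add_le _ _).trans (add_le_add ((norm_add_le _ _).trans (add_le_add hver ?_)) htail)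
    rw [norm_mul, Complex.norm_I, one_mul]
    refine (norm_sub_le _ _).trans ?_
    have h8 := hhor (-U) (by rw [abs_neg, abs_of_pos hU0])
    have h9 := hhor U (abs_of_pos hU0)
    push_cast at h8 ⊢
    linarith
  refine hfin.trans ?_
  have p1 : 0 ≤ M * y ^ (a + 1) := by positivity
  have p2 : 0 ≤ M * y ^ (c + 1) / U ^ 2 := by positivity
  have p3 : 0 ≤ M2 * y ^ (c + 1) / U := by positivity
  have e4 : M2 * y ^ (c + 1) * (2 * (Real.pi / U)) = (2 * Real.pi) * (M2 * y ^ (c + 1) / U) := by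
    ring
  rw [e4]
  nlinarith [mul_nonneg p1 (by linarith : (0 : ℝ) ≤ 13 - 2 * Real.pi),
    mul_nonneg p3 (by linarith : (0 : ℝ) ≤ 13 - 2 * Real.pi)]

end Pool.Agent.Work.MP_a8fbd7_nt.ZF
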