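import Pool.Agent.Work.MP_a8fbd7_nt.VK.All
import Pool.Agent.Work.MP_a8fbd7_nt.OX.Uc
import Pool.Agent.Work.MP_a8fbd7_nt.ZF.I_Lo
import Pool.Agent.Work.MP_a8fbd7_nt.ZF.I_Rg
import Pool.Agent.Work.MP_a8fbd7_nt.ZF.I_Mb
import Pool.Agent.Work.MP_a8fbd7_nt.ZF.I_Kn
import Pool.Agent.Work.MP_a8fbd7_nt.ZF.I_Pe
import Pool.Agent.Work.MP_a8fbd7_nt.ZF.I_Sh
import Pool.Agent.Work.MP_a8fbd7_nt.ZF.I_Bd
import Pool.Agent.Work.MP_a8fbd7_nt.ZF.I_Un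
import Pool.Agent.Work.MP_a8fbd7_nt.ZF.I_PrA
import Pool.Agent.Work.MP_a8fbd7_nt.ZF.I_Pnt
import Pool.Agent.Work.MP_a8fbd7_nt.ZF.I_PrI
import Pool.Agent.Work.MP_a8fbd7_nt.ZF.I_Ro
import Pool.Agent.Work.MP_a8fbd7_nt.ZF.I_RoW
import Pool.Agent.Work.MP_a8fbd7_nt.ZF.I_HM
import Pool.Agent.Work.MP_a8fbd7_nt.ZF.I_Near2

/-!
MP_a8fbd7_nt, block ZF: everything together.
-/

namespace Pool.Agent.Work.MP_a8fbd7_nt.ZF

theorem all_VK3 : StVK3 := VK.VK3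
theorem all_Lo : StLo := iLo
theorem all_Rg : StRg := iRg all_VK3 all_Lo
theorem all_Mb : StMb := iMb
theorem all_Kn : StKn := iKn
theorem all_Pe : StPe := iPe all_Kn all_Mb
theorem all_Sh : StSh := iSh
theorem all_Bd : StBd := iBd all_Rg all_Mb all_Pe all_Sh
theorem all_Un : StUn := iUn all_Bd
theorem all_PrA : StPrA := iPrA all_Un
theorem all_Pnt : StPnt := iPnt all_PrA
theorem all_PrI : StPrI := iPrI all_PrA
theorem all_Ro : StRo := iRo all_PrI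
theorem all_RoW : StRoW := iRoW all_Ro
theorem all_HM : StHM := iHM OX.Uc.u_Kp OX.Uc.u_S2
theorem all_Near2 : StNear2 := iNear2 all_HM OX.Uc.u_S2

end Pool.Agent.Work.MP_a8fbd7_nt.ZF
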