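import Pool.Agent.Work.MP_a8fbd7_nt.ZF.Stmts
import Pool.Agent.Work.MP_a8fbd7_nt.ZF.I_Near2

/-!
MP_a8fbd7_nt, block ZF, item Near: the near zone (three products).
-/

open MeasureTheory Set Filter Topology

noncomputable section

namespace Pool.Agent.Work.MP_a8fbd7_nt.ZF

open Pool.Agent.Work.MP_56b8f5_nt.UC (IsWt Bl Dp Sep)
open Pool.Agent.Work.MP_56b8f5_nt

namespace Near_aux

/-- arithmetic and geometric mean of three numbers -/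
theorem amgm3 {a b c : ℝ} (ha : 0 ≤ a) (hb : 0 ≤ b) (hc : 0 ≤ c) :
    a * b * c ≤ ((a + b + c) / 3) ^ 3 := by
  have h1 := mul_nonneg ha (sq_nonneg (b - c))
  have h2 := mul_nonneg hb (sq_nonneg (c - a))
  have h3 := mul_nonneg hc (sq_nonneg (a - b))
  have h4 := mul_nonneg (add_nonneg (add_nonneg ha hb) hc) (sq_nonneg (b - c))
  have h5 := mul_nonneg (add_nonneg (add_nonneg ha hb) hc) (sq_nonneg (c - a))
  have h6 := mul_nonneg (add_nonneg (add_nonneg ha hb) hc) (sq_nonneg (a - b))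
  nlinarith

/-- the pointwise bound -/
theorem pt {A D q g0 g1 g2 g4 l0 l1 l2 l4 : ℝ} (hA : 0 < A) (hD : 1 ≤ D) (hq : 0 ≤ q)
    (hg0 : 0 ≤ g0) (hg1 : 0 ≤ g1) (hg2 : 0 ≤ g2) (hg4 : 0 ≤ g4)
    (hl0 : 0 < l0) (hl1 : 0 < l1) (hl2 : 0 < l2) (hl4 : 0 < l4)
    (h4 : g4 ≤ D * l4) (hF : g0 * g1 * g2 * g4 ≤ q * (l0 * l1 * l2 * l4)) :
    g0 * g1 * g2 * g4 ≤ A * D * q ^ (1 / 3 : ℝ) * (l0 * l1 * l2 * l4) *
      ((g0 ^ 2 / (A * l0 ^ 2) + g1 ^ 2 / (A * l1 ^ 2) + g2 ^ 2 / (A * l2 ^ 2)) / 3) := by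
  have hD0 : 0 < D := by linarith
  set s : ℝ := (g0 ^ 2 / (A * l0 ^ 2) + g1 ^ 2 / (A * l1 ^ 2) + g2 ^ 2 / (A * l2 ^ 2)) / 3 with hs
  have hs0 : 0 ≤ s := by positivity
  have hq3 : (q ^ (1 / 3 : ℝ)) ^ 3 = q := by
    rw [← Real.rpow_natCast, ← Real.rpow_mul hq]
    norm_num
  have hq30 : 0 ≤ q ^ (1 / 3 : ℝ) := Real.rpow_nonneg hq _
  refine le_of_pow_le_pow_left₀ (n := 3) (by norm_num) (by positivity) ?_
  have ham := amgm3 (a := g0 ^ 2 / (A * l0 ^ 2)) (b := g1 ^ 2 / (A * l1 ^ 2))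
    (c := g2 ^ 2 / (A * l2 ^ 2)) (by positivity) (by positivity) (by positivity)
  rw [← hs] at ham
  have hprod : g0 ^ 2 * g1 ^ 2 * g2 ^ 2 ≤ A ^ 3 * (l0 * l1 * l2) ^ 2 * s ^ 3 := by
    have h1 : g0 ^ 2 / (A * l0 ^ 2) * (g1 ^ 2 / (A * l1 ^ 2)) * (g2 ^ 2 / (A * l2 ^ 2)) =
        g0 ^ 2 * g1 ^ 2 * g2 ^ 2 / (A ^ 3 * (l0 * l1 * l2) ^ 2) := by
      field_simp
    rw [h1, div_le_iff₀ (by positivity)] at ham
    linarith
  calc (g0 * g1 * g2 * g4) ^ 3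
      = (g0 * g1 * g2 * g4) * ((g0 ^ 2 * g1 ^ 2 * g2 ^ 2) * g4 ^ 2) := by ring
    _ ≤ (q * (l0 * l1 * l2 * l4)) * ((A ^ 3 * (l0 * l1 * l2) ^ 2 * s ^ 3) * (D * l4) ^ 2) := by
        refine mul_le_mul hF ?_ (by positivity) (by positivity)
        refine mul_le_mul hprod ?_ (by positivity) (by positivity)
        exact pow_le_pow_left₀ hg4 h4 2
    _ = A ^ 3 * D ^ 2 * q * (l0 * l1 * l2 * l4) ^ 3 * s ^ 3 := by ring
    _ ≤ A ^ 3 * D ^ 3 * q * (l0 * l1 * l2 * l4) ^ 3 * s ^ 3 := by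
        have h2 : D ^ 2 ≤ D ^ 3 := pow_le_pow_right₀ hD (by norm_num)
        gcongr
    _ = (A * D * q ^ (1 / 3 : ℝ) * (l0 * l1 * l2 * l4) * s) ^ 3 := by
        have h3 : (A * D * q ^ (1 / 3 : ℝ) * (l0 * l1 * l2 * l4) * s) ^ 3 =
            A ^ 3 * D ^ 3 * (q ^ (1 / 3 : ℝ)) ^ 3 * (l0 * l1 * l2 * l4) ^ 3 * s ^ 3 := by ring
        rw [h3, hq3]

end Near_aux

open Near_aux Near2_aux in
theorem iNear (hHM : StHM) (hS2 : UC.StS2) : StNear := by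
  intro c C0 hc hc2 hC0
  obtain ⟨CH, hCH1, hCH⟩ := hHM C0 hC0
  obtain ⟨CS, hCS1, hCS⟩ := hS2
  set K : ℝ := 2 * CH + 2 * ((2 * CH) ^ (8 / (5 * c))) ^ 2 with hK
  have hB0 : 0 ≤ (2 * CH) ^ (8 / (5 * c)) := Real.rpow_nonneg (by linarith) _
  have hK0 : 0 ≤ K := by positivity
  refine ⟨c / 8, CH * (1 + K), by linarith, by nlinarith, ?_⟩
  intro T0 T q D L L4 Y a G4 W hT hL hL4 hq hD1 hD ha hsum hsep hW hlow hG4 hF
  have hTc : (1 : ℝ) ≤ T ^ (1 / 2 + c) := Real.one_le_rpow hT (by linarith)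
  have hL1 : ∀ i, 1 ≤ L i := fun i => hTc.trans (hL i).1
  have hLp : ∀ i, 0 < L i := fun i => lt_of_lt_of_le one_pos (hL1 i)
  have hcard : (W.card : ℝ) ≤ 2 * T := (hCS W hsep).2.2 T0 T hT hW
  have hHM1 : ∀ i : Fin 3, ∑ t ∈ W, ‖Dp Y (a i) t‖ ^ 2 ≤
      CH * (L i + W.card * Real.sqrt T) * (D * L i) := by
    intro i
    refine (hCH T0 T (L i) Y (a i) W hT (hL1 i) (ha i) hsep hW).trans ?_
    refine mul_le_mul_of_nonneg_left (hsum i) ?_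
    have := Real.sqrt_nonneg T
    have := (hLp i).le
    positivity
  have hR : (W.card : ℝ) * Real.sqrt T ≤ K * L 0 := by
    refine few hc hc2 hCH1 hT (hL 0).1 hD1 hD (Nat.cast_nonneg _) hcard ?_
    refine le_trans ?_ (hHM1 0)
    have h1 : ∀ t ∈ W, ((L 0) ^ (1 - c / 8)) ^ 2 ≤ ‖Dp Y (a 0) t‖ ^ 2 := fun t ht =>
      pow_le_pow_left₀ (Real.rpow_nonneg (hLp 0).le _) (hlow t ht) 2
    have h2 := Finset.card_nsmul_le_sum W (fun t => ‖Dp Y (a 0) t‖ ^ 2) _ h1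
    rwa [nsmul_eq_mul] at h2
  have hCK1 : 1 ≤ CH * (1 + K) := by nlinarith
  set A : ℝ := CH * (1 + K) * D with hA
  have hA0 : 0 < A := by positivity
  have hb : ∀ i : Fin 3, ∑ t ∈ W, ‖Dp Y (a i) t‖ ^ 2 ≤ A * L i ^ 2 := by
    intro i
    refine (hHM1 i).trans ?_
    have h0 : (W.card : ℝ) * Real.sqrt T ≤ K * L i :=
      hR.trans (mul_le_mul_of_nonneg_left (hL i).2 hK0)
    have h1 : L i + W.card * Real.sqrt T ≤ (1 + K) * L i := by linarith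
    have h2 := (hLp i).le
    calc CH * (L i + W.card * Real.sqrt T) * (D * L i) ≤ CH * ((1 + K) * L i) * (D * L i) := by
          refine mul_le_mul_of_nonneg_right ?_ (by positivity)
          exact mul_le_mul_of_nonneg_left h1 (by linarith)
      _ = _ := by rw [hA]; ring
  have hc1 : ∀ i : Fin 3, ∑ t ∈ W, ‖Dp Y (a i) t‖ ^ 2 / (A * L i ^ 2) ≤ 1 := by
    intro i
    have h2 := hLp i
    rw [← Finset.sum_div, div_le_one (by positivity)]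
    exact hb i
  have hP : 0 < L 0 * L 1 * L 2 * L4 := by
    have h0 := hLp 0
    have h1 := hLp 1
    have h2 := hLp 2
    positivity
  have hq30 : 0 ≤ q ^ (1 / 3 : ℝ) := Real.rpow_nonneg hq _
  calc ∑ t ∈ W, ‖Dp Y (a 0) t * Dp Y (a 1) t * Dp Y (a 2) t * G4 t‖
      ≤ ∑ t ∈ W, A * D * q ^ (1 / 3 : ℝ) * (L 0 * L 1 * L 2 * L4) *
        ((‖Dp Y (a 0) t‖ ^ 2 / (A * L 0 ^ 2) + ‖Dp Y (a 1) t‖ ^ 2 / (A * L 1 ^ 2) +
          ‖Dp Y (a 2) t‖ ^ 2 / (A * L 2 ^ 2)) / 3) := by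
        refine Finset.sum_le_sum fun t ht => ?_
        have h1 := hF t ht
        rw [norm_mul, norm_mul, norm_mul] at h1 ⊢
        exact pt hA0 hD1 hq (norm_nonneg _) (norm_nonneg _) (norm_nonneg _) (norm_nonneg _)
          (hLp 0) (hLp 1) (hLp 2) hL4 (hG4 t ht) h1
    _ = A * D * q ^ (1 / 3 : ℝ) * (L 0 * L 1 * L 2 * L4) *
        ((∑ t ∈ W, ‖Dp Y (a 0) t‖ ^ 2 / (A * L 0 ^ 2) + ∑ t ∈ W, ‖Dp Y (a 1) t‖ ^ 2 / (A * L 1 ^ 2) +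
          ∑ t ∈ W, ‖Dp Y (a 2) t‖ ^ 2 / (A * L 2 ^ 2)) / 3) := by
        rw [← Finset.mul_sum, ← Finset.sum_div, Finset.sum_add_distrib, Finset.sum_add_distrib]
    _ ≤ A * D * q ^ (1 / 3 : ℝ) * (L 0 * L 1 * L 2 * L4) * 1 := by
        refine mul_le_mul_of_nonneg_left ?_ (by positivity)
        have h0 := hc1 0
        have h1 := hc1 1
        have h2 := hc1 2
        linarith
    _ = CH * (1 + K) * D ^ 2 * q ^ (1 / 3 : ℝ) * (L 0 * L 1 * L 2 * L4) := by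
        rw [hA]; ring

end Pool.Agent.Work.MP_a8fbd7_nt.ZF
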