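import Pool.Agent.Work.MP_a8fbd7_nt.ZF.Stmts

/-!
MP_a8fbd7_nt, block ZF, item Un (unsmoothing): from the Riesz mean to the sharp cut-off.
-/

open MeasureTheory Set Filter Topology

noncomputable section

namespace Pool.Agent.Work.MP_a8fbd7_nt.ZF

namespace Un_aux

/-- the coefficient `Λ(n) n^{-it}` -/
def cf (t : ℝ) (n : ℕ) : ℂ :=
  ((ArithmeticFunction.vonMangoldt n : ℝ) : ℂ) * (n : ℂ) ^ (-(t * Complex.I))

lemma f_norm (t u : ℝ) (hu : 0 < u) : ‖(u : ℂ) ^ (-(t * Complex.I))‖ = 1 := by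
  rw [Complex.norm_cpow_eq_rpow_re_of_pos hu]
  simp

lemma cf_norm (t : ℝ) (n : ℕ) (hn : 1 ≤ n) : ‖cf t n‖ ≤ Real.log n := by
  unfold cf
  have h0 : (0 : ℝ) < (n : ℝ) := by exact_mod_cast hn
  have h1 : ‖(n : ℂ) ^ (-(t * Complex.I))‖ = 1 := by
    have := f_norm t (n : ℝ) h0
    simpa using this
  rw [norm_mul, h1, mul_one, Complex.norm_real, Real.norm_eq_abs,
    abs_of_nonneg ArithmeticFunction.vonMangoldt_nonneg]
  exact ArithmeticFunction.vonMangoldt_le_log

lemma f_cont (t : ℝ) (a b : ℝ) (ha : 0 < a) :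
    ContinuousOn (fun u : ℝ => (u : ℂ) ^ (-(t * Complex.I))) (Icc a b) := by
  intro u hu
  have hu0 : 0 < u := lt_of_lt_of_le ha hu.1
  have h1 : ContinuousAt (fun u : ℝ => (u : ℂ) ^ (-(t * Complex.I))) u := by
    have h2 : (u : ℂ) ∈ Complex.slitPlane := by
      rw [Complex.ofReal_mem_slitPlane]; exact hu0
    have h3 : ContinuousAt (fun u : ℝ => (u : ℂ)) u := Complex.continuous_ofReal.continuousAt
    exact h3.cpow continuousAt_const h2
  exact h1.continuousWithinAt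

lemma f_int (t : ℝ) (a b : ℝ) (ha : 0 < a) (hab : a ≤ b) :
    IntervalIntegrable (fun u : ℝ => (u : ℂ) ^ (-(t * Complex.I))) volume a b := by
  apply ContinuousOn.intervalIntegrable
  rw [uIcc_of_le hab]
  exact f_cont t a b ha

lemma g_int (t c : ℝ) (a b : ℝ) (ha : 0 < a) (hab : a ≤ b) :
    IntervalIntegrable (fun u : ℝ => ((c - u : ℝ) : ℂ) * (u : ℂ) ^ (-(t * Complex.I))) volume a b := by
  apply ContinuousOn.intervalIntegrable
  rw [uIcc_of_le hab]
  apply ContinuousOn.mul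
  · exact (Complex.continuous_ofReal.comp (continuous_const.sub continuous_id)).continuousOn
  · exact f_cont t a b ha

/-- the integral part -/
lemma int_diff (y h t : ℝ) (hy : 1 ≤ y) (hh : 0 < h) :
    ‖(∫ u in (1 : ℝ)..(y + h), ((y + h - u : ℝ) : ℂ) * (u : ℂ) ^ (-(t * Complex.I)))
      - (∫ u in (1 : ℝ)..y, ((y - u : ℝ) : ℂ) * (u : ℂ) ^ (-(t * Complex.I)))
      - (h : ℂ) * ∫ u in (1 : ℝ)..y, (u : ℂ) ^ (-(t * Complex.I))‖ ≤ h * h := by
  have e1 : (∫ u in (1 : ℝ)..(y + h), ((y + h - u : ℝ) : ℂ) * (u : ℂ) ^ (-(t * Complex.I)))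
      = (∫ u in (1 : ℝ)..y, ((y + h - u : ℝ) : ℂ) * (u : ℂ) ^ (-(t * Complex.I)))
        + ∫ u in y..(y + h), ((y + h - u : ℝ) : ℂ) * (u : ℂ) ^ (-(t * Complex.I)) := by
    rw [intervalIntegral.integral_add_adjacent_intervals
      (g_int t (y + h) 1 y one_pos hy) (g_int t (y + h) y (y + h) (by linarith) (by linarith))]
  have e2 : (∫ u in (1 : ℝ)..y, ((y + h - u : ℝ) : ℂ) * (u : ℂ) ^ (-(t * Complex.I)))
      = (∫ u in (1 : ℝ)..y, ((y - u : ℝ) : ℂ) * (u : ℂ) ^ (-(t * Complex.I)))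
        + (h : ℂ) * ∫ u in (1 : ℝ)..y, (u : ℂ) ^ (-(t * Complex.I)) := by
    rw [← intervalIntegral.integral_const_mul,
      ← intervalIntegral.integral_add (g_int t y 1 y one_pos hy)
        ((f_int t 1 y one_pos hy).const_mul (h : ℂ))]
    apply intervalIntegral.integral_congr
    intro u _
    push_cast
    ring
  rw [e1, e2]
  have e3 : ∀ a b c : ℂ, a + b + c - a - b = c := by intros; ring
  rw [e3]
  have e4 := intervalIntegral.norm_integral_le_of_norm_le_const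
    (a := y) (b := y + h) (C := h)
    (f := fun u : ℝ => ((y + h - u : ℝ) : ℂ) * (u : ℂ) ^ (-(t * Complex.I))) ?_
  · have e5 : |y + h - y| = h := by
      rw [add_sub_cancel_left, abs_of_pos hh]
    rw [e5] at e4
    exact e4
  · intro u hu
    rw [uIoc_of_le (by linarith)] at hu
    have hu0 : 0 < u := by linarith [hu.1]
    rw [norm_mul, f_norm t u hu0, mul_one, Complex.norm_real, Real.norm_eq_abs, abs_le]
    constructor <;> linarith [hu.1, hu.2]

/-- the sum part -/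
lemma sum_diff (y h t : ℝ) (hy : 1 ≤ y) (hh : 0 < h) :
    ‖Lr (y + h) t - Lr y t - (h : ℂ) * Ls y t‖ ≤ h * ((h + 1) * Real.log (y + h)) := by
  have hf : ⌊y⌋₊ ≤ ⌊y + h⌋₊ := Nat.floor_mono (by linarith)
  have hI : ∀ N : ℕ, Finset.Icc 1 N = Finset.Ioc 0 N := by
    intro N; ext n; simp [Finset.mem_Icc, Finset.mem_Ioc, Nat.succ_le_iff, Nat.pos_iff_ne_zero]
  have e0 : Lr (y + h) t = ∑ n ∈ Finset.Icc 1 ⌊y⌋₊, ((y + h - n : ℝ) : ℂ) * cf t n
      + ∑ n ∈ Finset.Ioc ⌊y⌋₊ ⌊y + h⌋₊, ((y + h - n : ℝ) : ℂ) * cf t n := by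
    have : Lr (y + h) t = ∑ n ∈ Finset.Icc 1 ⌊y + h⌋₊, ((y + h - n : ℝ) : ℂ) * cf t n := rfl
    rw [this, hI, hI, Finset.sum_Ioc_consecutive _ (Nat.zero_le _) hf]
  have e1 : ∑ n ∈ Finset.Icc 1 ⌊y⌋₊, ((y + h - n : ℝ) : ℂ) * cf t n = Lr y t + (h : ℂ) * Ls y t := by
    have h1 : Lr y t = ∑ n ∈ Finset.Icc 1 ⌊y⌋₊, ((y - n : ℝ) : ℂ) * cf t n := rfl
    have h2 : Ls y t = ∑ n ∈ Finset.Icc 1 ⌊y⌋₊, cf t n := rfl
    rw [h1, h2, Finset.mul_sum, ← Finset.sum_add_distrib]
    apply Finset.sum_congr rfl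
    intro n _
    push_cast
    ring
  rw [e0, e1]
  have e3 : ∀ a b c : ℂ, a + b + c - a - b = c := by intros; ring
  rw [e3]
  have hlog : 0 ≤ Real.log (y + h) := Real.log_nonneg (by linarith)
  calc ‖∑ n ∈ Finset.Ioc ⌊y⌋₊ ⌊y + h⌋₊, ((y + h - n : ℝ) : ℂ) * cf t n‖
      ≤ ∑ n ∈ Finset.Ioc ⌊y⌋₊ ⌊y + h⌋₊, h * Real.log (y + h) := by
        apply norm_sum_le_of_le
        intro n hn
        rw [Finset.mem_Ioc] at hn
        have hn1 : y < n := by
          have := Nat.lt_of_floor_lt hn.1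
          exact this
        have hn2 : (n : ℝ) ≤ y + h := by
          have := Nat.floor_le (a := y + h) (by linarith)
          have h3 : (n : ℝ) ≤ (⌊y + h⌋₊ : ℝ) := by exact_mod_cast hn.2
          linarith
        have hn3 : 1 ≤ n := by
          have : (0 : ℝ) < n := by linarith
          exact_mod_cast this
        rw [norm_mul, Complex.norm_real, Real.norm_eq_abs]
        have h4 : |y + h - n| ≤ h := by
          rw [abs_le]; constructor <;> linarith
        have h5 : ‖cf t n‖ ≤ Real.log (y + h) :=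
          (cf_norm t n hn3).trans (Real.log_le_log (by linarith) hn2)
        exact mul_le_mul h4 h5 (norm_nonneg _) hh.le
    _ = ((⌊y + h⌋₊ - ⌊y⌋₊ : ℕ) : ℝ) * (h * Real.log (y + h)) := by
        rw [Finset.sum_const, Nat.card_Ioc, nsmul_eq_mul]
    _ ≤ (h + 1) * (h * Real.log (y + h)) := by
        apply mul_le_mul_of_nonneg_right _ (mul_nonneg hh.le hlog)
        rw [Nat.cast_sub hf]
        have h6 := Nat.floor_le (a := y + h) (by linarith)
        have h7 := Nat.lt_floor_add_one y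
        linarith
    _ = h * ((h + 1) * Real.log (y + h)) := by ring

/-- trivial bound for small `y` -/
lemma small (y t : ℝ) (hy : 1 ≤ y) :
    ‖Ls y t - ∫ u in (1 : ℝ)..y, (u : ℂ) ^ (-(t * Complex.I))‖ ≤ y * Real.log y + (y - 1) := by
  have h1 : ‖Ls y t‖ ≤ y * Real.log y := by
    have h2 : Ls y t = ∑ n ∈ Finset.Icc 1 ⌊y⌋₊, cf t n := rfl
    rw [h2]
    have hfl := Nat.floor_le (a := y) (by linarith)
    calc ‖∑ n ∈ Finset.Icc 1 ⌊y⌋₊, cf t n‖ ≤ ∑ n ∈ Finset.Icc 1 ⌊y⌋₊, Real.log y := by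
          apply norm_sum_le_of_le
          intro n hn
          rw [Finset.mem_Icc] at hn
          have hn0 : (0 : ℝ) < n := by exact_mod_cast hn.1
          have hn2 : (n : ℝ) ≤ (⌊y⌋₊ : ℝ) := by exact_mod_cast hn.2
          exact (cf_norm t n hn.1).trans (Real.log_le_log hn0 (by linarith))
      _ = (⌊y⌋₊ : ℝ) * Real.log y := by
          rw [Finset.sum_const, Nat.card_Icc, nsmul_eq_mul]; simp
      _ ≤ y * Real.log y := mul_le_mul_of_nonneg_right hfl (Real.log_nonneg hy)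
  have h2 : ‖∫ u in (1 : ℝ)..y, (u : ℂ) ^ (-(t * Complex.I))‖ ≤ y - 1 := by
    have e4 := intervalIntegral.norm_integral_le_of_norm_le_const
      (a := 1) (b := y) (C := 1)
      (f := fun u : ℝ => (u : ℂ) ^ (-(t * Complex.I))) ?_
    · rw [abs_of_nonneg (by linarith), one_mul] at e4
      exact e4
    · intro u hu
      rw [uIoc_of_le hy] at hu
      rw [f_norm t u (by linarith [hu.1])]
  calc ‖Ls y t - ∫ u in (1 : ℝ)..y, (u : ℂ) ^ (-(t * Complex.I))‖
      ≤ ‖Ls y t‖ + ‖∫ u in (1 : ℝ)..y, (u : ℂ) ^ (-(t * Complex.I))‖ := norm_sub_le _ _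
    _ ≤ _ := add_le_add h1 h2

lemma log_pow_le (A y : ℝ) (hA : 0 < A) (hy : 1 ≤ y) :
    Real.log y ^ (A + 1) ≤ (A + 1) ^ (A + 1) * y := by
  have h1 : 0 < A + 1 := by linarith
  have h2 : Real.log y ≤ (A + 1) * y ^ (1 / (A + 1)) := by
    have := Real.log_le_rpow_div (x := y) (ε := 1 / (A + 1)) (by linarith) (by positivity)
    have e : y ^ (1 / (A + 1)) / (1 / (A + 1)) = (A + 1) * y ^ (1 / (A + 1)) := by
      field_simp
    rw [e] at this
    exact this
  have h0 : 0 ≤ Real.log y := Real.log_nonneg hy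
  calc Real.log y ^ (A + 1) ≤ ((A + 1) * y ^ (1 / (A + 1))) ^ (A + 1) :=
        Real.rpow_le_rpow h0 h2 h1.le
    _ = (A + 1) ^ (A + 1) * y := by
        rw [Real.mul_rpow h1.le (Real.rpow_nonneg (by linarith) _), ← Real.rpow_mul (by linarith),
          one_div_mul_cancel h1.ne', Real.rpow_one]

end Un_aux

open Un_aux in
theorem iUn (hBd : StBd) : StUn := by
  intro A B hA hB
  obtain ⟨C0, hC0, hD⟩ := hBd (2 * A + 1) B (by linarith) hB
  have hAA : 0 < (A + 1) ^ (A + 1) := Real.rpow_pos_of_pos (by linarith) _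
  have h2A : (0 : ℝ) < 2 ^ A := Real.rpow_pos_of_pos (by norm_num) _
  refine ⟨5 * C0 + 3 + 2 * (A + 1) ^ (A + 1) + 8 * 2 ^ A, by linarith, ?_⟩
  intro y t hy ht
  have hlogpos : 0 < Real.log y := Real.log_pos (by linarith)
  have hLA : 0 < Real.log y ^ A := Real.rpow_pos_of_pos hlogpos _
  by_cases hy3 : y < 3
  · -- small y
    have hlog2 : Real.log y ≤ 2 := by
      have := Real.log_le_sub_one_of_pos (x := y) (by linarith)
      linarith
    have hle : Real.log y ^ A ≤ 2 ^ A := Real.rpow_le_rpow hlogpos.le hlog2 hA.le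
    have h1 := small y t (by linarith)
    have h2 : y * Real.log y + (y - 1) ≤ 8 := by nlinarith
    refine h1.trans (h2.trans ?_)
    rw [le_div_iff₀ hLA]
    have h3 : 8 * Real.log y ^ A ≤ 8 * 2 ^ A := by linarith
    have h4 : (8 * 2 ^ A) * 1 ≤ (5 * C0 + 3 + 2 * (A + 1) ^ (A + 1) + 8 * 2 ^ A) * y := by
      apply mul_le_mul _ (by linarith) (by norm_num) (by positivity)
      linarith
    linarith
  · push Not at hy3
    set L := Real.log y with hL
    have hL1 : 1 ≤ L := by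
      rw [hL, Real.le_log_iff_exp_le (by linarith)]
      have := Real.exp_one_lt_d9
      linarith
    have hy0 : 0 < y := by linarith
    have hLA1 : 0 < L ^ (A + 1) := Real.rpow_pos_of_pos hlogpos _
    have hLA1' : 1 ≤ L ^ (A + 1) := Real.one_le_rpow hL1 (by linarith)
    set h := y / L ^ (A + 1) with hh
    have hhpos : 0 < h := div_pos hy0 hLA1
    have hhy : h ≤ y := div_le_self hy0.le hLA1'
    have hp1 : 0 < L ^ (2 * A + 1) := Real.rpow_pos_of_pos hlogpos _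
    have hL2 : L ^ (2 * A + 1) = L ^ A * L ^ (A + 1) := by
      rw [← Real.rpow_add hlogpos]; congr 1; ring
    have hL3 : L ^ (A + 1) = L ^ A * L := by
      rw [Real.rpow_add hlogpos, Real.rpow_one]
    -- bounds for D
    have hDy := hD y t hy ht
    have hDh := hD (y + h) t (by linarith)
      (ht.trans (Real.rpow_le_rpow hy0.le (by linarith) hB.le))
    have hDh2 : C0 * (y + h) ^ 2 / Real.log (y + h) ^ (2 * A + 1) ≤ C0 * (4 * y ^ 2) / L ^ (2 * A + 1) := by
      have hl : L ≤ Real.log (y + h) := Real.log_le_log hy0 (by linarith)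
      have hl2 : L ^ (2 * A + 1) ≤ Real.log (y + h) ^ (2 * A + 1) :=
        Real.rpow_le_rpow hlogpos.le hl (by linarith)
      apply div_le_div₀ (by positivity) _ hp1 hl2
      apply mul_le_mul_of_nonneg_left _ (by linarith)
      nlinarith
    have hI := int_diff y h t (by linarith) hhpos
    have hS := sum_diff y h t (by linarith) hhpos
    have hlog2y : Real.log (y + h) ≤ 2 * L := by
      calc Real.log (y + h) ≤ Real.log (y * y) := by
            apply Real.log_le_log (by linarith)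
            nlinarith
        _ = 2 * L := by rw [Real.log_mul hy0.ne' hy0.ne']; ring
    set X := Ls y t - ∫ u in (1 : ℝ)..y, (u : ℂ) ^ (-(t * Complex.I)) with hX
    have hkey : h * ‖X‖ ≤ 5 * C0 * y ^ 2 / L ^ (2 * A + 1) + h * h + h * ((h + 1) * (2 * L)) := by
      have e1 : (h : ℂ) * X =
          (Lr (y + h) t - ∫ u in (1 : ℝ)..(y + h), ((y + h - u : ℝ) : ℂ) * (u : ℂ) ^ (-(t * Complex.I)))
          - (Lr y t - ∫ u in (1 : ℝ)..y, ((y - u : ℝ) : ℂ) * (u : ℂ) ^ (-(t * Complex.I)))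
          + ((∫ u in (1 : ℝ)..(y + h), ((y + h - u : ℝ) : ℂ) * (u : ℂ) ^ (-(t * Complex.I)))
              - (∫ u in (1 : ℝ)..y, ((y - u : ℝ) : ℂ) * (u : ℂ) ^ (-(t * Complex.I)))
              - (h : ℂ) * ∫ u in (1 : ℝ)..y, (u : ℂ) ^ (-(t * Complex.I)))
          - (Lr (y + h) t - Lr y t - (h : ℂ) * Ls y t) := by
        rw [hX]; ring
      have e2 : h * ‖X‖ = ‖(h : ℂ) * X‖ := by
        rw [norm_mul, Complex.norm_real, Real.norm_eq_abs, abs_of_pos hhpos]
      rw [e2, e1]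
      have n1 : ∀ a b c d : ℂ, ‖a - b + c - d‖ ≤ ‖a‖ + ‖b‖ + ‖c‖ + ‖d‖ := by
        intro a b c d
        calc ‖a - b + c - d‖ ≤ ‖a - b + c‖ + ‖d‖ := norm_sub_le _ _
          _ ≤ ‖a - b‖ + ‖c‖ + ‖d‖ := by gcongr; exact norm_add_le _ _
          _ ≤ ‖a‖ + ‖b‖ + ‖c‖ + ‖d‖ := by gcongr; exact norm_sub_le _ _
      refine (n1 _ _ _ _).trans ?_
      have s1 : h * ((h + 1) * Real.log (y + h)) ≤ h * ((h + 1) * (2 * L)) := by
        apply mul_le_mul_of_nonneg_left _ hhpos.le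
        exact mul_le_mul_of_nonneg_left hlog2y (by linarith)
      have s2 : 5 * C0 * y ^ 2 / L ^ (2 * A + 1) =
          C0 * (4 * y ^ 2) / L ^ (2 * A + 1) + C0 * y ^ 2 / L ^ (2 * A + 1) := by ring
      rw [s2]
      have := hDh.trans hDh2
      linarith
    -- divide by h
    have hdiv : ‖X‖ ≤ 5 * C0 * y / L ^ A + h + (h + 1) * (2 * L) := by
      have e3 : 5 * C0 * y ^ 2 / L ^ (2 * A + 1) = h * (5 * C0 * y / L ^ A) := by
        rw [hh, hL2]; field_simp
      rw [e3] at hkey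
      have e4 : h * (5 * C0 * y / L ^ A) + h * h + h * ((h + 1) * (2 * L)) =
          h * (5 * C0 * y / L ^ A + h + (h + 1) * (2 * L)) := by ring
      rw [e4] at hkey
      exact le_of_mul_le_mul_left hkey hhpos
    have hlogp := log_pow_le A y hA (by linarith)
    rw [← hL] at hlogp
    have f1 : h ≤ y / L ^ A := by
      rw [hh]
      apply div_le_div_of_nonneg_left hy0.le hLA
      rw [hL3]
      exact le_mul_of_one_le_right hLA.le hL1
    have f2 : h * L = y / L ^ A := by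
      rw [hh, hL3]; field_simp
    have f3 : L ≤ (A + 1) ^ (A + 1) * (y / L ^ A) := by
      rw [← mul_div_assoc, le_div_iff₀ hLA]
      rw [hL3] at hlogp
      linarith
    have f4 : (5 * C0 + 3 + 2 * (A + 1) ^ (A + 1) + 8 * 2 ^ A) * y / L ^ A =
        5 * C0 * y / L ^ A + 3 * (y / L ^ A) + 2 * ((A + 1) ^ (A + 1) * (y / L ^ A)) + 8 * 2 ^ A * (y / L ^ A) := by
      ring
    rw [f4]
    have f5 : 0 ≤ 8 * 2 ^ A * (y / L ^ A) := by positivity
    have f6 : (h + 1) * (2 * L) = 2 * (h * L) + 2 * L := by ring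
    rw [f6, f2] at hdiv
    linarith

end Pool.Agent.Work.MP_a8fbd7_nt.ZF
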